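import Pool.Agent.H861R3.NT.Defs
import Pool.Agent.H544R2.Prim
import Pool.Agent.H654R5.PT.Defs
import Pool.Agent.H639R2.NTP.Comp
import Pool.Agent.H668R2.Dehn.TM

/-!
# Polynomial-time truth-table reductions give computable truth tables

A polynomial-time computable function with values Boolean formulas (given by their codes) gives a
computable function with values truth tables, with polynomially many queries of polynomial length.
-/

namespace Pool.Agent.H861R3.NT.Bridge

open Pool.Agent.H861R3.NT
open Pool.Agent.NPC
open Pool.Agent.H654R5.PT (BF PttReduces)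
open Turing

/-! ### The length of the output -/

theorem polyTime_length {F : List Bool → List Bool} (hF : PolyTime F) :
    ∃ p : Polynomial ℕ, ∀ x, (F x).length ≤ p.eval x.length := by
  obtain ⟨M⟩ := hF
  obtain ⟨C, hC⟩ := Pool.Agent.H668R2.Dehn.steps_length M.tm
  refine ⟨Polynomial.X + Polynomial.C C * M.time, fun x => ?_⟩
  obtain ⟨⟨j, hj⟩, hjt⟩ := M.outputsFun x
  have h1 := hC j _ _ hj M.tm.k₁
  have h2 : ((haltList M.tm ((F x).map M.outputAlphabet.invFun)).stk M.tm.k₁).length =
      (F x).length := by
    simp [haltList]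
  have h3 : ((initList M.tm (x.map M.inputAlphabet.invFun)).stk M.tm.k₁).length ≤
      x.length := by
    unfold initList
    simp only
    by_cases h : M.tm.k₁ = M.tm.k₀
    · rw [dif_pos h]
      rw [← List.length_map (f := M.inputAlphabet.invFun) (as := x)]
      exact (Pool.Agent.H668R2.Dehn.mpr_length (congrArg M.tm.Γ h) _ _).le
    · rw [dif_neg h]
      exact Nat.zero_le _
  have h4 : C * j ≤ C * M.time.eval x.length := Nat.mul_le_mul_left C hjt
  simp only [Polynomial.eval_add, Polynomial.eval_X, Polynomial.eval_mul, Polynomial.eval_C]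
  have h5 : (F x).length ≤ x.length + C * j := by
    rw [← h2]
    refine h1.trans ?_
    exact Nat.add_le_add_right h3 _
  omega

/-! ### Truth tables of formulas -/

/-- one query -/
def atomTT (w : Str) : TT := ([w], [false, true])

/-- the empty table: always false -/
def flsTT : TT := ([], [])

/-- negation -/
def notTT (p : TT) : TT := (p.1, (List.range (2 ^ p.1.length)).map (fun j => !(p.2.getD j false)))

/-- conjunction -/
def andTT (p q : TT) : TT := (p.1 ++ q.1, (List.range (2 ^ (p.1.length + q.1.length))).map
  (fun j => p.2.getD (j % 2 ^ p.1.length) false && q.2.getD (j / 2 ^ p.1.length) false))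

/-- disjunction -/
def orTT (p q : TT) : TT := (p.1 ++ q.1, (List.range (2 ^ (p.1.length + q.1.length))).map
  (fun j => p.2.getD (j % 2 ^ p.1.length) false || q.2.getD (j / 2 ^ p.1.length) false))

theorem eval_atomTT (w : Str) (a : Str → Bool) : evalTT (atomTT w) a = a w := by
  cases h : a w <;> simp [evalTT, atomTT, h]

theorem eval_flsTT (a : Str → Bool) : evalTT flsTT a = false := by
  simp [evalTT, flsTT]

theorem getD_map_range {f : ℕ → Bool} {n j : ℕ} (h : j < n) :
    ((List.range n).map f).getD j false = f j := by
  rw [List.getD_eq_getElem?_getD, List.getElem?_map, List.getElem?_range h]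
  rfl

theorem valB_map_lt (l : List Str) (a : Str → Bool) : valB (l.map a) < 2 ^ l.length := by
  have := valB_lt (l.map a)
  rwa [List.length_map] at this

theorem eval_notTT (p : TT) (a : Str → Bool) : evalTT (notTT p) a = !(evalTT p a) := by
  unfold evalTT notTT
  rw [getD_map_range (valB_map_lt _ _)]

theorem valB_app_lt (p q : TT) (a : Str → Bool) :
    valB ((p.1 ++ q.1).map a) < 2 ^ (p.1.length + q.1.length) := by
  have := valB_map_lt (p.1 ++ q.1) a
  rwa [List.length_append] at this

theorem valB_app_mod (p q : TT) (a : Str → Bool) :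
    valB ((p.1 ++ q.1).map a) % 2 ^ p.1.length = valB (p.1.map a) := by
  rw [List.map_append, valB_append, List.length_map, Nat.add_mul_mod_self_left,
    Nat.mod_eq_of_lt (valB_map_lt _ _)]

theorem valB_app_div (p q : TT) (a : Str → Bool) :
    valB ((p.1 ++ q.1).map a) / 2 ^ p.1.length = valB (q.1.map a) := by
  rw [List.map_append, valB_append, List.length_map, Nat.add_mul_div_left _ _ (by positivity),
    Nat.div_eq_of_lt (valB_map_lt _ _), zero_add]

theorem eval_andTT (p q : TT) (a : Str → Bool) :
    evalTT (andTT p q) a = (evalTT p a && evalTT q a) := by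
  unfold evalTT andTT
  rw [getD_map_range (valB_app_lt p q a)]
  simp only [valB_app_mod, valB_app_div]

theorem eval_orTT (p q : TT) (a : Str → Bool) :
    evalTT (orTT p q) a = (evalTT p a || evalTT q a) := by
  unfold evalTT orTT
  rw [getD_map_range (valB_app_lt p q a)]
  simp only [valB_app_mod, valB_app_div]

/-- the truth table of a formula -/
def tt : BF → TT
  | BF.atom w => atomTT w
  | BF.fls => flsTT
  | BF.neg p => notTT (tt p)
  | BF.and p q => andTT (tt p) (tt q)
  | BF.or p q => orTT (tt p) (tt q)

open Classical in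
theorem eval_tt (B : Set (List Bool)) (p : BF) :
    evalTT (tt p) (fun q => decide (q ∈ B)) = true ↔ p.eval B := by
  induction p with
  | atom w => rw [tt, eval_atomTT]; simp [BF.eval]
  | fls => rw [tt, eval_flsTT]; simp [BF.eval]
  | neg p ih => rw [tt, eval_notTT, BF.eval, ← ih]; simp
  | and p q ihp ihq => rw [tt, eval_andTT, BF.eval, ← ihp, ← ihq]; simp
  | or p q ihp ihq => rw [tt, eval_orTT, BF.eval, ← ihp, ← ihq]; simp

/-! ### The size -/

theorem enc_toT_str (w : List Bool) : w.length ≤ (toT w : T).enc.length := by
  induction w with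
  | nil => exact Nat.zero_le _
  | cons b w ih =>
    have h : (toT (b :: w) : T) = T.node (toT b) (toT w) := rfl
    rw [h, T.enc]
    simp only [List.length_cons, List.length_append]
    omega

theorem tt_size (p : BF) : (tt p).1.length ≤ p.tree.enc.length ∧
    ∀ q ∈ (tt p).1, q.length ≤ p.tree.enc.length := by
  induction p with
  | atom w =>
    simp only [tt, atomTT, BF.tree, T.enc, List.length_cons, List.length_append, List.length_nil]
    have := enc_toT_str w
    refine ⟨by omega, fun q hq => ?_⟩
    rw [List.mem_singleton] at hq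
    subst hq
    omega
  | fls => simp [tt, flsTT]
  | neg p ih =>
    simp only [tt, notTT, BF.tree, T.enc, List.length_cons, List.length_append, List.length_nil]
    refine ⟨by omega, fun q hq => ?_⟩
    have := ih.2 q hq
    omega
  | and p q ihp ihq =>
    simp only [tt, andTT, BF.tree, T.enc, List.length_cons, List.length_append, List.length_nil,
      List.mem_append]
    refine ⟨by omega, fun r hr => ?_⟩
    rcases hr with hr | hr
    · have := ihp.2 r hr
      omega
    · have := ihq.2 r hr
      omega
  | or p q ihp ihq =>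
    simp only [tt, orTT, BF.tree, T.enc, List.length_cons, List.length_append, List.length_nil,
      List.mem_append]
    refine ⟨by omega, fun r hr => ?_⟩
    rcases hr with hr | hr
    · have := ihp.2 r hr
      omega
    · have := ihq.2 r hr
      omega

/-! ### Computing the truth table from the code -/

/-- The data of a tree: a tag, the string, the table of the formula, and the tables of the formulas
of the two children. -/
abbrev X := ℕ × Str × TT × (TT × TT)

/-- the data of the empty tree -/
def x0 : X := (0, [], flsTT, (flsTT, flsTT))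

/-- the data of a node -/
def xnode (a b : X) : X :=
  (if a.1 = 0 ∧ b.1 = 0 then 1 else if a.1 = 0 ∧ b.1 = 1 then 2 else
    if a.1 = 1 ∧ b.1 = 0 then 3 else 4,
   decide (a.1 ≠ 0) :: b.2.1,
   (if a.1 = 0 then atomTT b.2.1 else if a.1 = 1 then notTT b.2.2.1 else
    if a.1 = 2 then andTT b.2.2.2.1 b.2.2.2.2 else orTT b.2.2.2.1 b.2.2.2.2),
   (a.2.2.1, b.2.2.1))

/-- the data of a tree -/
def xt : T → X
  | T.nil => x0
  | T.node l r => xnode (xt l) (xt r)

/-- one step of the stack machine -/
def stk (b : Bool) (st : List X) : List X :=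
  if b = true then xnode (st.getD 0 x0) (st.getD 1 x0) :: st.drop 2 else x0 :: st

theorem foldr_stk (t : T) : ∀ (st : List X), t.enc.foldr stk st = xt t :: st := by
  induction t with
  | nil => intro st; simp [T.enc, stk, xt]
  | node l r ihl ihr =>
    intro st
    rw [T.enc, List.foldr_cons, List.foldr_append, ihr, ihl]
    simp [stk, xt]

theorem xt_str (w : List Bool) : (xt (toT w)).2.1 = w := by
  induction w with
  | nil => rfl
  | cons b w ih =>
    have h : (toT (b :: w) : T) = T.node (toT b) (toT w) := rfl
    rw [h, xt, xnode, ih]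
    cases b
    · rfl
    · rfl

theorem xt_tree (p : BF) : (xt p.tree).2.2.1 = tt p := by
  induction p with
  | atom w =>
    have h := xt_str w
    simp only [BF.tree, xt, xnode, x0, tt, if_true, h]
  | fls => rfl
  | neg p ih =>
    have h : (xt (T.node T.nil T.nil)).1 = 1 := rfl
    rw [BF.tree, xt, xnode, h]
    simp only [one_ne_zero, if_false, if_true, ih, tt]
  | and p q ihp ihq =>
    have h : (xt (T.node T.nil (T.node T.nil T.nil))).1 = 2 := rfl
    rw [BF.tree, xt, xnode, h]
    simp only [OfNat.ofNat_ne_zero, OfNat.ofNat_ne_one, if_false, if_true, tt, xt, xnode, ihp, ihq]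
  | or p q ihp ihq =>
    have h : (xt (T.node (T.node T.nil T.nil) T.nil)).1 = 3 := rfl
    rw [BF.tree, xt, xnode, h]
    simp only [OfNat.ofNat_ne_zero, OfNat.ofNat_ne_one, if_false, tt, xt, xnode, ihp, ihq,
      show ¬ (3 : ℕ) = 2 by decide]

/-- the truth table from the code -/
def ttOfBits (s : List Bool) : TT := ((s.foldr stk []).getD 0 x0).2.2.1

theorem ttOfBits_bits (p : BF) : ttOfBits (bits p) = tt p := by
  have h : bits p = p.tree.enc := rfl
  rw [ttOfBits, h, foldr_stk]
  simp only [List.getD_cons_zero]
  exact xt_tree p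

/-! ### Primitive recursiveness -/

section

open Primrec

variable {α : Type} [Primcodable α]

theorem prim_atomTT : Primrec atomTT :=
  Primrec.pair (list_cons.comp Primrec.id (Primrec.const [])) (Primrec.const [false, true])

theorem prim_notTT : Primrec notTT := by
  refine Primrec.pair fst (list_map (list_range.comp
    (Pool.Agent.H544R2.nat_pow.comp (Primrec.const 2) (list_length.comp fst))) ?_)
  have h : Primrec (fun x : TT × ℕ => !(x.1.2.getD x.2 false)) :=
    (Primrec.dom_bool _).comp ((list_getD false).comp (snd.comp fst) snd)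
  exact h

theorem prim_len : Primrec₂ (fun p q : TT => p.1.length + q.1.length) :=
  Primrec.nat_add.comp (list_length.comp (fst.comp fst)) (list_length.comp (fst.comp snd))

theorem prim_binTT (o : Bool → Bool → Bool) : Primrec₂ (fun p q : TT => ((p.1 ++ q.1,
    (List.range (2 ^ (p.1.length + q.1.length))).map
      (fun j => o (p.2.getD (j % 2 ^ p.1.length) false) (q.2.getD (j / 2 ^ p.1.length) false))) :
        TT)) := by
  refine Primrec.pair (list_append.comp (fst.comp fst) (fst.comp snd)) (list_map (list_range.comp
    (Pool.Agent.H544R2.nat_pow.comp (Primrec.const 2) prim_len)) ?_)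
  have hp : Primrec (fun x : (TT × TT) × ℕ => 2 ^ x.1.1.1.length) :=
    Pool.Agent.H544R2.nat_pow.comp (Primrec.const 2)
      (list_length.comp (fst.comp (fst.comp fst)))
  have h1 : Primrec (fun x : (TT × TT) × ℕ => x.1.1.2.getD (x.2 % 2 ^ x.1.1.1.length) false) :=
    (list_getD false).comp (snd.comp (fst.comp fst)) (Primrec.nat_mod.comp snd hp)
  have h2 : Primrec (fun x : (TT × TT) × ℕ => x.1.2.2.getD (x.2 / 2 ^ x.1.1.1.length) false) :=
    (list_getD false).comp (snd.comp (snd.comp fst)) (Primrec.nat_div.comp snd hp)
  exact (Primrec.dom_bool₂ o).comp h1 h2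

theorem prim_andTT : Primrec₂ andTT := prim_binTT (fun a b => a && b)

theorem prim_orTT : Primrec₂ orTT := prim_binTT (fun a b => a || b)

theorem prim_xnode : Primrec₂ xnode := by
  have ha : Primrec (fun x : X × X => x.1.1) := fst.comp fst
  have hb : Primrec (fun x : X × X => x.2.1) := fst.comp snd
  have hbs : Primrec (fun x : X × X => x.2.2.1) := fst.comp (snd.comp snd)
  have hbf : Primrec (fun x : X × X => x.2.2.2.1) := fst.comp (snd.comp (snd.comp snd))
  have haf : Primrec (fun x : X × X => x.1.2.2.1) := fst.comp (snd.comp (snd.comp fst))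
  have hbp : Primrec (fun x : X × X => x.2.2.2.2) := snd.comp (snd.comp (snd.comp snd))
  have eqa : ∀ k : ℕ, PrimrecPred (fun x : X × X => x.1.1 = k) := fun k =>
    Primrec.eq.comp ha (Primrec.const k)
  have eqb : ∀ k : ℕ, PrimrecPred (fun x : X × X => x.2.1 = k) := fun k =>
    Primrec.eq.comp hb (Primrec.const k)
  have h1 : Primrec (fun x : X × X => if x.1.1 = 0 ∧ x.2.1 = 0 then 1 else
      if x.1.1 = 0 ∧ x.2.1 = 1 then 2 else if x.1.1 = 1 ∧ x.2.1 = 0 then 3 else 4) :=
    Primrec.ite ((eqa 0).and (eqb 0)) (Primrec.const 1)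
      (Primrec.ite ((eqa 0).and (eqb 1)) (Primrec.const 2)
        (Primrec.ite ((eqa 1).and (eqb 0)) (Primrec.const 3) (Primrec.const 4)))
  have h2 : Primrec (fun x : X × X => decide (x.1.1 ≠ 0) :: x.2.2.1) :=
    list_cons.comp ((eqa 0).not.decide) hbs
  have h3 : Primrec (fun x : X × X => if x.1.1 = 0 then atomTT x.2.2.1 else
      if x.1.1 = 1 then notTT x.2.2.2.1 else
        if x.1.1 = 2 then andTT x.2.2.2.2.1 x.2.2.2.2.2 else orTT x.2.2.2.2.1 x.2.2.2.2.2) :=
    Primrec.ite (eqa 0) (prim_atomTT.comp hbs) (Primrec.ite (eqa 1) (prim_notTT.comp hbf)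
      (Primrec.ite (eqa 2) (prim_andTT.comp (fst.comp hbp) (snd.comp hbp))
        (prim_orTT.comp (fst.comp hbp) (snd.comp hbp))))
  exact Primrec.pair h1 (Primrec.pair h2 (Primrec.pair h3 (Primrec.pair haf hbf)))

theorem prim_stk : Primrec₂ stk := by
  have hb : PrimrecPred (fun x : Bool × List X => x.1 = true) :=
    Primrec.eq.comp fst (Primrec.const true)
  have h1 : Primrec (fun x : Bool × List X =>
      xnode (x.2.getD 0 x0) (x.2.getD 1 x0) :: x.2.drop 2) :=
    list_cons.comp (prim_xnode.comp ((list_getD x0).comp snd (Primrec.const 0))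
      ((list_getD x0).comp snd (Primrec.const 1))) (list_drop.comp (Primrec.const 2) snd)
  have h2 : Primrec (fun x : Bool × List X => x0 :: x.2) :=
    list_cons.comp (Primrec.const x0) snd
  exact Primrec.ite hb h1 h2

theorem prim_ttOfBits : Primrec ttOfBits := by
  have h : Primrec (fun s : List Bool => s.foldr stk []) :=
    list_foldr Primrec.id (Primrec.const []) (prim_stk.comp (fst.comp snd) (snd.comp snd)).to₂
  exact fst.comp (snd.comp (snd.comp ((list_getD x0).comp h (Primrec.const 0))))

end

/-! ### The bridge -/

/-- A polynomial-time truth-table reduction gives a computable function with values truth tables,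
with polynomially many queries of polynomial length. -/
theorem redBy_of_ptt {A B : Set (List Bool)} (h : PttReduces A B) : ∃ f, RedBy f A B := by
  obtain ⟨f, hf, hAB⟩ := h
  refine ⟨fun x => tt (f x), ?_, ?_, fun x => ?_⟩
  · have h1 : Primrec (fun x => ttOfBits (bits (f x))) :=
      prim_ttOfBits.comp (Pool.Agent.H639R2.NTP.polyTime_primrec hf)
    exact (h1.of_eq fun x => ttOfBits_bits (f x)).to_comp
  · obtain ⟨p, hp⟩ := polyTime_length hf
    refine ⟨p, fun x => ?_⟩
    have h1 : (f x).tree.enc.length ≤ p.eval x.length := hp x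
    obtain ⟨h2, h3⟩ := tt_size (f x)
    exact ⟨h2.trans h1, fun q hq => (h3 q hq).trans h1⟩
  · rw [eval_tt]
    exact hAB x

end Pool.Agent.H861R3.NT.Bridge
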