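import Pool.Agent.H861R3.NT.Defs

/-! # Computable choice, and computability of the run -/

namespace Pool.Agent.H861R3.NT

open Pool.Agent.H544R2
open Nat.Partrec (Code)

/-- A decidable total relation has a computable choice function. -/
theorem exists_choice {α β : Type} [Primcodable α] [Primcodable β] {R : α → β → Prop}
    (hR : PrimrecRel R) (h : ∀ a, ∃ b, R a b) : ∃ g : α → β, Computable g ∧ ∀ a, R a (g a) := by
  classical
  -- the search function
  let f : α → ℕ → Option β := fun a n =>
    (Encodable.decode n : Option β).bind fun b => if R a b then some b else none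
  have hf : Computable₂ f := by
    have h1 : Primrec₂ f := by
      show Primrec fun p : α × ℕ => (Encodable.decode p.2 : Option β).bind fun b =>
        if R p.1 b then some b else none
      apply Primrec.option_bind (Primrec.decode.comp Primrec.snd)
      show Primrec fun q : (α × ℕ) × β => if R q.1.1 q.2 then some q.2 else none
      apply Primrec.ite
      · have h2 : PrimrecPred fun q : (α × ℕ) × β => R q.1.1 q.2 :=
          PrimrecPred.comp (p := fun p : α × β => R p.1 p.2)
            (f := fun q : (α × ℕ) × β => (q.1.1, q.2)) hR
            ((Primrec.fst.comp Primrec.fst).pair Primrec.snd)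
        exact h2
      · exact Primrec.option_some.comp Primrec.snd
      · exact Primrec.const none
    exact h1.to_comp
  have hdom : ∀ a, (Nat.rfindOpt (f a)).Dom := by
    intro a
    rw [Nat.rfindOpt_dom]
    obtain ⟨b, hb⟩ := h a
    refine ⟨Encodable.encode b, b, ?_⟩
    simp only [f, Encodable.encodek, Option.bind_some, if_pos hb, Option.mem_def]
  refine ⟨fun a => (Nat.rfindOpt (f a)).get (hdom a), ?_, ?_⟩
  · have h3 : Partrec fun a => Nat.rfindOpt (f a) := Partrec.rfindOpt hf
    exact h3.of_eq (fun a => (Part.some_get (hdom a)).symm)
  · intro a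
    obtain ⟨n, hn⟩ := Nat.rfindOpt_spec (Part.get_mem (hdom a))
    simp only [f, Option.mem_def] at hn
    obtain ⟨b, _, hb2⟩ := Option.bind_eq_some_iff.mp hn
    by_cases hRb : R a b
    · rw [if_pos hRb] at hb2
      have e : b = (Nat.rfindOpt (f a)).get (hdom a) := Option.some_injective _ hb2
      show R a ((Nat.rfindOpt (f a)).get (hdom a))
      rw [← e]
      exact hRb
    · rw [if_neg hRb] at hb2
      exact absurd hb2 (by simp)

theorem comp_map_range {α : Type} [Primcodable α] {f : ℕ → α} (hf : Computable f) :
    Computable (fun s : ℕ => (List.range s).map f) := by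
  have h2 : Computable₂ (fun (_ : ℕ) (p : ℕ × List α) => p.2 ++ [f p.1]) :=
    Computable.list_concat.comp (Computable.snd.comp Computable.snd)
      (hf.comp (Computable.fst.comp Computable.snd))
  have h : Computable (fun s : ℕ => (Nat.rec [] (fun n l => l ++ [f n]) s : List α)) :=
    Computable.nat_rec (f := fun s : ℕ => s) (g := fun _ : ℕ => ([] : List α))
      (h := fun (_ : ℕ) (p : ℕ × List α) => p.2 ++ [f p.1]) Computable.id (Computable.const []) h2
  apply h.of_eq
  intro s
  induction s with
  | zero => rfl
  | succ s ih =>
    rw [List.range_succ, List.map_append]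
    simp only [List.map_cons, List.map_nil]
    rw [← ih]

end Pool.Agent.H861R3.NT
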