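import Pool.Agent.H544R2.Rand
import Pool.Agent.H544R2.Halt

/-!
# A universal machine whose random strings do not encode the halting problem: definitions

Truth tables, the finite games, the parameters and the run of the strategies.
-/

namespace Pool.Agent.H861R3.NT

open Pool.Agent.H544R2
open Pool.Agent.NPC (valB)
open Nat.Partrec (Code)

/-- Strings. -/
abbrev Str := List Bool

/-! ### Truth tables -/

/-- A truth table: the list of the queries and the list of the values; the value that belongs to
the answers `a₁, …, a_k` is the entry number `valB [a₁, …, a_k]` of the list of the values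
(entries count from `0`, missing entries are `false`). -/
abbrev TT := List Str × List Bool

/-- The value of a truth table for the oracle `a`. -/
def evalTT (y : TT) (a : Str → Bool) : Bool := y.2.getD (valB (y.1.map a)) false

open Classical in
/-- The set `A` is reduced to the set `B` by the computable function `f` with values truth tables,
and the number and the lengths of the queries of `f x` are bounded by a polynomial in the length
of `x`. There is no bound for the time in which `f` is computed. -/
noncomputable def RedBy (f : Str → TT) (A B : Set Str) : Prop :=
  Computable f ∧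
  (∃ p : Polynomial ℕ, ∀ x, (f x).1.length ≤ p.eval x.length ∧
    ∀ q ∈ (f x).1, q.length ≤ p.eval x.length) ∧
  ∀ x, x ∈ A ↔ evalTT (f x) (fun q => decide (q ∈ B)) = true

/-! ### Strings of a given length -/

/-- all strings of length `n` -/
def allL (n : ℕ) : List Str := (List.range (2 ^ n)).map (fb n)

/-- all strings of length at most `n` -/
def upTo (n : ℕ) : List Str := (List.range (n + 1)).flatMap allL

/-- the number of entries of length `n` -/
def cnt (l : List Str) (n : ℕ) : ℕ := (l.filter (fun x => x.length = n)).length

/-! ### The game -/

/-- the overhead of the reference machine -/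
def cc : ℕ := 6

/-- A position: the strings killed by the others (in the order of the kills, last one first), the
strings killed by us (last one first), the number of the attempt, the bit of the attempt, and the
Boolean function of the attempt (`none` before it is known). -/
abbrev Pos := List Str × List Str × ℕ × Bool × Option (List Bool)

/-- strings killed by the others -/
abbrev pE (P : Pos) : List Str := P.1
/-- strings killed by us -/
abbrev pK (P : Pos) : List Str := P.2.1
/-- the number of the attempt -/
abbrev pt (P : Pos) : ℕ := P.2.2.1
/-- the bit of the attempt -/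
abbrev pb (P : Pos) : Bool := P.2.2.2.1
/-- the function of the attempt -/
abbrev pF (P : Pos) : Option (List Bool) := P.2.2.2.2

/-- the initial position -/
def P0 : Pos := ([], [], 0, false, none)

/-- the position after the others have killed `x` -/
def addE (x : Str) (P : Pos) : Pos := (x :: pE P, pK P, pt P, pb P, pF P)

/-- the position after the function has become known -/
def setF (F : List Bool) (P : Pos) : Pos := (pE P, pK P, pt P, pb P, some F)

/-- The others may kill `x`: below the window (lengths at most `n1`) they may kill everything,
in the window (lengths in `(n1, n2]`) at most the fraction `2 ^ (-cc)` of every length. -/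
def OppKill (n1 n2 : ℕ) (E : List Str) (x : Str) : Prop :=
  x.length ≤ n2 ∧ x ∉ E ∧ (n1 < x.length → (cnt E x.length + 1) * 2 ^ cc ≤ 2 ^ x.length)

instance (n1 n2 : ℕ) (E : List Str) (x : Str) : Decidable (OppKill n1 n2 E x) := by
  unfold OppKill; infer_instance

/-- The value of the function with table `F` when `D` is the list of the dead strings. -/
def evalF (n2 : ℕ) (F : List Bool) (D : List Str) : Bool :=
  F.getD (valB ((upTo n2).map (fun x => decide (x ∈ D)))) false

/-- A position which is fine for us: we have only killed strings of the window, at most one quarter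
of every length, and if the function is known then its value is not the bit. -/
def OK (n1 n2 : ℕ) (P : Pos) : Prop :=
  (∀ x ∈ pK P, n1 < x.length ∧ x.length ≤ n2 ∧ 4 * cnt (pK P) x.length ≤ 2 ^ x.length) ∧
  (∀ F ∈ pF P, evalF n2 F (pE P ++ pK P) ≠ pb P)

instance (n1 n2 : ℕ) (P : Pos) : Decidable (OK n1 n2 P) := by
  unfold OK; infer_instance

/-- We may move from `P` to `Q`: we kill strings and either raise the bit or leave it, or we start a
new attempt. -/
def Reply (T : ℕ) (P Q : Pos) : Prop :=
  pE Q = pE P ∧ (pK Q).drop ((pK Q).length - (pK P).length) = pK P ∧
  ((pt Q = pt P ∧ pF Q = pF P ∧ (pb P = true → pb Q = true)) ∨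
   (pt Q = pt P + 1 ∧ pt Q < T ∧ pb Q = false ∧ pF Q = none))

instance (T : ℕ) (P Q : Pos) : Decidable (Reply T P Q) := by
  unfold Reply; infer_instance

/-- The list `G` is a winning strategy: it contains the initial position, and for every move of the
others from a position in `G` we have a reply which leads to a position in `G`. -/
def Safe (n1 n2 T : ℕ) (G : List Pos) : Prop :=
  P0 ∈ G ∧ ∀ P ∈ G, OK n1 n2 P ∧
    (∀ x ∈ upTo n2, OppKill n1 n2 (pE P) x → ∃ Q ∈ G, Reply T (addE x P) Q) ∧
    (pF P = none → ∀ F ∈ allL (2 ^ (upTo n2).length), ∃ Q ∈ G, Reply T (setF F P) Q)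

/-! ### Parameters -/

/-- Parameters `n1, n2, n3, m, T, G`. -/
abbrev Par := ℕ × ℕ × ℕ × ℕ × ℕ × List Pos

/-- lower end of the window -/
abbrev pn1 (a : Par) : ℕ := a.1
/-- upper end of the window -/
abbrev pn2 (a : Par) : ℕ := a.2.1
/-- upper end of the long strings -/
abbrev pn3 (a : Par) : ℕ := a.2.2.1
/-- length of the inputs -/
abbrev pm (a : Par) : ℕ := a.2.2.2.1
/-- bound for the number of the attempts -/
abbrev pT (a : Par) : ℕ := a.2.2.2.2.1
/-- the strategy -/
abbrev pG (a : Par) : List Pos := a.2.2.2.2.2

/-- the bound for the number and the lengths of the queries on inputs of length `m` -/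
def bnd (i m : ℕ) : ℕ := m ^ i + i

/-- Good parameters for the requirement `i`. -/
def Good (i : ℕ) (a : Par) : Prop :=
  pn1 a < pm a ∧ pm a ≤ pn3 a ∧ pn1 a < pn2 a ∧ pn2 a ≤ pn3 a ∧ bnd i (pm a) ≤ pn3 a ∧
  0 < pT a ∧ pT a ≤ 2 ^ pm a ∧ 4 * (pT a * bnd i (pm a)) ≤ 2 ^ (pn2 a + 1) ∧
  Safe (pn1 a) (pn2 a) (pT a) (pG a)

/-! ### The run -/

/-- the strings described by short programs of the reference machine, by stage `s` -/
def Vdead (s : ℕ) : List Str := (List.range s).filterMap (fun k =>
  (Encodable.decode k : Option (Str × ℕ)).bind fun y => (Vn y.2 y.1).bind fun x =>
    if y.1.length + cc < x.length then some x else none)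

/-- the truth table of the function of the requirement `i` at the input number `t`, if it is known
by stage `s` and satisfies the bounds -/
def reveal (i s : ℕ) (a : Par) (t : ℕ) : Option TT :=
  ((Code.evaln s (Denumerable.ofNat Code i.unpair.1) (Encodable.encode (fb (pm a) t))).bind
    (fun n => (Encodable.decode n : Option TT))).bind fun y =>
      if y.1.length ≤ bnd i (pm a) ∧ ∀ x ∈ y.1, x.length ≤ bnd i (pm a) then some y else none

/-- the function of the dead strings of length at most `n2` given by a truth table, when all
longer queries are dead -/
def tabF (n2 : ℕ) (y : TT) : List Bool :=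
  (List.range (2 ^ (upTo n2).length)).map fun j =>
    evalTT y (fun x => decide (x.length ≤ n2 ∧
      (fb (upTo n2).length j).getD ((upTo n2).idxOf x) false = false))

/-- The state of one requirement: the position, and the long strings killed by us. -/
abbrev SS := Pos × List Str

/-- the strings killed by a requirement -/
def kills (a : SS) : List Str := pK a.1 ++ a.2

/-- the strings of length at most `n2` killed by the reference machine, and those killed by the
requirements before `i` -/
def ext (i s : ℕ) (a : Par) (st : List SS) : List Str :=
  (Vdead s).filter (fun x => x.length ≤ pn2 a) ++ (st.take i).flatMap kills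

/-- the new state of the requirement `i` -/
def upd (i s : ℕ) (a : Par) (st : List SS) (p : SS) : SS :=
  match ((ext i s a st).filter (fun x => x ∉ pE p.1)).head? with
  | some x =>
    match ((pG a).filter (fun Q => Reply (pT a) (addE x p.1) Q)).head? with
    | some Q => (Q, p.2)
    | none => p
  | none =>
    if pF p.1 = none then
      match reveal i s a (pt p.1) with
      | some y =>
        match ((pG a).filter (fun Q => Reply (pT a) (setF (tabF (pn2 a) y) p.1) Q)).head? with
        | some Q => (Q, p.2 ++ y.1.filter (fun x => pn2 a < x.length))
        | none => p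
      | none => p
    else p

/-- one stage: all requirements move, and one more becomes active -/
def step (pars : List Par) (s : ℕ) (st : List SS) : List SS :=
  (List.range st.length).map (fun i => upd i s (pars.getD i default) st (st.getD i (P0, []))) ++
    [(P0, [])]

/-- the states of the requirements `0, …, s - 1` after `s` stages -/
def run (pr : ℕ → Par) : ℕ → List SS
  | 0 => []
  | s + 1 => step ((List.range s).map pr) s (run pr s)

/-- the state of the requirement `i` after `s` stages -/
def pos (pr : ℕ → Par) (i s : ℕ) : SS := (run pr s).getD i (P0, [])

/-- the strings killed by us by stage `s` -/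
def Akill (pr : ℕ → Par) (s : ℕ) : List Str := (run pr s).flatMap kills

/-- the sequence of the parameters is good -/
def GoodSeq (pr : ℕ → Par) : Prop :=
  2 ≤ pn1 (pr 0) ∧ ∀ i, Good i (pr i) ∧ pn1 (pr (i + 1)) = pn3 (pr i)

/-- the recursively enumerable set which is not reducible -/
def Wset (pr : ℕ → Par) : Set Str :=
  {w | ∃ s i, i < s ∧ pb (pos pr i s).1 = true ∧ w = fb (pm (pr i)) (pt (pos pr i s).1)}

end Pool.Agent.H861R3.NT
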