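import Pool.Agent.H861R3.NT.Enum

/-! # The run: recursion equations -/

namespace Pool.Agent.H861R3.NT

open Pool.Agent.H544R2

theorem run_length (pr : ℕ → Par) (s : ℕ) : (run pr s).length = s := by
  induction s with
  | zero => rfl
  | succ s ih =>
    show (step _ s (run pr s)).length = s + 1
    unfold step
    rw [List.length_append, List.length_map, List.length_range, ih]
    rfl

theorem pos_of_le (pr : ℕ → Par) {i s : ℕ} (h : s ≤ i + 1) : pos pr i s = (P0, []) := by
  unfold pos
  rcases Nat.lt_or_ge i s with h1 | h1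
  · have h2 : s = i + 1 := by omega
    subst h2
    show (step _ i (run pr i)).getD i (P0, []) = (P0, [])
    unfold step
    rw [List.getD_append_right _ _ _ _ (by rw [List.length_map, List.length_range, run_length])]
    rw [List.length_map, List.length_range, run_length]
    simp
  · rw [List.getD_eq_default]
    rw [run_length]; exact h1

theorem pos_succ (pr : ℕ → Par) {i s : ℕ} (h : i < s) :
    pos pr i (s + 1) = upd i s (pr i) (run pr s) (pos pr i s) := by
  unfold pos
  show (step ((List.range s).map pr) s (run pr s)).getD i (P0, []) = _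
  unfold step
  rw [List.getD_append _ _ _ _ (by rw [List.length_map, List.length_range, run_length]; exact h)]
  rw [List.getD_eq_getElem _ _ (by rw [List.length_map, List.length_range, run_length]; exact h)]
  rw [List.getElem_map, List.getElem_range]
  congr 1
  rw [List.getD_eq_getElem _ _ (by rw [List.length_map, List.length_range]; exact h)]
  rw [List.getElem_map, List.getElem_range]

theorem mem_take_kills (pr : ℕ → Par) {i s : ℕ} (h : i ≤ s) (x : Str) :
    x ∈ ((run pr s).take i).flatMap kills ↔ ∃ j < i, x ∈ kills (pos pr j s) := by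
  rw [List.mem_flatMap]
  constructor
  · rintro ⟨a, ha, hx⟩
    rw [List.mem_take_iff_getElem] at ha
    obtain ⟨j, hj, hja⟩ := ha
    have hj1 : j < i := lt_of_lt_of_le hj (min_le_left _ _)
    have hj2 : j < (run pr s).length := lt_of_lt_of_le hj (min_le_right _ _)
    refine ⟨j, hj1, ?_⟩
    unfold pos
    rw [List.getD_eq_getElem _ _ hj2, hja]
    exact hx
  · rintro ⟨j, hj, hx⟩
    have hj2 : j < (run pr s).length := by rw [run_length]; omega
    refine ⟨pos pr j s, ?_, hx⟩
    rw [List.mem_take_iff_getElem]
    refine ⟨j, lt_min hj hj2, ?_⟩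
    unfold pos
    rw [List.getD_eq_getElem _ _ hj2]

theorem mem_ext (pr : ℕ → Par) {i s : ℕ} (h : i ≤ s) (a : Par) (x : Str) :
    x ∈ ext i s a (run pr s) ↔
      (x ∈ Vdead s ∧ x.length ≤ pn2 a) ∨ ∃ j < i, x ∈ kills (pos pr j s) := by
  unfold ext
  rw [List.mem_append, mem_take_kills pr h, List.mem_filter]
  simp only [decide_eq_true_eq]

theorem mem_Akill (pr : ℕ → Par) (s : ℕ) (x : Str) :
    x ∈ Akill pr s ↔ ∃ i < s, x ∈ kills (pos pr i s) := by
  unfold Akill
  rw [← mem_take_kills pr (le_refl s)]
  rw [List.take_of_length_le (by rw [run_length])]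

theorem kills_P0 : kills (P0, []) = [] := rfl

theorem Dyn0_head {α : Type} {p : α → Bool} {l : List α} {x : α}
    (h : (l.filter p).head? = some x) : x ∈ l ∧ p x = true := by
  have := List.mem_of_head? h
  rwa [List.mem_filter] at this

theorem Dyn0_head_none {α : Type} {p : α → Bool} {l : List α}
    (h : (l.filter p).head? = none) : ∀ x ∈ l, p x ≠ true := by
  rw [List.head?_eq_none_iff, List.filter_eq_nil_iff] at h
  exact h

/-- The possible changes of the state of a requirement. -/
theorem upd_cases (i s : ℕ) (a : Par) (st : List SS) (p : SS) :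
    upd i s a st p = p ∨
    (∃ x Q, x ∈ ext i s a st ∧ x ∉ pE p.1 ∧ Q ∈ pG a ∧ Reply (pT a) (addE x p.1) Q ∧
      upd i s a st p = (Q, p.2)) ∨
    (∃ y Q, pF p.1 = none ∧ reveal i s a (pt p.1) = some y ∧ Q ∈ pG a ∧
      Reply (pT a) (setF (tabF (pn2 a) y) p.1) Q ∧
      upd i s a st p = (Q, p.2 ++ y.1.filter (fun x => pn2 a < x.length))) := by
  unfold upd
  split
  · next x hx =>
    have h1 := Dyn0_head hx
    split
    · next Q hQ =>
      have h2 := Dyn0_head hQ
      right; left
      exact ⟨x, Q, h1.1, by simpa using h1.2, h2.1, by simpa using h2.2, rfl⟩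
    · left; rfl
  · split
    · next hF =>
      split
      · next y hy =>
        split
        · next Q hQ =>
          have h2 := Dyn0_head hQ
          right; right
          exact ⟨y, Q, hF, hy, h2.1, by simpa using h2.2, rfl⟩
        · left; rfl
      · left; rfl
    · left; rfl

/-- If some string of `ext` is new and all such strings have a reply, then the state changes. -/
theorem upd_kill {i s : ℕ} {a : Par} {st : List SS} {p : SS}
    (h : ∃ x ∈ ext i s a st, x ∉ pE p.1)
    (hr : ∀ x ∈ ext i s a st, x ∉ pE p.1 → ∃ Q ∈ pG a, Reply (pT a) (addE x p.1) Q) :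
    ∃ x Q, x ∈ ext i s a st ∧ x ∉ pE p.1 ∧ Q ∈ pG a ∧ Reply (pT a) (addE x p.1) Q ∧
      upd i s a st p = (Q, p.2) := by
  unfold upd
  split
  · next x hx =>
    have h1 := Dyn0_head hx
    have h1' : x ∉ pE p.1 := by simpa using h1.2
    split
    · next Q hQ =>
      have h2 := Dyn0_head hQ
      exact ⟨x, Q, h1.1, h1', h2.1, by simpa using h2.2, rfl⟩
    · next hQ =>
      exfalso
      obtain ⟨Q, hQ1, hQ2⟩ := hr x h1.1 h1'
      exact Dyn0_head_none hQ Q hQ1 (by simpa using hQ2)
  · next hx =>
    exfalso
    obtain ⟨x, hx1, hx2⟩ := h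
    exact Dyn0_head_none hx x hx1 (by simpa using hx2)

/-- If nothing is new in `ext`, the function is not yet known but becomes known, and there is a
reply, then the state changes. -/
theorem upd_reveal {i s : ℕ} {a : Par} {st : List SS} {p : SS} {y : TT}
    (h : ∀ x ∈ ext i s a st, x ∈ pE p.1) (hF : pF p.1 = none)
    (hy : reveal i s a (pt p.1) = some y)
    (hr : ∃ Q ∈ pG a, Reply (pT a) (setF (tabF (pn2 a) y) p.1) Q) :
    ∃ Q, Q ∈ pG a ∧ Reply (pT a) (setF (tabF (pn2 a) y) p.1) Q ∧
      upd i s a st p = (Q, p.2 ++ y.1.filter (fun x => pn2 a < x.length)) := by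
  unfold upd
  split
  · next x hx =>
    exfalso
    have h1 := Dyn0_head hx
    have h1' : x ∉ pE p.1 := by simpa using h1.2
    exact h1' (h x h1.1)
  · rw [if_pos hF]
    split
    · next y' hy' =>
      have e : y' = y := by
        rw [hy] at hy'
        exact (Option.some_injective _ hy').symm
      subst e
      split
      · next Q hQ =>
        have h2 := Dyn0_head hQ
        exact ⟨Q, h2.1, by simpa using h2.2, rfl⟩
      · next hQ =>
        exfalso
        obtain ⟨Q, hQ1, hQ2⟩ := hr
        exact Dyn0_head_none hQ Q hQ1 (by simpa using hQ2)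
    · next hn =>
      exfalso
      rw [hy] at hn
      exact absurd hn (by simp)

end Pool.Agent.H861R3.NT
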