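import Pool.Agent.H861R3.NT.Enum

/-! # The strings killed by the reference machine -/

namespace Pool.Agent.H861R3.NT

open Pool.Agent.H544R2

private theorem mem_Vdead {s : ℕ} {x : Str} : x ∈ Vdead s ↔
    ∃ k < s, ∃ p m, (Encodable.decode k : Option (Str × ℕ)) = some (p, m) ∧ x ∈ Vn m p ∧
      p.length + cc < x.length := by
  unfold Vdead
  rw [List.mem_filterMap]
  constructor
  · rintro ⟨k, hk, h⟩
    rw [Option.bind_eq_some_iff] at h
    obtain ⟨⟨p, m⟩, hd, h⟩ := h
    rw [Option.bind_eq_some_iff] at h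
    obtain ⟨y, hy, h⟩ := h
    split_ifs at h with hc
    obtain rfl := Option.some.inj h
    exact ⟨k, List.mem_range.1 hk, p, m, hd, hy, hc⟩
  · rintro ⟨k, hk, p, m, hd, hy, hc⟩
    refine ⟨k, List.mem_range.2 hk, ?_⟩
    rw [Option.bind_eq_some_iff]
    refine ⟨(p, m), hd, ?_⟩
    rw [Option.bind_eq_some_iff]
    exact ⟨x, hy, if_pos hc⟩

theorem Vdead_mono {s s' : ℕ} (h : s ≤ s') {x : Str} (hx : x ∈ Vdead s) : x ∈ Vdead s' := by
  rw [mem_Vdead] at *
  obtain ⟨k, hk, hx⟩ := hx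
  exact ⟨k, lt_of_lt_of_le hk h, hx⟩

theorem Vdead_iff {x : Str} :
    (∃ s, x ∈ Vdead s) ↔ ∃ p k, x ∈ Vn k p ∧ p.length + cc < x.length := by
  constructor
  · rintro ⟨s, hs⟩
    obtain ⟨k, -, p, m, -, h1, h2⟩ := mem_Vdead.1 hs
    exact ⟨p, m, h1, h2⟩
  · rintro ⟨p, m, h1, h2⟩
    exact ⟨Encodable.encode (p, m) + 1, mem_Vdead.2
      ⟨Encodable.encode (p, m), Nat.lt_succ_self _, p, m, Encodable.encodek _, h1, h2⟩⟩

/-- few strings are killed by the reference machine -/
theorem Vdead_cnt {D : List Str} (hD : D.Nodup) {n : ℕ}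
    (h : ∀ x ∈ D, x.length = n → ∃ s, x ∈ Vdead s) : cnt D n * 2 ^ cc ≤ 2 ^ n := by
  classical
  have hE : ∀ x ∈ D.filter (fun x => x.length = n), ∃ p k, x ∈ Vn k p ∧ p.length + cc < n := by
    intro x hx
    rw [List.mem_filter] at hx
    have hl : x.length = n := by simpa using hx.2
    obtain ⟨p, k, h1, h2⟩ := Vdead_iff.1 (h x hx.1 hl)
    exact ⟨p, k, h1, hl ▸ h2⟩
  choose! p k hp1 hp2 using hE
  unfold cnt
  have hnd : (D.filter (fun x => x.length = n)).Nodup := hD.filter _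
  rw [← List.toFinset_card_of_nodup hnd]
  set F := (D.filter (fun x => x.length = n)).toFinset with hF
  have hinj : Set.InjOn p (F : Set Str) := by
    intro x hx y hy hxy
    have hx1 := hp1 x (List.mem_toFinset.1 (Finset.mem_coe.1 hx))
    have hy1 := hp1 y (List.mem_toFinset.1 (Finset.mem_coe.1 hy))
    rw [← hxy] at hy1
    exact Vn_unique hx1 hy1
  rcases F.eq_empty_or_nonempty with h0 | ⟨x0, hx0⟩
  · rw [h0]; simp
  · have hn : cc < n := by
      have := hp2 x0 (List.mem_toFinset.1 hx0)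
      omega
    have h2 : F.card ≤ 2 ^ (n - cc) - 1 := by
      rw [← Finset.card_image_of_injOn hinj]
      refine card_short _ _ ?_
      intro q hq
      obtain ⟨x, hx, rfl⟩ := Finset.mem_image.1 hq
      have := hp2 x (List.mem_toFinset.1 hx)
      omega
    have h3 : 2 ^ n = 2 ^ (n - cc) * 2 ^ cc := by
      rw [← pow_add]; congr 1; omega
    rw [h3]
    exact Nat.mul_le_mul_right _ (h2.trans (Nat.sub_le _ _))

end Pool.Agent.H861R3.NT
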