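import Pool.Agent.H861R3.NT.Dyn0
import Pool.Agent.H861R3.NT.VD

/-! # The run: invariants -/

namespace Pool.Agent.H861R3.NT

open Pool.Agent.H544R2

/-- the number of the known functions -/
def nrev (P : Pos) : ℕ := pt P + (if pF P = none then 0 else 1)

/-- the invariant of the run -/
structure DInv (pr : ℕ → Par) (i s : ℕ) : Prop where
  mem : (pos pr i s).1 ∈ pG (pr i)
  nodup : (pE (pos pr i s).1).Nodup
  ext : ∀ x ∈ pE (pos pr i s).1, x.length ≤ pn2 (pr i) ∧
    (x ∈ Vdead s ∨ ∃ j < i, x ∈ kills (pos pr j s))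
  long : ∀ x ∈ (pos pr i s).2, pn2 (pr i) < x.length ∧ x.length ≤ pn3 (pr i)
  longlen : (pos pr i s).2.length ≤ nrev (pos pr i s).1 * bnd i (pm (pr i))
  t_lt : pt (pos pr i s).1 < pT (pr i)
  known : ∀ F ∈ pF (pos pr i s).1, ∃ y s', reveal i s' (pr i) (pt (pos pr i s).1) = some y ∧
    F = tabF (pn2 (pr i)) y ∧ ∀ x ∈ y.1, pn2 (pr i) < x.length → x ∈ (pos pr i s).2

theorem pn1_mono {pr : ℕ → Par} (h : GoodSeq pr) {i j : ℕ} (hij : i < j) :
    pn3 (pr i) ≤ pn1 (pr j) := by
  obtain ⟨k, rfl⟩ := Nat.exists_eq_add_of_lt hij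
  induction k with
  | zero =>
    have := (h.2 i).2
    rw [Nat.add_zero]
    exact this.symm.le
  | succ k ih =>
    have h1 := ih (by omega)
    have h2 := (h.2 (i + k + 1)).2
    have h3 := (h.2 (i + k + 1)).1
    obtain ⟨g1, g2, g3, g4, _⟩ := h3
    have e : i + (k + 1) + 1 = i + k + 1 + 1 := by ring
    rw [e, h2]
    omega

theorem pm_inj {pr : ℕ → Par} (h : GoodSeq pr) {i j : ℕ} (hij : pm (pr i) = pm (pr j)) :
    i = j := by
  have key : ∀ i j : ℕ, i < j → pm (pr i) < pm (pr j) := by
    intro i j hlt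
    have h1 := pn1_mono h hlt
    obtain ⟨g1, g2, _⟩ := (h.2 i).1
    obtain ⟨k1, k2, _⟩ := (h.2 j).1
    omega
  rcases lt_trichotomy i j with hlt | heq | hgt
  · have := key i j hlt
    omega
  · exact heq
  · have := key j i hgt
    omega

theorem reveal_spec {i s : ℕ} {a : Par} {t : ℕ} {y : TT} (h : reveal i s a t = some y) :
    y.1.length ≤ bnd i (pm a) ∧ ∀ x ∈ y.1, x.length ≤ bnd i (pm a) := by
  unfold reveal at h
  obtain ⟨z, _, hz2⟩ := Option.bind_eq_some_iff.mp h
  split_ifs at hz2 with hc
  rw [Option.some.injEq] at hz2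
  rw [← hz2]
  exact hc

theorem reveal_mono {i s s' : ℕ} (hs : s ≤ s') {a : Par} {t : ℕ} {y : TT}
    (h : reveal i s a t = some y) : reveal i s' a t = some y := by
  unfold reveal at h ⊢
  obtain ⟨z, hz1, hz2⟩ := Option.bind_eq_some_iff.mp h
  obtain ⟨w, hw1, hw2⟩ := Option.bind_eq_some_iff.mp hz1
  apply Option.bind_eq_some_iff.mpr
  refine ⟨z, Option.bind_eq_some_iff.mpr ⟨w, ?_, hw2⟩, hz2⟩
  exact Nat.Partrec.Code.evaln_mono hs hw1

theorem Reply.kills_sub {T : ℕ} {P Q : Pos} (h : Reply T P Q) : ∀ x ∈ pK P, x ∈ pK Q := by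
  intro x hx
  rw [← h.2.1] at hx
  exact List.mem_of_mem_drop hx

theorem Dyn1_kills_succ (pr : ℕ → Par) {i s : ℕ} {x : Str}
    (hx : x ∈ kills (pos pr i s)) : x ∈ kills (pos pr i (s + 1)) := by
  rcases Nat.lt_or_ge i s with his | his
  · rw [pos_succ pr his]
    rcases upd_cases i s (pr i) (run pr s) (pos pr i s) with h | ⟨z, Q, _, _, _, hR, h⟩ | ⟨y, Q, _, _, _, hR, h⟩
    · rw [h]; exact hx
    · rw [h]
      unfold kills at hx ⊢
      rw [List.mem_append] at hx ⊢
      rcases hx with hx | hx
      · left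
        exact Reply.kills_sub hR x hx
      · right; exact hx
    · rw [h]
      unfold kills at hx ⊢
      rw [List.mem_append] at hx ⊢
      rcases hx with hx | hx
      · left
        exact Reply.kills_sub hR x hx
      · right
        exact List.mem_append_left _ hx
  · rw [pos_of_le pr (show s ≤ i + 1 by omega), kills_P0] at hx
    exact absurd hx (by simp)

/-- the killed strings stay killed -/
theorem kills_mono (pr : ℕ → Par) {i s s' : ℕ} (h : s ≤ s') {x : Str}
    (hx : x ∈ kills (pos pr i s)) : x ∈ kills (pos pr i s') := by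
  induction h with
  | refl => exact hx
  | step _ ih => exact Dyn1_kills_succ pr ih

theorem Dyn1_kills_length {pr : ℕ → Par} (h : GoodSeq pr) {i s : ℕ} (hD : DInv pr i s) {x : Str}
    (hx : x ∈ kills (pos pr i s)) : pn1 (pr i) < x.length ∧ x.length ≤ pn3 (pr i) := by
  obtain ⟨g1, g2, g3, g4, g5, g6, g7, g8, g9⟩ := (h.2 i).1
  unfold kills at hx
  rw [List.mem_append] at hx
  rcases hx with hx | hx
  · have hOK := (g9.2 _ hD.mem).1
    have := hOK.1 x hx
    exact ⟨this.1, this.2.1.trans g4⟩
  · have := hD.long x hx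
    exact ⟨g3.trans this.1, this.2⟩

theorem Dyn1_base {pr : ℕ → Par} (h : GoodSeq pr) (i s : ℕ) (hs : s ≤ i + 1) : DInv pr i s := by
  obtain ⟨g1, g2, g3, g4, g5, g6, g7, g8, g9⟩ := (h.2 i).1
  have e := pos_of_le pr hs
  constructor
  · rw [e]; exact g9.1
  · rw [e]; exact List.nodup_nil
  · rw [e]
    intro x hx
    exact absurd hx (by simp [P0, pE])
  · rw [e]
    intro x hx
    exact absurd hx (by simp)
  · rw [e]
    simp
  · rw [e]; exact g6
  · rw [e]
    intro F hF
    exact absurd hF (by simp [P0, pF])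

/-- The invariant holds at all stages. -/
theorem Dyn1_all {pr : ℕ → Par} (h : GoodSeq pr) (s : ℕ) : ∀ i, DInv pr i s := by
  induction s with
  | zero => intro i; exact Dyn1_base h i 0 (Nat.zero_le _)
  | succ s ih =>
    intro i
    rcases Nat.lt_or_ge i s with his | his
    swap
    · exact Dyn1_base h i (s + 1) (by omega)
    have hD := ih i
    obtain ⟨g1, g2, g3, g4, g5, g6, g7, g8, g9⟩ := (h.2 i).1
    have extmono : ∀ x : Str, (x ∈ Vdead s ∨ ∃ j < i, x ∈ kills (pos pr j s)) →
        (x ∈ Vdead (s + 1) ∨ ∃ j < i, x ∈ kills (pos pr j (s + 1))) := by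
      rintro x (hx | ⟨j, hj, hx⟩)
      · exact Or.inl (Vdead_mono (Nat.le_succ s) hx)
      · exact Or.inr ⟨j, hj, kills_mono pr (Nat.le_succ s) hx⟩
    have hpos := pos_succ pr his
    rcases upd_cases i s (pr i) (run pr s) (pos pr i s) with hu | ⟨z, Q, hz, hzn, hQ, hR, hu⟩ | ⟨y, Q, hFn, hy, hQ, hR, hu⟩
    · -- no change
      rw [hu] at hpos
      constructor
      · rw [hpos]; exact hD.mem
      · rw [hpos]; exact hD.nodup
      · rw [hpos]
        intro x hx
        exact ⟨(hD.ext x hx).1, extmono x (hD.ext x hx).2⟩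
      · rw [hpos]; exact hD.long
      · rw [hpos]; exact hD.longlen
      · rw [hpos]; exact hD.t_lt
      · rw [hpos]; exact hD.known
    · -- a kill
      rw [hu] at hpos
      obtain ⟨r1, r2, r3⟩ := hR
      have hE : pE Q = z :: pE (pos pr i s).1 := r1
      have hcase : (pt Q = pt (pos pr i s).1 ∧ pF Q = pF (pos pr i s).1) ∨
          (pt Q = pt (pos pr i s).1 + 1 ∧ pt Q < pT (pr i) ∧ pF Q = none) := by
        rcases r3 with ⟨a1, a2, _⟩ | ⟨a1, a2, _, a4⟩
        · exact Or.inl ⟨a1, a2⟩
        · exact Or.inr ⟨a1, a2, a4⟩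
      constructor
      · rw [hpos]; exact hQ
      · rw [hpos]
        show (pE Q).Nodup
        rw [hE]
        exact List.nodup_cons.mpr ⟨hzn, hD.nodup⟩
      · rw [hpos]
        intro x hx
        have hx' : x ∈ z :: pE (pos pr i s).1 := by
          rw [← hE]; exact hx
        rw [List.mem_cons] at hx'
        rcases hx' with hx' | hx'
        · subst hx'
          rw [mem_ext pr his.le] at hz
          rcases hz with ⟨hz1, hz2⟩ | ⟨j, hj, hz1⟩
          · exact ⟨hz2, extmono x (Or.inl hz1)⟩
          · refine ⟨?_, extmono x (Or.inr ⟨j, hj, hz1⟩)⟩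
            have h1 := (Dyn1_kills_length h (ih j) hz1).2
            have h2 := pn1_mono h hj
            omega
        · exact ⟨(hD.ext x hx').1, extmono x (hD.ext x hx').2⟩
      · rw [hpos]; exact hD.long
      · rw [hpos]
        have hn : nrev (pos pr i s).1 ≤ nrev Q := by
          unfold nrev
          rcases hcase with ⟨a1, a2⟩ | ⟨a1, _, a4⟩
          · rw [a1, a2]
          · rw [a1, a4]
            simp only [if_true]
            split_ifs <;> omega
        exact hD.longlen.trans (Nat.mul_le_mul_right _ hn)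
      · rw [hpos]
        show pt Q < pT (pr i)
        rcases hcase with ⟨a1, a2⟩ | ⟨a1, a3, a4⟩
        · rw [a1]; exact hD.t_lt
        · exact a3
      · rw [hpos]
        intro F hF
        have hF' : F ∈ pF Q := hF
        rcases hcase with ⟨a1, a2⟩ | ⟨a1, a3, a4⟩
        · rw [a2] at hF'
          obtain ⟨y, s', k1, k2, k3⟩ := hD.known F hF'
          refine ⟨y, s', ?_, k2, k3⟩
          show reveal i s' (pr i) (pt Q) = some y
          rw [a1]; exact k1
        · rw [a4] at hF'
          exact absurd hF' (by simp)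
    · -- a function becomes known
      rw [hu] at hpos
      obtain ⟨r1, r2, r3⟩ := hR
      have hE : pE Q = pE (pos pr i s).1 := r1
      have hspec := reveal_spec hy
      have hcase : (pt Q = pt (pos pr i s).1 ∧ pF Q = some (tabF (pn2 (pr i)) y)) ∨
          (pt Q = pt (pos pr i s).1 + 1 ∧ pt Q < pT (pr i) ∧ pF Q = none) := by
        rcases r3 with ⟨a1, a2, _⟩ | ⟨a1, a2, _, a4⟩
        · exact Or.inl ⟨a1, a2⟩
        · exact Or.inr ⟨a1, a2, a4⟩
      constructor
      · rw [hpos]; exact hQ
      · rw [hpos]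
        show (pE Q).Nodup
        rw [hE]; exact hD.nodup
      · rw [hpos]
        intro x hx
        have hx' : x ∈ pE (pos pr i s).1 := by
          rw [← hE]; exact hx
        exact ⟨(hD.ext x hx').1, extmono x (hD.ext x hx').2⟩
      · rw [hpos]
        intro x hx
        have hx' : x ∈ (pos pr i s).2 ++ y.1.filter (fun x => pn2 (pr i) < x.length) := hx
        rw [List.mem_append] at hx'
        rcases hx' with hx' | hx'
        · exact hD.long x hx'
        · rw [List.mem_filter] at hx'
          refine ⟨by simpa using hx'.2, ?_⟩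
          exact (hspec.2 x hx'.1).trans g5
      · rw [hpos]
        have hn : nrev Q = nrev (pos pr i s).1 + 1 := by
          unfold nrev
          rcases hcase with ⟨a1, a2⟩ | ⟨a1, _, a4⟩
          · rw [a1, a2, hFn]; simp
          · rw [a1, a4, hFn]; simp
        show ((pos pr i s).2 ++ y.1.filter (fun x => pn2 (pr i) < x.length)).length ≤ nrev Q * _
        rw [hn, List.length_append, Nat.add_mul, Nat.one_mul]
        apply Nat.add_le_add hD.longlen
        exact (List.length_filter_le _ _).trans hspec.1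
      · rw [hpos]
        show pt Q < pT (pr i)
        rcases hcase with ⟨a1, a2⟩ | ⟨a1, a3, a4⟩
        · rw [a1]; exact hD.t_lt
        · exact a3
      · rw [hpos]
        intro F hF
        have hF' : F ∈ pF Q := hF
        rcases hcase with ⟨a1, a2⟩ | ⟨a1, a3, a4⟩
        · rw [a2, Option.mem_some] at hF'
          refine ⟨y, s, ?_, hF'.symm, ?_⟩
          · show reveal i s (pr i) (pt Q) = some y
            rw [a1]; exact hy
          · intro x hx hlen
            show x ∈ (pos pr i s).2 ++ y.1.filter (fun x => pn2 (pr i) < x.length)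
            rw [List.mem_append, List.mem_filter]
            right
            exact ⟨hx, by simpa using hlen⟩
        · rw [a4] at hF'
          exact absurd hF' (by simp)

/-- The invariant holds at all stages. -/
theorem dinv {pr : ℕ → Par} (h : GoodSeq pr) (i s : ℕ) : DInv pr i s := Dyn1_all h s i

theorem kills_length {pr : ℕ → Par} (h : GoodSeq pr) {i s : ℕ} {x : Str}
    (hx : x ∈ kills (pos pr i s)) : pn1 (pr i) < x.length ∧ x.length ≤ pn3 (pr i) :=
  Dyn1_kills_length h (dinv h i s) hx

end Pool.Agent.H861R3.NT
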