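import Pool.Agent.H861R3.NT.Dyn1

/-! # The run: few strings are killed -/

namespace Pool.Agent.H861R3.NT

open Pool.Agent.H544R2

theorem Akill_mono {pr : ℕ → Par} (s : ℕ) : ∀ x ∈ Akill pr s, x ∈ Akill pr (s + 1) := by
  intro x hx
  rw [mem_Akill] at hx ⊢
  obtain ⟨i, hi, hx⟩ := hx
  exact ⟨i, by omega, kills_mono pr (Nat.le_succ s) hx⟩

theorem Akill_few {pr : ℕ → Par} (h : GoodSeq pr) (s n : ℕ) (D : List Str) (hD : D.Nodup)
    (hx : ∀ x ∈ D, x ∈ Akill pr s ∧ x.length = n) : 4 * D.length ≤ 2 ^ n := by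
  rcases D.eq_nil_or_concat with hnil | ⟨_, x0, hx0⟩
  · subst hnil; simp
  have hx0D : x0 ∈ D := by rw [hx0]; simp
  clear hx0
  obtain ⟨hA0, hn0⟩ := hx x0 hx0D
  rw [mem_Akill] at hA0
  obtain ⟨i, hi, hxi⟩ := hA0
  obtain ⟨hl1, hl2⟩ := kills_length h hxi
  rw [hn0] at hl1 hl2
  -- all members of `D` are killed by the same requirement
  have hsame : ∀ x ∈ D, x ∈ kills (pos pr i s) := by
    intro x hxD
    obtain ⟨hA, hn⟩ := hx x hxD
    rw [mem_Akill] at hA
    obtain ⟨j, hj, hxj⟩ := hA
    obtain ⟨g1, g2⟩ := kills_length h hxj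
    rw [hn] at g1 g2
    rcases lt_trichotomy i j with hlt | heq | hgt
    · have := pn1_mono h hlt
      omega
    · rw [heq]; exact hxj
    · have := pn1_mono h hgt
      omega
  have inv := dinv h i s
  obtain ⟨-, -, -, -, -, -, -, hT, hSafe⟩ := (h.2 i).1
  obtain ⟨hOK1, -⟩ := (hSafe.2 _ inv.mem).1
  by_cases hn2 : n ≤ pn2 (pr i)
  · have hsub : D ⊆ (pK (pos pr i s).1).filter (fun x => x.length = n) := by
      intro x hxD
      have hk := hsame x hxD
      unfold kills at hk
      rw [List.mem_append] at hk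
      have hlen := (hx x hxD).2
      rcases hk with hk | hk
      · rw [List.mem_filter]
        exact ⟨hk, by simpa using hlen⟩
      · have := (inv.long x hk).1
        omega
    have hle : D.length ≤ cnt (pK (pos pr i s).1) n := (hD.subperm hsub).length_le
    have hx0K := hsub hx0D
    rw [List.mem_filter] at hx0K
    have h4 := (hOK1 x0 hx0K.1).2.2
    rw [hn0] at h4
    omega
  · push Not at hn2
    have hsub : D ⊆ (pos pr i s).2 := by
      intro x hxD
      have hk := hsame x hxD
      unfold kills at hk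
      rw [List.mem_append] at hk
      have hlen := (hx x hxD).2
      rcases hk with hk | hk
      · have := (hOK1 x hk).2.1
        omega
      · exact hk
    have hle : D.length ≤ (pos pr i s).2.length := (hD.subperm hsub).length_le
    have hnrev : nrev (pos pr i s).1 ≤ pT (pr i) := by
      unfold nrev
      have := inv.t_lt
      split_ifs <;> omega
    have h1 : (pos pr i s).2.length ≤ pT (pr i) * bnd i (pm (pr i)) :=
      inv.longlen.trans (Nat.mul_le_mul_right _ hnrev)
    have h2 : 2 ^ (pn2 (pr i) + 1) ≤ 2 ^ n := Nat.pow_le_pow_right (by norm_num) hn2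
    omega

end Pool.Agent.H861R3.NT
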