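import Pool.Agent.H861R3.NT.Dyn1

/-! # The run: every requirement acts finitely often -/

namespace Pool.Agent.H861R3.NT

open Pool.Agent.H544R2

/-- the measure of progress -/
def meas (P : Pos) : ℕ := (pE P).length + nrev P + pt P

private theorem nrev_le (P : Pos) : nrev P ≤ pt P + 1 := by
  unfold nrev; split_ifs <;> omega

private theorem le_nrev (P : Pos) : pt P ≤ nrev P := by
  unfold nrev; omega

theorem meas_lt_kill {T : ℕ} {P Q : Pos} {x : Str} (h : Reply T (addE x P) Q) :
    meas P < meas Q := by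
  obtain ⟨h1, -, h3⟩ := h
  have hE : (pE Q).length = (pE P).length + 1 := by rw [h1]; rfl
  unfold meas
  rcases h3 with ⟨h4, h5, -⟩ | ⟨h4, -, -, h5⟩
  · have h4' : pt Q = pt P := h4
    have h5' : pF Q = pF P := h5
    have h6 : nrev Q = nrev P := by unfold nrev; rw [h4', h5']
    omega
  · have h4' : pt Q = pt P + 1 := h4
    have := nrev_le P
    have := le_nrev Q
    omega

theorem meas_lt_reveal {T : ℕ} {P Q : Pos} {F : List Bool} (hF : pF P = none)
    (h : Reply T (setF F P) Q) : meas P < meas Q := by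
  obtain ⟨h1, -, h3⟩ := h
  have hE : (pE Q).length = (pE P).length := by rw [h1]; rfl
  have hP : nrev P = pt P := by unfold nrev; rw [if_pos hF, Nat.add_zero]
  unfold meas
  rcases h3 with ⟨h4, h5, -⟩ | ⟨h4, -, -, h5⟩
  · have h4' : pt Q = pt P := h4
    have h5' : pF Q = some F := h5
    have h6 : nrev Q = pt P + 1 := by
      unfold nrev
      rw [h4', if_neg (by rw [h5']; simp)]
    omega
  · have h4' : pt Q = pt P + 1 := h4
    have := le_nrev Q
    omega

theorem meas_le {pr : ℕ → Par} (h : GoodSeq pr) (i s : ℕ) :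
    meas (pos pr i s).1 ≤ (upTo (pn2 (pr i))).length + 2 * pT (pr i) + 1 := by
  have hd := dinv h i s
  have h1 : (pE (pos pr i s).1).length ≤ (upTo (pn2 (pr i))).length := by
    apply (hd.nodup.subperm ?_).length_le
    intro x hx
    rw [mem_upTo]
    exact (hd.ext x hx).1
  have h2 := hd.t_lt
  have h3 := nrev_le (pos pr i s).1
  unfold meas
  omega

private theorem step_cases {pr : ℕ → Par} {i s : ℕ} (hi : i < s) :
    pos pr i (s + 1) = pos pr i s ∨ meas (pos pr i s).1 < meas (pos pr i (s + 1)).1 := by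
  rw [pos_succ pr hi]
  rcases upd_cases i s (pr i) (run pr s) (pos pr i s) with h | ⟨x, Q, -, -, -, hR, h⟩ |
    ⟨y, Q, hF, -, -, hR, h⟩
  · exact Or.inl h
  · right
    rw [h]
    exact meas_lt_kill hR
  · right
    rw [h]
    exact meas_lt_reveal hF hR

/-- every requirement comes to rest -/
theorem exists_rest {pr : ℕ → Par} (h : GoodSeq pr) (i : ℕ) :
    ∃ s0, i < s0 ∧ ∀ s, s0 ≤ s → pos pr i s = pos pr i s0 := by
  obtain ⟨s0, hs0, hmax⟩ : ∃ s0, i < s0 ∧ ∀ s, i < s →
      meas (pos pr i s).1 ≤ meas (pos pr i s0).1 := by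
    have hne : (Set.range fun s : {s : ℕ // i < s} => meas (pos pr i s.1).1).Nonempty :=
      ⟨_, ⟨i + 1, by omega⟩, rfl⟩
    have hbd : BddAbove (Set.range fun s : {s : ℕ // i < s} => meas (pos pr i s.1).1) := by
      refine ⟨(upTo (pn2 (pr i))).length + 2 * pT (pr i) + 1, ?_⟩
      rintro _ ⟨s, rfl⟩
      exact meas_le h i s.1
    obtain ⟨s0, hs0⟩ := Nat.sSup_mem hne hbd
    refine ⟨s0.1, s0.2, fun s hs => ?_⟩
    have h1 := le_csSup hbd (Set.mem_range_self (⟨s, hs⟩ : {s : ℕ // i < s}))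
    rw [← hs0] at h1
    exact h1
  refine ⟨s0, hs0, ?_⟩
  intro s hs
  induction s, hs using Nat.le_induction with
  | base => rfl
  | succ s hs ih =>
    rcases step_cases (pr := pr) (i := i) (s := s) (by omega) with h1 | h1
    · rw [h1, ih]
    · rw [ih] at h1
      have := hmax (s + 1) (by omega)
      omega

/-- the moves of the others are legal -/
theorem legal {pr : ℕ → Par} (h : GoodSeq pr) {i s : ℕ} (hi : i < s) {x : Str}
    (hx : x ∈ ext i s (pr i) (run pr s)) (hn : x ∉ pE (pos pr i s).1) :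
    ∃ Q ∈ pG (pr i), Reply (pT (pr i)) (addE x (pos pr i s).1) Q := by
  have hd := dinv h i s
  obtain ⟨-, -, h12, -, -, -, -, -, hsafe⟩ := (h.2 i).1
  have hshort : ∀ z : Str, (∃ j < i, z ∈ kills (pos pr j s)) → z.length ≤ pn1 (pr i) := by
    rintro z ⟨j, hj, hz⟩
    exact (kills_length h hz).2.trans (pn1_mono h hj)
  rw [mem_ext pr hi.le] at hx
  have hlen : x.length ≤ pn2 (pr i) := by
    rcases hx with hx | hx
    · exact hx.2
    · exact (hshort x hx).trans h12.le
  refine (hsafe.2 _ hd.mem).2.1 x (mem_upTo.2 hlen) ⟨hlen, hn, fun hlt => ?_⟩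
  have hV : x ∈ Vdead s := by
    rcases hx with hx | hx
    · exact hx.1
    · have := hshort x hx
      omega
  have hc := Vdead_cnt (D := x :: pE (pos pr i s).1) (List.nodup_cons.2 ⟨hn, hd.nodup⟩)
    (n := x.length) (by
      intro z hz hzl
      rcases List.mem_cons.1 hz with rfl | hz
      · exact ⟨s, hV⟩
      · rcases (hd.ext z hz).2 with h1 | h1
        · exact ⟨s, h1⟩
        · have := hshort z h1
          omega)
  rwa [cnt_cons_self] at hc

/-- the function has a reply -/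
theorem legal_reveal {pr : ℕ → Par} (h : GoodSeq pr) {i s : ℕ} (y : TT)
    (hF : pF (pos pr i s).1 = none) :
    ∃ Q ∈ pG (pr i), Reply (pT (pr i)) (setF (tabF (pn2 (pr i)) y) (pos pr i s).1) Q := by
  obtain ⟨-, -, -, -, -, -, -, -, hsafe⟩ := (h.2 i).1
  exact (hsafe.2 _ (dinv h i s).mem).2.2 hF _ (tabF_mem _ y)

/-- At rest, everything killed by the others is in the list `E`. -/
theorem rest_ext {pr : ℕ → Par} (h : GoodSeq pr) {i s0 : ℕ} (hi : i < s0)
    (h0 : ∀ s, s0 ≤ s → pos pr i s = pos pr i s0) {x : Str} {s : ℕ}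
    (hx : (x ∈ Vdead s ∧ x.length ≤ pn2 (pr i)) ∨ ∃ j < i, x ∈ kills (pos pr j s)) :
    x ∈ pE (pos pr i s0).1 := by
  by_contra hn
  have h1 : s ≤ max s s0 := le_max_left _ _
  have h2 : s0 ≤ max s s0 := le_max_right _ _
  set s1 := max s s0 with hs1
  have hi1 : i < s1 := lt_of_lt_of_le hi h2
  have hx1 : x ∈ ext i s1 (pr i) (run pr s1) := by
    rw [mem_ext pr hi1.le]
    rcases hx with hx | ⟨j, hj, hx⟩
    · exact Or.inl ⟨Vdead_mono h1 hx.1, hx.2⟩
    · exact Or.inr ⟨j, hj, kills_mono pr h1 hx⟩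
  have hp : pos pr i s1 = pos pr i s0 := h0 s1 h2
  obtain ⟨z, Q, -, -, -, hR, hu⟩ := upd_kill (i := i) (s := s1) (a := pr i) (st := run pr s1)
    (p := pos pr i s1) ⟨x, hx1, by rw [hp]; exact hn⟩
    (fun z hz hzn => legal h hi1 hz hzn)
  rw [← pos_succ pr hi1, h0 (s1 + 1) (by omega), ← hp] at hu
  have h3 := meas_lt_kill hR
  have h4 : (pos pr i s1).1 = Q := congrArg Prod.fst hu
  rw [h4] at h3
  exact lt_irrefl _ h3

/-- At rest, the function is known if the requirement is active. -/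
theorem rest_known {pr : ℕ → Par} (h : GoodSeq pr) {i s0 : ℕ} (hi : i < s0)
    (h0 : ∀ s, s0 ≤ s → pos pr i s = pos pr i s0) {s' : ℕ} {y : TT}
    (hy : reveal i s' (pr i) (pt (pos pr i s0).1) = some y) :
    ∃ F, pF (pos pr i s0).1 = some F := by
  by_contra hn
  have hF : pF (pos pr i s0).1 = none := by
    rcases hP : pF (pos pr i s0).1 with _ | F
    · rfl
    · exact absurd ⟨F, hP⟩ hn
  have h1 : s' ≤ max s' s0 := le_max_left _ _
  have h2 : s0 ≤ max s' s0 := le_max_right _ _
  set s1 := max s' s0 with hs1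
  have hi1 : i < s1 := lt_of_lt_of_le hi h2
  have hp : pos pr i s1 = pos pr i s0 := h0 s1 h2
  obtain ⟨Q, -, hR, hu⟩ := upd_reveal (i := i) (s := s1) (a := pr i) (st := run pr s1)
    (p := pos pr i s1) (y := y)
    (fun x hx => by
      rw [mem_ext pr hi1.le] at hx
      rw [hp]
      exact rest_ext h hi h0 hx)
    (by rw [hp]; exact hF) (by rw [hp]; exact reveal_mono h1 hy)
    (legal_reveal h y (by rw [hp]; exact hF))
  rw [← pos_succ pr hi1, h0 (s1 + 1) (by omega), ← hp] at hu
  have h3 := meas_lt_reveal (by rw [hp]; exact hF) hR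
  have h4 : (pos pr i s1).1 = Q := congrArg Prod.fst hu
  rw [h4] at h3
  exact lt_irrefl _ h3

end Pool.Agent.H861R3.NT
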