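import Pool.Agent.H861R3.NT.Defs

/-! # Lists of strings, tables -/

namespace Pool.Agent.H861R3.NT

open Pool.Agent.H544R2
open Pool.Agent.NPC (valB)

theorem mem_allL {n : ℕ} {l : Str} : l ∈ allL n ↔ l.length = n := by
  unfold allL
  rw [List.mem_map]
  constructor
  · rintro ⟨j, _, rfl⟩
    exact fb_length n j
  · rintro rfl
    exact ⟨valB l, List.mem_range.2 (Pool.Agent.NPC.valB_lt l), fb_valB l⟩

theorem mem_upTo {n : ℕ} {l : Str} : l ∈ upTo n ↔ l.length ≤ n := by
  unfold upTo
  simp only [List.mem_flatMap, List.mem_range, mem_allL]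
  constructor
  · rintro ⟨a, ha, rfl⟩; omega
  · intro h; exact ⟨l.length, by omega, rfl⟩

theorem nodup_allL (n : ℕ) : (allL n).Nodup := by
  unfold allL
  refine List.Nodup.map_on ?_ List.nodup_range
  intro x hx y hy h
  rw [← valB_fb (List.mem_range.1 hx), ← valB_fb (List.mem_range.1 hy), h]

theorem nodup_upTo (n : ℕ) : (upTo n).Nodup := by
  unfold upTo
  rw [List.nodup_flatMap]
  refine ⟨fun x _ => nodup_allL x, ?_⟩
  refine List.Pairwise.imp_of_mem ?_ List.nodup_range
  intro a b _ _ hab
  simp only [Function.onFun]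
  rw [List.disjoint_left]
  intro l hl hl'
  rw [mem_allL] at hl hl'
  exact hab (hl.symm.trans hl')

theorem evalF_congr {n2 : ℕ} {F : List Bool} {D D' : List Str}
    (h : ∀ x : Str, x.length ≤ n2 → (x ∈ D ↔ x ∈ D')) : evalF n2 F D = evalF n2 F D' := by
  unfold evalF
  congr 2
  apply List.map_congr_left
  intro x hx
  simp only [decide_eq_decide]
  exact h x (mem_upTo.1 hx)

/-- the table made from a truth table gives the value of the truth table -/
theorem evalF_tabF (n2 : ℕ) (y : TT) (D : List Str) :
    evalF n2 (tabF n2 y) D = evalTT y (fun x => decide (x.length ≤ n2 ∧ x ∉ D)) := by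
  unfold evalF tabF
  set v := (upTo n2).map (fun x => decide (x ∈ D)) with hv
  have hl : v.length = (upTo n2).length := by rw [hv, List.length_map]
  have hlt : valB v < 2 ^ (upTo n2).length := by rw [← hl]; exact Pool.Agent.NPC.valB_lt v
  rw [List.getD_eq_getElem _ _ (by rw [List.length_map, List.length_range]; exact hlt)]
  rw [List.getElem_map, List.getElem_range]
  have hf : fb (upTo n2).length (valB v) = v := by rw [← hl]; exact fb_valB v
  rw [hf]
  unfold evalTT
  congr 2
  apply List.map_congr_left
  intro x _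
  rw [decide_eq_decide]
  constructor
  · rintro ⟨h1, h2⟩
    refine ⟨h1, ?_⟩
    have hx : x ∈ upTo n2 := mem_upTo.2 h1
    have hi : (upTo n2).idxOf x < (upTo n2).length := List.idxOf_lt_length_of_mem hx
    rw [List.getD_eq_getElem _ _ (by rw [hl]; exact hi)] at h2
    simp only [hv, List.getElem_map, List.getElem_idxOf, decide_eq_false_iff_not] at h2
    exact h2
  · rintro ⟨h1, h2⟩
    refine ⟨h1, ?_⟩
    have hx : x ∈ upTo n2 := mem_upTo.2 h1
    have hi : (upTo n2).idxOf x < (upTo n2).length := List.idxOf_lt_length_of_mem hx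
    rw [List.getD_eq_getElem _ _ (by rw [hl]; exact hi)]
    simp only [hv, List.getElem_map, List.getElem_idxOf, decide_eq_false_iff_not]
    exact h2

theorem tabF_mem (n2 : ℕ) (y : TT) : tabF n2 y ∈ allL (2 ^ (upTo n2).length) := by
  rw [mem_allL]
  unfold tabF
  rw [List.length_map, List.length_range]

theorem cnt_cons_self (x : Str) (l : List Str) : cnt (x :: l) x.length = cnt l x.length + 1 := by
  unfold cnt
  rw [List.filter_cons_of_pos (by simp), List.length_cons]

theorem cnt_cons_of_ne {x : Str} {n : ℕ} (h : x.length ≠ n) (l : List Str) :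
    cnt (x :: l) n = cnt l n := by
  unfold cnt
  rw [List.filter_cons_of_neg (by simpa using h)]

theorem cnt_append (l l' : List Str) (n : ℕ) : cnt (l ++ l') n = cnt l n + cnt l' n := by
  unfold cnt
  rw [List.filter_append, List.length_append]

/-- a duplicate-free list whose entries of length `n` lie in `l` has at most as many of them -/
theorem cnt_le_cnt {l l' : List Str} (hl : l.Nodup) {n : ℕ}
    (h : ∀ x ∈ l, x.length = n → x ∈ l') : cnt l n ≤ cnt l' n := by
  unfold cnt
  apply List.Subperm.length_le
  apply List.Nodup.subperm (hl.filter _)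
  intro x hx
  rw [List.mem_filter] at hx ⊢
  exact ⟨h x hx.1 (by simpa using hx.2), hx.2⟩

theorem cnt_le_pow {l : List Str} (hl : l.Nodup) (n : ℕ) : cnt l n ≤ 2 ^ n := by
  have h : cnt l n ≤ (allL n).length := by
    unfold cnt
    apply List.Subperm.length_le
    apply List.Nodup.subperm (hl.filter _)
    intro x hx
    rw [List.mem_filter] at hx
    exact mem_allL.2 (by simpa using hx.2)
  unfold allL at h
  rwa [List.length_map, List.length_range] at h

end Pool.Agent.H861R3.NT
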