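import Pool.Agent.H861R3.NT.Enum

/-! # From a set of positions to a list of positions -/

namespace Pool.Agent.H861R3.NT

open Pool.Agent.H544R2

private theorem finite_lists (s : Set Str) (hs : s.Finite) (k : ℕ) :
    {l : List Str | l.length ≤ k ∧ ∀ x ∈ l, x ∈ s}.Finite := by
  have : Finite s := hs.to_subtype
  refine ((List.finite_length_le s k).image (List.map Subtype.val)).subset ?_
  rintro l ⟨h1, h2⟩
  refine ⟨l.attach.map (fun x => ⟨x.1, h2 x.1 x.2⟩), ?_, ?_⟩
  · simpa using h1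
  · simp

private theorem cnt_cons' (x : Str) (l : List Str) (n : ℕ) :
    cnt (x :: l) n = cnt l n + if x.length = n then 1 else 0 := by
  unfold cnt
  rw [List.filter_cons]
  by_cases h : x.length = n
  · simp [h]
  · simp [h]

private theorem length_le_sum (n2 : ℕ) (l : List Str) (h : ∀ x ∈ l, x.length ≤ n2) :
    l.length = ∑ n ∈ Finset.range (n2 + 1), cnt l n := by
  induction l with
  | nil => simp [cnt]
  | cons x l ih =>
    simp only [cnt_cons', Finset.sum_add_distrib]
    rw [← ih (fun y hy => h y (List.mem_cons_of_mem _ hy)), Finset.sum_ite_eq,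
      if_pos (Finset.mem_range.mpr (Nat.lt_succ_of_le (h x List.mem_cons_self)))]
    rfl

/-- bounded positions -/
private def Bdd (n2 T : ℕ) : Set Pos :=
  {l : List Str | l.length ≤ (upTo n2).length ∧ ∀ x ∈ l, x ∈ {x | x ∈ upTo n2}} ×ˢ
    ({l : List Str | l.length ≤ ∑ n ∈ Finset.range (n2 + 1), 2 ^ n ∧
        ∀ x ∈ l, x ∈ {x | x ∈ upTo n2}} ×ˢ
      (Set.Iio T ×ˢ ((Set.univ : Set Bool) ×ˢ
        (insert none (some '' {F : List Bool | F.length = 2 ^ (upTo n2).length})))))

private theorem Bdd_finite (n2 T : ℕ) : (Bdd n2 T).Finite := by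
  have h1 : {x | x ∈ upTo n2}.Finite := List.finite_toSet _
  exact (finite_lists _ h1 _).prod ((finite_lists _ h1 _).prod ((Set.finite_Iio T).prod
    ((Set.finite_univ).prod (((List.finite_length_eq Bool _).image some).insert none))))

/-- the set of the bounded duplicate-free positions -/
private def Bd (n2 T : ℕ) : Set Pos :=
  {P | (pE P).Nodup ∧ (∀ x ∈ pE P, x.length ≤ n2) ∧ pt P < T ∧
    ∀ F ∈ pF P, F.length = 2 ^ (upTo n2).length}

private theorem sub_Bdd {n1 n2 T : ℕ} {P : Pos} (hP : P ∈ Bd n2 T) (hOK : OK n1 n2 P) :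
    P ∈ Bdd n2 T := by
  obtain ⟨h1, h2, h3, h4⟩ := hP
  obtain ⟨h5, -⟩ := hOK
  refine ⟨⟨?_, fun x hx => mem_upTo.mpr (h2 x hx)⟩, ⟨?_, fun x hx => mem_upTo.mpr (h5 x hx).2.1⟩,
    h3, Set.mem_univ _, ?_⟩
  · have e1 : (pE P).toFinset ⊆ (upTo n2).toFinset := by
      intro x hx
      rw [List.mem_toFinset] at hx ⊢
      exact mem_upTo.mpr (h2 x hx)
    have e2 := Finset.card_le_card e1
    rw [List.toFinset_card_of_nodup h1] at e2
    exact e2.trans (List.toFinset_card_le _)
  · show (pK P).length ≤ _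
    rw [length_le_sum n2 (pK P) (fun x hx => (h5 x hx).2.1)]
    refine Finset.sum_le_sum (fun n _ => ?_)
    by_cases hn : ∃ x ∈ pK P, x.length = n
    · obtain ⟨x, hx, rfl⟩ := hn
      have := (h5 x hx).2.2
      omega
    · push Not at hn
      have : cnt (pK P) n = 0 := by
        unfold cnt
        rw [List.length_eq_zero_iff, List.filter_eq_nil_iff]
        intro x hx
        simpa using hn x hx
      rw [this]
      exact Nat.zero_le _
  · show pF P ∈ _
    cases hF : pF P with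
    | none => exact Set.mem_insert _ _
    | some F => exact Set.mem_insert_of_mem _ ⟨F, h4 F hF, rfl⟩

theorem exists_safe_list {n1 n2 T : ℕ} (hT : 0 < T) (S : Set Pos) (h0 : P0 ∈ S)
    (hS : ∀ P ∈ S, OK n1 n2 P ∧
      (∀ x : Str, OppKill n1 n2 (pE P) x → ∃ Q ∈ S, Reply T (addE x P) Q) ∧
      (pF P = none → ∀ F : List Bool, ∃ Q ∈ S, Reply T (setF F P) Q)) :
    ∃ G : List Pos, Safe n1 n2 T G := by
  have hfin : (S ∩ Bd n2 T).Finite := (Bdd_finite n2 T).subset
    (fun P hP => sub_Bdd hP.2 (hS P hP.1).1)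
  refine ⟨hfin.toFinset.toList, ?_⟩
  have hmem : ∀ P, P ∈ hfin.toFinset.toList ↔ P ∈ S ∧ P ∈ Bd n2 T := by
    intro P
    rw [Finset.mem_toList, Set.Finite.mem_toFinset]
    rfl
  have hrep : ∀ P Q : Pos, Reply T P Q → pt P < T →
      (pE P).Nodup → (∀ x ∈ pE P, x.length ≤ n2) →
      (∀ F ∈ pF P, F.length = 2 ^ (upTo n2).length) → Q ∈ Bd n2 T := by
    rintro P Q ⟨hE, -, hR⟩ ht hN hl hF
    refine ⟨by rw [hE]; exact hN, by rw [hE]; exact hl, ?_, ?_⟩
    · rcases hR with h | h
      · rw [h.1]; exact ht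
      · exact h.2.1
    · rcases hR with h | h
      · rw [h.2.1]; exact hF
      · rw [h.2.2.2]
        intro F hF
        simp at hF
  refine ⟨?_, ?_⟩
  · rw [hmem]
    refine ⟨h0, ?_, ?_, ?_, ?_⟩
    · exact List.nodup_nil
    · intro x hx
      exact absurd hx List.not_mem_nil
    · exact hT
    · intro F hF
      exact absurd (show (none : Option (List Bool)) = some F from hF) (by simp)
  · intro P hP
    rw [hmem] at hP
    obtain ⟨hPS, hPN, hPl, hPt, hPF⟩ := hP
    obtain ⟨h1, h2, h3⟩ := hS P hPS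
    refine ⟨h1, ?_, ?_⟩
    · intro x hx hop
      obtain ⟨Q, hQ, hR⟩ := h2 x hop
      refine ⟨Q, (hmem Q).mpr ⟨hQ, hrep _ Q hR hPt ?_ ?_ hPF⟩, hR⟩
      · exact List.nodup_cons.mpr ⟨hop.2.1, hPN⟩
      · intro y hy
        rcases List.mem_cons.mp hy with rfl | hy
        · exact hop.1
        · exact hPl y hy
    · intro hN F hF
      obtain ⟨Q, hQ, hR⟩ := h3 hN F
      refine ⟨Q, (hmem Q).mpr ⟨hQ, hrep _ Q hR hPt hPN hPl ?_⟩, hR⟩
      intro F' hF'
      have : F' = F := (Option.some.inj hF').symm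
      rw [this]
      exact mem_allL.mp hF

end Pool.Agent.H861R3.NT
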