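import Pool.Agent.H861R3.NT.InvW

/-! # The invariant: the others kill a cell of the window during an attempt -/

namespace Pool.Agent.H861R3.NT

open Pool.Agent.H544R2

private theorem wf_addE {n1 a : ℕ} {P : Pos} (h : Wf n1 a P) {x : Str}
    (hx : OppKill n1 (gn2 n1 a) (pE P) x) : Wf n1 a (addE x P) := by
  obtain ⟨h1, h2, h3, h4⟩ := h
  obtain ⟨hx1, hx2, hx3⟩ := hx
  refine ⟨?_, ?_, ?_, h4⟩
  · exact List.nodup_cons.2 ⟨hx2, h1⟩
  · intro y hy
    rcases List.mem_cons.1 hy with rfl | hy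
    · exact hx1
    · exact h2 y hy
  · intro n hn
    by_cases hxn : x.length = n
    · subst hxn
      have hlt : n1 < x.length := (mem_gS.1 hn).1
      have e : cnt (pE (addE x P)) x.length = cnt (pE P) x.length + 1 := by
        simp [cnt, addE, pE]
      rw [e]
      exact hx3 hlt
    · have e : cnt (pE (addE x P)) n = cnt (pE P) n := by
        simp [cnt, addE, pE, hxn]
      rw [e]
      exact h3 n hn

private theorem sum_cons_mem {n1 a : ℕ} (w : ℕ → ℝ) (x : Str) (E E0 : List Str)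
    (hx : x.length ∈ gS n1 a) :
    ∑ n ∈ gS n1 a, w n * (rel (x :: E) n - rel E0 n) =
      ∑ n ∈ gS n1 a, w n * (rel E n - rel E0 n) + gc w x := by
  have h : ∀ n ∈ gS n1 a, w n * (rel (x :: E) n - rel E0 n) =
      w n * (rel E n - rel E0 n) + (if n = x.length then gc w x else 0) := by
    intro n hn
    by_cases hxn : n = x.length
    · subst hxn
      rw [rel_cons_self, if_pos rfl, gc]
      ring
    · rw [rel_cons_of_ne (fun h => hxn h.symm), if_neg hxn, add_zero]
  rw [Finset.sum_congr rfl h, Finset.sum_add_distrib, Finset.sum_ite_eq' (gS n1 a) x.length,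
    if_pos hx]

theorem kill_window {n1 a : ℕ} (ha : 1 ≤ a) {P : Pos} (h : Wf n1 a P) (hw : Active n1 a P)
    {x : Str} (hx : OppKill n1 (gn2 n1 a) (pE P) x) (hx1 : n1 < x.length) :
    ∃ Q, Inv n1 a Q ∧ Reply (gT n1 a) (addE x P) Q := by
  have hwf' := wf_addE h hx
  obtain ⟨E, K, t, b, oF⟩ := P
  obtain ⟨F, E0, K0, w, r, r', hF, hB, ⟨E1, hE, hE1⟩, ⟨K1, hK⟩, hr, hH, hsp, ho⟩ := hw
  simp only [pE, pK, pt, pb, pF] at hF hB hE hE1 hK hH hsp ho hx
  subst hF
  have hxS : x.length ∈ gS n1 a := mem_gS.2 ⟨hx1, hx.1⟩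
  have hE' : (x :: E).Nodup := hwf'.1
  have hc' : ∀ n ∈ gS n1 a, cnt (x :: E) n * 2 ^ cc ≤ 2 ^ n := hwf'.2.2.1
  have hE0 : ∀ n, cnt E0 n ≤ cnt E n := by
    intro n
    rw [hE]
    simp [cnt]
  have hc0 : ∀ n ∈ gS n1 a, cnt E0 n * 2 ^ cc ≤ 2 ^ n := fun n hn =>
    le_trans (Nat.mul_le_mul_right _ (hE0 n)) (h.2.2.1 n hn)
  have hw0 : ∀ n ∈ gS n1 a, 0 ≤ w n := fun n hn =>
    le_trans (by positivity) (hB.le_w hc0 hn)
  have hsum := sum_cons_mem (n1 := n1) (a := a) w x E E0 hxS
  have hgc : 0 ≤ gc w x := div_nonneg (hw0 _ hxS) (by positivity)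
  have hE1' : ∀ y ∈ x :: E1, n1 < y.length := by
    intro y hy
    rcases List.mem_cons.1 hy with rfl | hy
    · exact hx1
    · exact hE1 y hy
  have hE'' : x :: E = (x :: E1) ++ E0 := by rw [hE]; rfl
  by_cases hxK : x ∈ K
  · -- the string is already dead
    refine ⟨addE x (E, K, t, b, some F), ⟨hwf', Or.inr ⟨F, E0, K0, w, r, r', rfl, hB,
      ⟨x :: E1, hE'', hE1'⟩, ⟨K1, hK⟩, hr, ?_, hsp, ?_⟩⟩, rfl, ?_, Or.inl ⟨rfl, rfl, id⟩⟩
    · show Hold (gc w) (fn n1 a F (x :: E)) (!b) (alive n1 a (x :: E) K) r r'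
      rw [fn_cons a F E hx1, alive_cons, Finset.erase_eq_of_notMem]
      · exact hH
      · intro hm
        exact (mem_alive.1 hm).2.2.2 hxK
    · show gs n1 a ≤ ∑ n ∈ gS n1 a, w n * (rel (x :: E) n - rel E0 n) + r'
      rw [hsum]
      linarith
    · simp [addE]
  · have hxa : x ∈ alive n1 a E K := mem_alive.2 ⟨hx.1, hx1, hx.2.1, hxK⟩
    by_cases hcost : gc w x ≤ r'
    · -- we answer
      have hss : (alive n1 a E K).erase x ⊂ alive n1 a E K := Finset.erase_ssubset hxa
      have hsd : alive n1 a E K \ (alive n1 a E K).erase x = {x} :=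
        Finset.sdiff_erase_self hxa
      have hW := hH.2 _ hss (by rw [hsd, Finset.sum_singleton]; exact hcost)
      rw [hsd, Finset.sum_singleton, ← alive_cons] at hW
      cases hW with
      | mk _ B _ _ hBC hcost' hfB hwin =>
        set C := alive n1 a (x :: E) K with hC
        set D := C \ B with hD
        have hDl : ∀ y ∈ D, y.length ∈ gS n1 a := by
          intro y hy
          have hy' := mem_alive.1 (Finset.mem_sdiff.1 hy).1
          exact mem_gS.2 ⟨hy'.2.1, hy'.1⟩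
        refine ⟨(x :: E, D.toList ++ K, t, b, some F), ⟨⟨hE', hwf'.2.1, hc', ?_⟩,
          Or.inr ⟨F, E0, K0, w, r - ∑ y ∈ D, gc w y, r' - gc w x, rfl, hB,
          ⟨x :: E1, hE'', hE1'⟩, ⟨D.toList ++ K1, ?_⟩, ?_, ?_, ?_, ?_⟩⟩, rfl, ?_,
          Or.inl ⟨rfl, rfl, id⟩⟩
        · intro y hy
          rcases List.mem_append.1 hy with hy | hy
          · have := mem_gS.1 (hDl y (Finset.mem_toList.1 hy))
            exact this
          · exact h.2.2.2 y hy
        · show D.toList ++ K = (D.toList ++ K1) ++ K0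
          rw [hK, List.append_assoc]
        · linarith
        · show Hold (gc w) (fn n1 a F (x :: E)) (!b) (alive n1 a (x :: E) (D.toList ++ K)) _ _
          rw [alive_kill hBC, fn_cons a F E hx1]
          exact ⟨hfB, hwin⟩
        · show ∑ n ∈ gS n1 a, w n * (rel (D.toList ++ K) n - rel K0 n) +
            (r - ∑ y ∈ D, gc w y) ≤ gs n1 a
          have e : ∑ n ∈ gS n1 a, w n * (rel (D.toList ++ K) n - rel K0 n) =
              ∑ y ∈ D, gc w y + ∑ n ∈ gS n1 a, w n * (rel K n - rel K0 n) := by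
            rw [sum_gc w K hDl, ← Finset.sum_add_distrib]
            exact Finset.sum_congr rfl fun n _ => by ring
          rw [e]
          linarith
        · show gs n1 a ≤ ∑ n ∈ gS n1 a, w n * (rel (x :: E) n - rel E0 n) + (r' - gc w x)
          rw [hsum]
          linarith
        · show List.drop ((D.toList ++ K).length - K.length) (D.toList ++ K) = K
          simp
    · -- the others have spent too much
      push Not at hcost
      have hsp' : ∑ n ∈ gS n1 a, w n * (rel (K1 ++ K0) n - rel K0 n) ≤ gs n1 a := by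
        rw [← hK]; linarith
      obtain ⟨w', hw'⟩ := renew_over ha (E1 := E1) (K1 := K1) (x := x) (hE ▸ hE') (hE ▸ hc') hB
        hsp' (by rw [← hE, hsum]; linarith)
      rw [← hE, ← hK] at hw'
      exact ⟨(x :: E, K, t + 1, false, none), ⟨⟨hE', hwf'.2.1, hc', h.2.2.2⟩,
        Or.inl ⟨rfl, rfl, w', hw'⟩⟩, rfl, by simp [addE], Or.inr ⟨rfl, hw'.t_lt hE' hc', rfl, rfl⟩⟩

end Pool.Agent.H861R3.NT
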