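import Pool.Agent.H861R3.NT.Defs

/-! # The choice of the width of the window -/

namespace Pool.Agent.H861R3.NT

private theorem lin_pow (C D : ℕ) : ∃ a, 1 ≤ a ∧ C * a + D ≤ 2 ^ a := by
  -- take `a = 2 b` with `b = C + D + 1`; `a² ≤ 2 ^ a` for `a ≥ 4`
  refine ⟨2 * (C + D + 2), by omega, ?_⟩
  have h1 : C + D + 2 < 2 ^ (C + D + 2) := Nat.lt_two_pow_self
  have h2 : 2 ^ (2 * (C + D + 2)) = 2 ^ (C + D + 2) * 2 ^ (C + D + 2) := by
    rw [two_mul, pow_add]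
  have h3 : 2 * (C + D + 2) ≤ 2 ^ (C + D + 2) * 2 := by omega
  rw [h2]
  set b := C + D + 2 with hb
  have h5 : 2 * b ≤ 2 ^ b := by
    have h6 : b - 1 < 2 ^ (b - 1) := Nat.lt_two_pow_self
    have h7 : 2 ^ b = 2 * 2 ^ (b - 1) := by
      rw [← pow_succ', Nat.sub_add_cancel (by omega)]
    omega
  calc C * (2 * b) + D ≤ C * (2 * b) + D * (2 * b) := by
        have : 1 ≤ 2 * b := by omega
        nlinarith
    _ = (C + D) * (2 * b) := by ring
    _ ≤ 2 ^ b * 2 ^ b := Nat.mul_le_mul (by omega) h5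

theorem exists_width (i n1 : ℕ) : ∃ a, 1 ≤ a ∧
    4 * (2 ^ (4 * a + 2 * n1 + 10) * bnd i (4 * a + 2 * n1 + 10)) ≤ 2 ^ (n1 + 2 ^ a) := by
  obtain ⟨a, ha1, ha⟩ := lin_pow (4 * (i + 2)) ((2 * n1 + 10) * (i + 2) + 2)
  refine ⟨a, ha1, ?_⟩
  set m := 4 * a + 2 * n1 + 10 with hm
  have hm1 : 1 ≤ m := by omega
  have h1 : bnd i m ≤ 2 ^ (m * (i + 1)) := by
    unfold bnd
    have e1 : m ^ i ≤ 2 ^ (m * i) := by
      rw [pow_mul]
      exact Nat.pow_le_pow_left (Nat.lt_two_pow_self).le i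
    have e2 : i ≤ 2 ^ (m * i) := by
      refine (Nat.lt_two_pow_self (n := i)).le.trans (Nat.pow_le_pow_right (by norm_num) ?_)
      nlinarith
    have e3 : 2 ^ (m * (i + 1)) = 2 ^ m * 2 ^ (m * i) := by
      rw [← pow_add]; congr 1; ring
    have e4 : 2 ≤ 2 ^ m := by
      calc 2 = 2 ^ 1 := rfl
        _ ≤ 2 ^ m := Nat.pow_le_pow_right (by norm_num) hm1
    rw [e3]
    nlinarith
  calc 4 * (2 ^ m * bnd i m) ≤ 2 ^ 2 * (2 ^ m * 2 ^ (m * (i + 1))) := by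
        have := Nat.mul_le_mul_left (2 ^ m) h1
        omega
    _ = 2 ^ (2 + (m + m * (i + 1))) := by rw [← pow_add, ← pow_add]
    _ ≤ 2 ^ (n1 + 2 ^ a) := by
        apply Nat.pow_le_pow_right (by norm_num)
        have h2 : 2 + (m + m * (i + 1)) = 4 * (i + 2) * a + ((2 * n1 + 10) * (i + 2) + 2) := by
          rw [hm]; ring
        rw [h2]
        omega

end Pool.Agent.H861R3.NT
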