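import Pool.Agent.H861R3.NT.Prim0

/-! # Good parameters are recognised by a primitive recursive procedure -/

namespace Pool.Agent.H861R3.NT

open Pool.Agent.H544R2
open Pool.Agent.NPC (valB)
open Nat.Partrec (Code)
open Primrec

section PAgen

variable {α β : Type} [Primcodable α] [Primcodable β]

theorem pa_forall_mem {l : α → List β} {p : α → β → Prop} (hl : Primrec l)
    (hp : PrimrecRel p) : PrimrecPred fun a => ∀ b ∈ l a, p a b := by
  have h : PrimrecRel (fun (b : β) (a : α) => p a b) := hp.comp₂ Primrec₂.right Primrec₂.left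
  exact (PrimrecRel.forall_mem_list h).comp hl Primrec.id

theorem pa_exists_mem {l : α → List β} {p : α → β → Prop} (hl : Primrec l)
    (hp : PrimrecRel p) : PrimrecPred fun a => ∃ b ∈ l a, p a b := by
  have h : PrimrecRel (fun (b : β) (a : α) => p a b) := hp.comp₂ Primrec₂.right Primrec₂.left
  exact (PrimrecRel.exists_mem_list h).comp hl Primrec.id

theorem pa_imp {p q : α → Prop} (hp : PrimrecPred p) (hq : PrimrecPred q) :
    PrimrecPred fun a => p a → q a :=
  (hp.not.or hq).of_eq fun _ => imp_iff_not_or.symm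

theorem pa_mem {f : α → β} {l : α → List β} (hf : Primrec f) (hl : Primrec l) :
    PrimrecPred fun a => f a ∈ l a :=
  (pa_exists_mem (p := fun a b => b = f a) hl
    (Primrec.eq.comp snd (hf.comp fst))).of_eq fun a => by simp

end PAgen

theorem prim_OppKill :
    PrimrecPred (fun x : (ℕ × ℕ) × List Str × Str => OppKill x.1.1 x.1.2 x.2.1 x.2.2) := by
  have hlen : Primrec (fun x : (ℕ × ℕ) × List Str × Str => x.2.2.length) :=
    list_length.comp (snd.comp snd)
  have h1 : PrimrecPred (fun x : (ℕ × ℕ) × List Str × Str => x.2.2.length ≤ x.1.2) :=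
    nat_le.comp hlen (snd.comp fst)
  have h2 : PrimrecPred (fun x : (ℕ × ℕ) × List Str × Str => ¬ x.2.2 ∈ x.2.1) :=
    (pa_mem (f := fun x : (ℕ × ℕ) × List Str × Str => x.2.2) (snd.comp snd) (fst.comp snd)).not
  have h3 : PrimrecPred (fun x : (ℕ × ℕ) × List Str × Str => x.1.1 < x.2.2.length) :=
    nat_lt.comp (fst.comp fst) hlen
  have h4 : Primrec (fun x : (ℕ × ℕ) × List Str × Str => cnt x.2.1 x.2.2.length) :=
    prim_cnt.comp (fst.comp snd) hlen
  have h5 : PrimrecPred (fun x : (ℕ × ℕ) × List Str × Str =>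
      (cnt x.2.1 x.2.2.length + 1) * 2 ^ cc ≤ 2 ^ x.2.2.length) :=
    nat_le.comp (nat_mul.comp (nat_add.comp h4 (const 1)) (const (2 ^ cc)))
      (nat_pow.comp (const 2) hlen)
  exact (h1.and (h2.and (pa_imp h3 h5))).of_eq fun x => Iff.rfl

theorem prim_OK : PrimrecPred (fun x : (ℕ × ℕ) × Pos => OK x.1.1 x.1.2 x.2) := by
  have hlen : Primrec (fun y : ((ℕ × ℕ) × Pos) × Str => y.2.length) :=
    list_length.comp snd
  have hK : Primrec (fun x : (ℕ × ℕ) × Pos => pK x.2) := fst.comp (snd.comp snd)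
  have hE : Primrec (fun x : (ℕ × ℕ) × Pos => pE x.2) := fst.comp snd
  have hF : Primrec (fun x : (ℕ × ℕ) × Pos => pF x.2) :=
    snd.comp (snd.comp (snd.comp (snd.comp snd)))
  have hb : Primrec (fun x : (ℕ × ℕ) × Pos => pb x.2) :=
    fst.comp (snd.comp (snd.comp (snd.comp snd)))
  have h1 : PrimrecPred (fun x : (ℕ × ℕ) × Pos =>
      ∀ z ∈ pK x.2, x.1.1 < z.length ∧ z.length ≤ x.1.2 ∧ 4 * cnt (pK x.2) z.length ≤ 2 ^ z.length) := by
    refine pa_forall_mem (p := fun (x : (ℕ × ℕ) × Pos) (z : Str) =>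
      x.1.1 < z.length ∧ z.length ≤ x.1.2 ∧ 4 * cnt (pK x.2) z.length ≤ 2 ^ z.length) hK ?_
    have a1 : PrimrecPred (fun y : ((ℕ × ℕ) × Pos) × Str => y.1.1.1 < y.2.length) :=
      nat_lt.comp (fst.comp (fst.comp fst)) hlen
    have a2 : PrimrecPred (fun y : ((ℕ × ℕ) × Pos) × Str => y.2.length ≤ y.1.1.2) :=
      nat_le.comp hlen (snd.comp (fst.comp fst))
    have a3 : PrimrecPred (fun y : ((ℕ × ℕ) × Pos) × Str =>
        4 * cnt (pK y.1.2) y.2.length ≤ 2 ^ y.2.length) :=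
      nat_le.comp (nat_mul.comp (const 4) (prim_cnt.comp (hK.comp fst) hlen))
        (nat_pow.comp (const 2) hlen)
    exact a1.and (a2.and a3)
  have h2 : PrimrecPred (fun x : (ℕ × ℕ) × Pos =>
      evalF x.1.2 ((pF x.2).getD []) (pE x.2 ++ pK x.2) ≠ pb x.2) := by
    have a1 : Primrec (fun x : (ℕ × ℕ) × Pos => (pF x.2).getD []) :=
      option_getD.comp hF (const [])
    have a2 : Primrec (fun x : (ℕ × ℕ) × Pos => pE x.2 ++ pK x.2) := list_append.comp hE hK
    have a3 : Primrec (fun x : (ℕ × ℕ) × Pos =>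
        evalF x.1.2 ((pF x.2).getD []) (pE x.2 ++ pK x.2)) :=
      prim_evalF.comp ((snd.comp fst).pair (a1.pair a2))
    exact (Primrec.eq.comp a3 hb).not
  have h3 : PrimrecPred (fun x : (ℕ × ℕ) × Pos => pF x.2 = none) :=
    Primrec.eq.comp hF (const none)
  refine (h1.and (h3.or h2)).of_eq fun x => ?_
  unfold OK
  apply and_congr Iff.rfl
  rcases h : pF x.2 with _ | F
  · simp
  · simp

theorem prim_Safe : PrimrecPred (fun x : Par => Safe (pn1 x) (pn2 x) (pT x) (pG x)) := by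
  have hn1 : Primrec (fun x : Par => pn1 x) := fst
  have hn2 : Primrec (fun x : Par => pn2 x) := fst.comp snd
  have hT : Primrec (fun x : Par => pT x) := fst.comp (snd.comp (snd.comp (snd.comp snd)))
  have hG : Primrec (fun x : Par => pG x) := snd.comp (snd.comp (snd.comp (snd.comp snd)))
  -- the others move
  have m1 : PrimrecPred (fun y : (Par × Pos) × Str =>
      ∃ Q ∈ pG y.1.1, Reply (pT y.1.1) (addE y.2 y.1.2) Q) := by
    refine pa_exists_mem (p := fun (y : (Par × Pos) × Str) (Q : Pos) =>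
      Reply (pT y.1.1) (addE y.2 y.1.2) Q) (hG.comp (fst.comp fst)) ?_
    have a1 : Primrec (fun z : ((Par × Pos) × Str) × Pos => addE z.1.2 z.1.1.2) :=
      prim_addE.comp (snd.comp fst) (snd.comp (fst.comp fst))
    exact prim_Reply.comp ((hT.comp (fst.comp (fst.comp fst))).pair (a1.pair snd))
  have m2 : PrimrecPred (fun y : (Par × Pos) × Str =>
      OppKill (pn1 y.1.1) (pn2 y.1.1) (pE y.1.2) y.2) :=
    prim_OppKill.comp (((hn1.comp (fst.comp fst)).pair (hn2.comp (fst.comp fst))).pair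
      ((fst.comp (snd.comp fst)).pair snd))
  have m3 : PrimrecPred (fun y : Par × Pos => ∀ x ∈ upTo (pn2 y.1),
      OppKill (pn1 y.1) (pn2 y.1) (pE y.2) x → ∃ Q ∈ pG y.1, Reply (pT y.1) (addE x y.2) Q) :=
    pa_forall_mem (p := fun (y : Par × Pos) (x : Str) =>
      OppKill (pn1 y.1) (pn2 y.1) (pE y.2) x → ∃ Q ∈ pG y.1, Reply (pT y.1) (addE x y.2) Q)
      (prim_upTo.comp (hn2.comp fst)) (pa_imp m2 m1)
  -- the function becomes known
  have k1 : PrimrecPred (fun y : (Par × Pos) × List Bool =>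
      ∃ Q ∈ pG y.1.1, Reply (pT y.1.1) (setF y.2 y.1.2) Q) := by
    refine pa_exists_mem (p := fun (y : (Par × Pos) × List Bool) (Q : Pos) =>
      Reply (pT y.1.1) (setF y.2 y.1.2) Q) (hG.comp (fst.comp fst)) ?_
    have a1 : Primrec (fun z : ((Par × Pos) × List Bool) × Pos => setF z.1.2 z.1.1.2) :=
      prim_setF.comp (snd.comp fst) (snd.comp (fst.comp fst))
    exact prim_Reply.comp ((hT.comp (fst.comp (fst.comp fst))).pair (a1.pair snd))
  have k2 : Primrec (fun y : Par × Pos => allL (2 ^ (upTo (pn2 y.1)).length)) :=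
    prim_allL.comp (nat_pow.comp (const 2)
      (list_length.comp (prim_upTo.comp (hn2.comp fst))))
  have k3 : PrimrecPred (fun y : Par × Pos => ∀ F ∈ allL (2 ^ (upTo (pn2 y.1)).length),
      ∃ Q ∈ pG y.1, Reply (pT y.1) (setF F y.2) Q) :=
    pa_forall_mem (p := fun (y : Par × Pos) (F : List Bool) =>
      ∃ Q ∈ pG y.1, Reply (pT y.1) (setF F y.2) Q) k2 k1
  have k4 : PrimrecPred (fun y : Par × Pos => pF y.2 = none) :=
    Primrec.eq.comp (snd.comp (snd.comp (snd.comp (snd.comp snd)))) (const none)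
  have o1 : PrimrecPred (fun y : Par × Pos => OK (pn1 y.1) (pn2 y.1) y.2) :=
    prim_OK.comp (((hn1.comp fst).pair (hn2.comp fst)).pair snd)
  have s1 : PrimrecPred (fun x : Par => ∀ P ∈ pG x, OK (pn1 x) (pn2 x) P ∧
    (∀ z ∈ upTo (pn2 x), OppKill (pn1 x) (pn2 x) (pE P) z →
      ∃ Q ∈ pG x, Reply (pT x) (addE z P) Q) ∧
    (pF P = none → ∀ F ∈ allL (2 ^ (upTo (pn2 x)).length),
      ∃ Q ∈ pG x, Reply (pT x) (setF F P) Q)) :=
    pa_forall_mem (p := fun (x : Par) (P : Pos) => OK (pn1 x) (pn2 x) P ∧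
      (∀ z ∈ upTo (pn2 x), OppKill (pn1 x) (pn2 x) (pE P) z →
        ∃ Q ∈ pG x, Reply (pT x) (addE z P) Q) ∧
      (pF P = none → ∀ F ∈ allL (2 ^ (upTo (pn2 x)).length),
        ∃ Q ∈ pG x, Reply (pT x) (setF F P) Q)) hG (o1.and (m3.and (pa_imp k4 k3)))
  have s0 : PrimrecPred (fun x : Par => P0 ∈ pG x) := pa_mem (const P0) hG
  exact (s0.and s1).of_eq fun x => Iff.rfl

theorem prim_Good : PrimrecRel Good := by
  have hn1 : Primrec (fun x : ℕ × Par => pn1 x.2) := fst.comp snd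
  have hn2 : Primrec (fun x : ℕ × Par => pn2 x.2) := fst.comp (snd.comp snd)
  have hn3 : Primrec (fun x : ℕ × Par => pn3 x.2) := fst.comp (snd.comp (snd.comp snd))
  have hm : Primrec (fun x : ℕ × Par => pm x.2) :=
    fst.comp (snd.comp (snd.comp (snd.comp snd)))
  have hT : Primrec (fun x : ℕ × Par => pT x.2) :=
    fst.comp (snd.comp (snd.comp (snd.comp (snd.comp snd))))
  have hbnd : Primrec (fun x : ℕ × Par => bnd x.1 (pm x.2)) := prim_bnd.comp fst hm
  have g1 : PrimrecPred (fun x : ℕ × Par => pn1 x.2 < pm x.2) := nat_lt.comp hn1 hm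
  have g2 : PrimrecPred (fun x : ℕ × Par => pm x.2 ≤ pn3 x.2) := nat_le.comp hm hn3
  have g3 : PrimrecPred (fun x : ℕ × Par => pn1 x.2 < pn2 x.2) := nat_lt.comp hn1 hn2
  have g4 : PrimrecPred (fun x : ℕ × Par => pn2 x.2 ≤ pn3 x.2) := nat_le.comp hn2 hn3
  have g5 : PrimrecPred (fun x : ℕ × Par => bnd x.1 (pm x.2) ≤ pn3 x.2) := nat_le.comp hbnd hn3
  have g6 : PrimrecPred (fun x : ℕ × Par => 0 < pT x.2) := nat_lt.comp (const 0) hT
  have g7 : PrimrecPred (fun x : ℕ × Par => pT x.2 ≤ 2 ^ pm x.2) :=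
    nat_le.comp hT (nat_pow.comp (const 2) hm)
  have g8 : PrimrecPred (fun x : ℕ × Par =>
      4 * (pT x.2 * bnd x.1 (pm x.2)) ≤ 2 ^ (pn2 x.2 + 1)) :=
    nat_le.comp (nat_mul.comp (const 4) (nat_mul.comp hT hbnd))
      (nat_pow.comp (const 2) (nat_add.comp hn2 (const 1)))
  have g9 : PrimrecPred (fun x : ℕ × Par => Safe (pn1 x.2) (pn2 x.2) (pT x.2) (pG x.2)) :=
    prim_Safe.comp snd
  exact (g1.and (g2.and (g3.and (g4.and (g5.and (g6.and (g7.and (g8.and g9)))))))).of_eq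
    fun x => Iff.rfl

end Pool.Agent.H861R3.NT
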