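import Pool.Agent.H861R3.NT.InvC
import Pool.Agent.H861R3.NT.InvD
import Pool.Agent.H861R3.NT.FinG
import Pool.Agent.H861R3.NT.Num
import Pool.Agent.H861R3.NT.Choice
import Pool.Agent.H861R3.NT.PrimA

/-! # Existence of a computable sequence of good parameters -/

namespace Pool.Agent.H861R3.NT

open Pool.Agent.H544R2

theorem exists_good (i n : ℕ) : ∃ a : Par, Good i a ∧ pn1 a = n := by
  obtain ⟨a, ha, hb⟩ := exists_width i n
  have hT : 0 < gT n a := by unfold gT; positivity
  have h2a : 2 ≤ 2 ^ a := by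
    calc 2 = 2 ^ 1 := by norm_num
      _ ≤ 2 ^ a := Nat.pow_le_pow_right (by norm_num) ha
  have hgn : gn2 n a + 1 = n + 2 ^ a := by unfold gn2; omega
  obtain ⟨G, hG⟩ := exists_safe_list (n1 := n) (n2 := gn2 n a) hT {P | Inv n a P} (Inv_init n a)
    (by
      intro P hP
      have hP' : Inv n a P := hP
      refine ⟨Inv.ok ha hP', ?_, ?_⟩
      · intro x hx
        rcases hP'.2 with hw | hw
        · exact kill_waiting hP'.1 hw hx
        · rcases Nat.lt_or_ge n x.length with h | h
          · exact kill_window ha hP'.1 hw hx h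
          · exact kill_low ha hP'.1 hw hx h
      · intro hF F
        rcases hP'.2 with hw | hw
        · exact reveal_waiting hP'.1 hw F
        · obtain ⟨F', E0, K0, w, r, r', h1, _⟩ := hw
          rw [hF] at h1
          exact absurd h1 (by simp))
  refine ⟨(n, gn2 n a, gn2 n a + (4 * a + 2 * n + 10) + bnd i (4 * a + 2 * n + 10),
    4 * a + 2 * n + 10, gT n a, G), ⟨?_, ?_, ?_, ?_, ?_, hT, ?_, ?_, hG⟩, rfl⟩
  · change n < 4 * a + 2 * n + 10
    omega
  · change 4 * a + 2 * n + 10 ≤ gn2 n a + (4 * a + 2 * n + 10) + bnd i (4 * a + 2 * n + 10)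
    omega
  · change n < gn2 n a
    omega
  · change gn2 n a ≤ gn2 n a + (4 * a + 2 * n + 10) + bnd i (4 * a + 2 * n + 10)
    omega
  · change bnd i (4 * a + 2 * n + 10) ≤ gn2 n a + (4 * a + 2 * n + 10) + bnd i (4 * a + 2 * n + 10)
    omega
  · exact le_of_eq rfl
  · change 4 * (gT n a * bnd i (4 * a + 2 * n + 10)) ≤ 2 ^ (gn2 n a + 1)
    rw [hgn]
    exact hb

theorem exists_goodSeq : ∃ pr : ℕ → Par, Computable pr ∧ GoodSeq pr := by
  have hR : PrimrecRel (fun (x : ℕ × ℕ) (a : Par) => Good x.1 a ∧ pn1 a = x.2) := by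
    have h1 : PrimrecPred (fun p : (ℕ × ℕ) × Par => Good p.1.1 p.2) :=
      prim_Good.comp (Primrec.fst.comp Primrec.fst) Primrec.snd
    have h2 : PrimrecPred (fun p : (ℕ × ℕ) × Par => pn1 p.2 = p.1.2) :=
      Primrec.eq.comp (Primrec.fst.comp Primrec.snd) (Primrec.snd.comp Primrec.fst)
    exact h1.and h2
  obtain ⟨g, hg, hgR⟩ := exists_choice hR (fun x => exists_good x.1 x.2)
  let pr : ℕ → Par := fun n => Nat.rec (motive := fun _ => Par) (g (0, 2))
    (fun y IH => g (y + 1, pn3 IH)) n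
  have hpr : Computable pr := by
    have h3 : Computable₂ (fun (_ : ℕ) (p : ℕ × Par) => g (p.1 + 1, pn3 p.2)) := by
      refine hg.comp ?_
      refine Computable.pair (Computable.succ.comp (Computable.fst.comp Computable.snd)) ?_
      exact Computable.fst.comp (Computable.snd.comp (Computable.snd.comp (Computable.snd.comp Computable.snd)))
    exact Computable.nat_rec Computable.id (Computable.const (g (0, 2))) h3
  have h0 : pr 0 = g (0, 2) := rfl
  have hs : ∀ i, pr (i + 1) = g (i + 1, pn3 (pr i)) := fun i => rfl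
  refine ⟨pr, hpr, ?_, ?_⟩
  · rw [h0, (hgR (0, 2)).2]
  · intro i
    refine ⟨?_, ?_⟩
    · cases i with
      | zero => rw [h0]; exact (hgR (0, 2)).1
      | succ i => rw [hs]; exact (hgR (i + 1, pn3 (pr i))).1
    · rw [hs]
      exact (hgR (i + 1, pn3 (pr i))).2

end Pool.Agent.H861R3.NT
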