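import Pool.Agent.H861R3.NT.PrimB
import Pool.Agent.H861R3.NT.Choice

/-! # The run is computable -/

namespace Pool.Agent.H861R3.NT

open Pool.Agent.H544R2
open Nat.Partrec (Code)

private def stepU (x : List Par × ℕ × List SS) : List SS := step x.1 x.2.1 x.2.2

private theorem comp_stepU : Computable stepU := prim_step.to_comp

private theorem comp_stepU' {α : Type} [Primcodable α] {l : α → List Par} {s : α → ℕ}
    {st : α → List SS} (hl : Computable l) (hs : Computable s) (hst : Computable st) :
    Computable (fun x => stepU (l x, s x, st x)) :=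
  Computable.comp comp_stepU (Computable.pair hl (Computable.pair hs hst))

private theorem comp_step' {α : Type} [Primcodable α] {l : α → List Par} {s : α → ℕ}
    {st : α → List SS} (hl : Computable l) (hs : Computable s) (hst : Computable st) :
    Computable (fun x => step (l x) (s x) (st x)) := comp_stepU' hl hs hst

theorem comp_run {pr : ℕ → Par} (h : Computable pr) : Computable (run pr) := by
  have h1 : Computable₂ (fun (_ : ℕ) (y : ℕ × List SS) =>
      step ((List.range y.1).map pr) y.1 y.2) :=
    comp_step' (α := ℕ × ℕ × List SS) (l := fun y => (List.range y.2.1).map pr)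
      (s := fun y => y.2.1) (st := fun y => y.2.2)
      ((comp_map_range h).comp (Computable.fst.comp Computable.snd))
      (Computable.fst.comp Computable.snd) (Computable.snd.comp Computable.snd)
  refine (Computable.nat_rec Computable.id (Computable.const ([] : List SS)) h1).of_eq fun s => ?_
  induction s with
  | zero => rfl
  | succ s ih =>
    simp only [id_eq] at ih ⊢
    rw [run, ← ih]

private theorem comp_kills : Primrec kills := by
  unfold kills
  exact Primrec.list_append.comp (Primrec.fst.comp (Primrec.snd.comp Primrec.fst)) Primrec.snd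

theorem comp_Akill {pr : ℕ → Par} (h : Computable pr) : Computable (Akill pr) := by
  have h1 : Primrec (fun l : List SS => l.flatMap kills) :=
    Primrec.list_flatMap Primrec.id (comp_kills.comp Primrec.snd)
  exact h1.to_comp.comp (comp_run h)

theorem re_Wset {pr : ℕ → Par} (h : Computable pr) : REPred (fun w => w ∈ Wset pr) := by
  classical
  -- state of the requirement `i` at stage `s`, coded by `n = pair s i`
  have hpos : Computable (fun n : ℕ => pos pr n.unpair.2 n.unpair.1) := by
    have h1 : Primrec₂ (fun (l : List SS) (i : ℕ) => l.getD i (P0, [])) :=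
      Primrec.list_getD (P0, [])
    exact h1.to_comp.comp ((comp_run h).comp (Computable.fst.comp Primrec.unpair.to_comp))
      (Computable.snd.comp Primrec.unpair.to_comp)
  let str : ℕ → Str := fun n => fb (pm (pr n.unpair.2)) (pt (pos pr n.unpair.2 n.unpair.1).1)
  have hstr : Computable str := by
    refine prim_fb.to_comp.comp ?_ ?_
    · have h1 : Primrec (fun a : Par => pm a) :=
        Primrec.fst.comp (Primrec.snd.comp (Primrec.snd.comp Primrec.snd))
      exact h1.to_comp.comp (h.comp (Computable.snd.comp Primrec.unpair.to_comp))
    · have h1 : Primrec (fun a : SS => pt a.1) :=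
        Primrec.fst.comp (Primrec.snd.comp (Primrec.snd.comp Primrec.fst))
      exact h1.to_comp.comp hpos
  let Q : Str → ℕ → Bool := fun w n =>
    decide (n.unpair.2 < n.unpair.1) && (pb (pos pr n.unpair.2 n.unpair.1).1 && decide (w = str n))
  have hQ : Computable₂ Q := by
    have h1 : Computable (fun x : Str × ℕ => decide (x.2.unpair.2 < x.2.unpair.1)) := by
      have h2 : Primrec (fun n : ℕ => decide (n.unpair.2 < n.unpair.1)) :=
        PrimrecPred.decide (Primrec.nat_lt.comp (Primrec.snd.comp Primrec.unpair)
          (Primrec.fst.comp Primrec.unpair))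
      exact h2.to_comp.comp Computable.snd
    have h2 : Computable (fun x : Str × ℕ => pb (pos pr x.2.unpair.2 x.2.unpair.1).1) := by
      have h3 : Primrec (fun a : SS => pb a.1) :=
        Primrec.fst.comp (Primrec.snd.comp (Primrec.snd.comp (Primrec.snd.comp Primrec.fst)))
      exact h3.to_comp.comp (hpos.comp Computable.snd)
    have h3 : Computable (fun x : Str × ℕ => decide (x.1 = str x.2)) := by
      have h4 : Primrec₂ (fun (a b : Str) => decide (a = b)) :=
        PrimrecRel.decide Primrec.eq
      exact h4.to_comp.comp Computable.fst (hstr.comp Computable.snd)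
    have h5 : Computable₂ (fun (a b : Bool) => a && b) := Primrec.and.to_comp
    exact h5.comp h1 (h5.comp h2 h3)
  have h1 : Partrec (fun w : Str => Nat.rfind (fun k => (Part.some (Q w k) : Part Bool))) :=
    Partrec.rfind hQ.partrec₂
  refine (h1.dom_re).of_eq fun w => ?_
  refine Iff.trans Nat.rfind_dom ?_
  constructor
  · rintro ⟨k, hk, _⟩
    simp only [Part.mem_some_iff] at hk
    have hk' : Q w k = true := hk.symm
    simp only [Q, Bool.and_eq_true, decide_eq_true_eq] at hk'
    exact ⟨k.unpair.1, k.unpair.2, hk'.1, hk'.2.1, hk'.2.2⟩
  · rintro ⟨s, i, hi, hb, hw⟩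
    refine ⟨Nat.pair s i, ?_, fun _ => trivial⟩
    rw [Part.mem_some_iff]
    simp only [Q, str, Nat.unpair_pair]
    rw [hb, decide_eq_true hi, decide_eq_true hw]
    rfl

end Pool.Agent.H861R3.NT
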