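import Pool.Agent.H861R3.NT.Lim
import Pool.Agent.H861R3.NT.Params
import Pool.Agent.H861R3.NT.Run

/-! # The negative half -/

namespace Pool.Agent.H861R3.NT

open Pool.Agent.H544R2
open Nat.Partrec (Code)

private theorem pairStr_inj : ∀ (u u' w w' : List Bool), pairStr u w = pairStr u' w' →
    u = u' ∧ w = w' := by
  intro u
  induction u with
  | nil =>
    intro u' w w' h
    cases u' with
    | nil =>
      simp only [pairStr, List.flatMap_nil, List.nil_append, List.cons.injEq, true_and] at h
      exact ⟨rfl, h⟩
    | cons b u' =>
      simp [pairStr] at h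
  | cons b u ih =>
    intro u' w w' h
    cases u' with
    | nil => simp [pairStr] at h
    | cons b' u' =>
      have h' : true :: b :: pairStr u w = true :: b' :: pairStr u' w' := by
        simpa [pairStr] using h
      simp only [List.cons.injEq, true_and] at h'
      obtain ⟨h1, h2⟩ := ih u' w w' h'.2
      exact ⟨by rw [h'.1, h1], h2⟩

private theorem length_pairStr (u w : List Bool) :
    (pairStr u w).length = w.length + (2 * u.length + 1) := by
  induction u with
  | nil => simp [pairStr]
  | cons b u ih =>
    have : pairStr (b :: u) w = true :: b :: pairStr u w := by simp [pairStr]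
    rw [this]
    simp only [List.length_cons, ih]
    omega

/-- a recursively enumerable set which is reducible to the halting problem -/
theorem red_of_HALT {W R : Set Str} (hW : REPred (fun w => w ∈ W)) (h : ∃ f, RedBy f HALT R) :
    ∃ f, RedBy f W R := by
  obtain ⟨f, hf, ⟨p, hp⟩, hfR⟩ := h
  obtain ⟨c, hc⟩ := Code.exists_code.1 hW
  have hdom : ∀ w : Str, (c.eval (Encodable.encode w)).Dom ↔ w ∈ W := by
    intro w
    rw [hc]
    simp [Part.assert]
  set u : Str := Nat.bits (Encodable.encode c) with hu
  have hg : ∀ w : Str, w ∈ W ↔ pairStr u w ∈ HALT := by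
    intro w
    constructor
    · intro hw
      exact ⟨c, w, rfl, (hdom w).2 hw⟩
    · rintro ⟨c', w', h1, h2⟩
      obtain ⟨h3, h4⟩ := pairStr_inj _ _ _ _ h1
      have h5 : Encodable.encode c = Encodable.encode c' := by
        have := congrArg NPC.valB h3
        rwa [hu, NPC.valB_bits, NPC.valB_bits] at this
      have h6 : c = c' := Encodable.encode_injective h5
      subst h6
      subst h4
      exact (hdom w).1 h2
  refine ⟨fun w => f (pairStr u w), ?_, ⟨p.comp (Polynomial.X + Polynomial.C (2 * u.length + 1)),
    ?_⟩, ?_⟩
  · exact hf.comp ((prim_pairStr.comp (Primrec.const u) Primrec.id).to_comp)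
  · intro w
    have h1 := hp (pairStr u w)
    rw [length_pairStr] at h1
    rw [Polynomial.eval_comp, Polynomial.eval_add, Polynomial.eval_X, Polynomial.eval_C]
    exact h1
  · intro w
    rw [hg w]
    exact hfR _

/-- There is a universal machine such that the halting problem is not reducible to its random
strings by a computable function with values truth tables with polynomially many queries of
polynomial length. -/
theorem main : ∃ U : List Bool →. List Bool, IsUniversal U ∧
    ¬ ∃ f, RedBy f HALT (randomStrings U) := by
  obtain ⟨pr, hc, hg⟩ := exists_goodSeq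
  obtain ⟨U, hU, hR⟩ := exists_machine (comp_Akill hc) Akill_mono (Akill_few hg)
  exact ⟨U, hU, fun h => not_red hg hR (red_of_HALT (re_Wset hc) h)⟩

end Pool.Agent.H861R3.NT
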