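import Pool.Agent.H861R3.NT.Defs
import Pool.Agent.H544R2.Halt

/-!
# The standard halting set

Every recursively enumerable set is many-one reducible to the set of the numbers `e` (in binary)
such that the program with number `e` halts on `e`, by a computable function which increases the
length at most polynomially.  The constants are given by codes of polynomial length (balanced
trees).
-/

namespace Pool.Agent.H861R3.NT

open Pool.Agent.H544R2
open Pool.Agent.NPC (valB)
open Nat.Partrec (Code)

/-- The standard halting set: the numbers `e`, in binary, such that the program with the number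
`e` halts on the input `e`. -/
def KHALT : Set Str := {x | ∃ e : ℕ, x = Nat.bits e ∧ ((Denumerable.ofNat Code e).eval e).Dom}

namespace KHalt

theorem bits_inj {m n : ℕ} (h : Nat.bits m = Nat.bits n) : m = n := by
  rw [← Pool.Agent.NPC.valB_bits m, h, Pool.Agent.NPC.valB_bits]

theorem mem_KHALT (c : Code) :
    Nat.bits (Encodable.encode c) ∈ KHALT ↔ (c.eval (Encodable.encode c)).Dom := by
  constructor
  · rintro ⟨e, h1, h2⟩
    have h3 := bits_inj h1
    rw [← h3, Denumerable.ofNat_encode] at h2
    exact h2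
  · intro h
    refine ⟨Encodable.encode c, rfl, ?_⟩
    rw [Denumerable.ofNat_encode]
    exact h

/-- the function computed at an inner node -/
def mf (n : ℕ) : ℕ :=
  Nat.pair (n.unpair.1.unpair.1 * 2 ^ 2 ^ n.unpair.1.unpair.2 + n.unpair.2.unpair.1)
    (n.unpair.1.unpair.2 + 1)

theorem prim_mf : Primrec mf := by
  have h1 : Primrec (fun n : ℕ => n.unpair.1.unpair) :=
    Primrec.unpair.comp (Primrec.fst.comp Primrec.unpair)
  have h2 : Primrec (fun n : ℕ => n.unpair.2.unpair) :=
    Primrec.unpair.comp (Primrec.snd.comp Primrec.unpair)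
  have h3 : Primrec (fun n : ℕ => 2 ^ 2 ^ n.unpair.1.unpair.2) :=
    nat_pow.comp (Primrec.const 2) (nat_pow.comp (Primrec.const 2) (Primrec.snd.comp h1))
  exact Primrec₂.natPair.comp
    (Primrec.nat_add.comp (Primrec.nat_mul.comp (Primrec.fst.comp h1) h3) (Primrec.fst.comp h2))
    (Primrec.succ.comp (Primrec.snd.comp h1))

theorem exists_M : ∃ M : Code, ∀ n, M.eval n = Part.some (mf n) := by
  have h1 : Nat.Partrec (fun n => Part.some (mf n)) :=
    Partrec.nat_iff.1 prim_mf.to_comp.partrec
  obtain ⟨M, hM⟩ := Code.exists_code.1 h1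
  exact ⟨M, fun n => by rw [hM]⟩

/-- the table of the codes for the numbers below `2 ^ 2 ^ d` -/
def tab (M : Code) : ℕ → List Code
  | 0 => [Code.pair (Code.const 0) (Code.const 0), Code.pair (Code.const 1) (Code.const 0)]
  | d + 1 => (List.range (2 ^ 2 ^ (d + 1))).map (fun n =>
      Code.comp M (Code.pair ((tab M d).getD (n / 2 ^ 2 ^ d) Code.zero)
        ((tab M d).getD (n % 2 ^ 2 ^ d) Code.zero)))

theorem tab_getD (M : Code) (d n : ℕ) (hn : n < 2 ^ 2 ^ (d + 1)) :
    (tab M (d + 1)).getD n Code.zero =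
      Code.comp M (Code.pair ((tab M d).getD (n / 2 ^ 2 ^ d) Code.zero)
        ((tab M d).getD (n % 2 ^ 2 ^ d) Code.zero)) := by
  rw [tab, List.getD_eq_getElem?_getD, List.getElem?_map, List.getElem?_range hn]
  rfl

theorem div_lt {d n : ℕ} (hn : n < 2 ^ 2 ^ (d + 1)) : n / 2 ^ 2 ^ d < 2 ^ 2 ^ d := by
  rw [Nat.div_lt_iff_lt_mul (by positivity), ← pow_add]
  rwa [pow_succ, mul_two] at hn

theorem eval_tab {M : Code} (hM : ∀ n, M.eval n = Part.some (mf n)) (d : ℕ) :
    ∀ n, n < 2 ^ 2 ^ d → ∀ x, ((tab M d).getD n Code.zero).eval x = Part.some (Nat.pair n d) := by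
  induction d with
  | zero =>
    intro n hn x
    have h : n = 0 ∨ n = 1 := by
      norm_num at hn
      omega
    rcases h with rfl | rfl
    · simp only [tab, List.getD_cons_zero, Code.eval, Code.eval_const]
      simp [Seq.seq]
    · simp only [tab, List.getD_cons_succ, List.getD_cons_zero, Code.eval, Code.eval_const]
      simp [Seq.seq]
  | succ d ih =>
    intro n hn x
    rw [tab_getD M d n hn]
    have h1 := ih (n / 2 ^ 2 ^ d) (div_lt hn) x
    have h2 := ih (n % 2 ^ 2 ^ d) (Nat.mod_lt _ (by positivity)) x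
    simp only [Code.eval, h1, h2]
    have h3 : (Nat.pair <$> Part.some (Nat.pair (n / 2 ^ 2 ^ d) d) <*>
        Part.some (Nat.pair (n % 2 ^ 2 ^ d) d) : Part ℕ) =
        Part.some (Nat.pair (Nat.pair (n / 2 ^ 2 ^ d) d) (Nat.pair (n % 2 ^ 2 ^ d) d)) := by
      simp [Seq.seq]
    rw [h3]
    refine (Part.bind_some _ _).trans ?_
    rw [hM, mf]
    simp only [Nat.unpair_pair]
    rw [Nat.div_add_mod']

theorem encode_pair_lt {f g : Code} {s : ℕ} (hf : Encodable.encode f < 2 ^ s)
    (hg : Encodable.encode g < 2 ^ s) :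
    Encodable.encode (Code.pair f g) < 2 ^ (2 * s + 4) ∧
      Encodable.encode (Code.comp f g) < 2 ^ (2 * s + 4) := by
  have h1 : Nat.pair (Encodable.encode f) (Encodable.encode g) < 2 ^ (2 * s) := by
    have h := Nat.pair_lt_max_add_one_sq (Encodable.encode f) (Encodable.encode g)
    have h2 : max (Encodable.encode f) (Encodable.encode g) + 1 ≤ 2 ^ s := by
      rw [Nat.succ_le_iff]
      exact max_lt hf hg
    calc _ < (max (Encodable.encode f) (Encodable.encode g) + 1) ^ 2 := h
      _ ≤ (2 ^ s) ^ 2 := Nat.pow_le_pow_left h2 2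
      _ = 2 ^ (2 * s) := by rw [← pow_mul, mul_comm]
  have h3 : (2 : ℕ) ^ (2 * s + 4) = 16 * 2 ^ (2 * s) := by ring
  have h4 : 0 < 2 ^ (2 * s) := by positivity
  constructor
  · have : Encodable.encode (Code.pair f g) =
        2 * (2 * Nat.pair (Encodable.encode f) (Encodable.encode g)) + 4 := rfl
    omega
  · have : Encodable.encode (Code.comp f g) =
        2 * (2 * Nat.pair (Encodable.encode f) (Encodable.encode g) + 1) + 4 := rfl
    omega

theorem tab_lt {M : Code} {k c0 : ℕ} (hM : Encodable.encode M < 2 ^ k)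
    (h0 : ∀ n < 2, Encodable.encode ((tab M 0).getD n Code.zero) < 2 ^ c0) (d : ℕ) :
    ∃ s, s + (12 + 2 * k) ≤ 4 ^ d * (c0 + (12 + 2 * k)) ∧
      ∀ n, n < 2 ^ 2 ^ d → Encodable.encode ((tab M d).getD n Code.zero) < 2 ^ s := by
  induction d with
  | zero =>
    refine ⟨c0, by simp, fun n hn => h0 n (by simpa using hn)⟩
  | succ d ih =>
    obtain ⟨s, hs, h⟩ := ih
    refine ⟨2 * (2 * s + 4 + k) + 4, ?_, fun n hn => ?_⟩
    · rw [pow_succ]
      have : 4 ^ d * 4 * (c0 + (12 + 2 * k)) = 4 * (4 ^ d * (c0 + (12 + 2 * k))) := by ring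
      rw [this]
      omega
    · rw [tab_getD M d n hn]
      have h1 := h (n / 2 ^ 2 ^ d) (div_lt hn)
      have h2 := h (n % 2 ^ 2 ^ d) (Nat.mod_lt _ (by positivity))
      refine (encode_pair_lt ?_ ?_).2
      · exact hM.trans_le (Nat.pow_le_pow_right (by norm_num) (by omega))
      · exact (encode_pair_lt h1 h2).1.trans_le (Nat.pow_le_pow_right (by norm_num) (by omega))

theorem prim_tab (M : Code) : Primrec (tab M) := by
  have hstep : Primrec₂ (fun (d : ℕ) (l : List Code) =>
      (List.range (2 ^ 2 ^ (d + 1))).map (fun n =>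
        Code.comp M (Code.pair (l.getD (n / 2 ^ 2 ^ d) Code.zero)
          (l.getD (n % 2 ^ 2 ^ d) Code.zero)))) := by
    refine Primrec.list_map (Primrec.list_range.comp (nat_pow.comp (Primrec.const 2)
      (nat_pow.comp (Primrec.const 2) (Primrec.succ.comp Primrec.fst)))) ?_
    have hp : Primrec (fun x : (ℕ × List Code) × ℕ => 2 ^ 2 ^ x.1.1) :=
      nat_pow.comp (Primrec.const 2) (nat_pow.comp (Primrec.const 2)
        (Primrec.fst.comp Primrec.fst))
    have h1 : Primrec (fun x : (ℕ × List Code) × ℕ => x.1.2.getD (x.2 / 2 ^ 2 ^ x.1.1) Code.zero) :=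
      (Primrec.list_getD Code.zero).comp (Primrec.snd.comp Primrec.fst)
        (Primrec.nat_div.comp Primrec.snd hp)
    have h2 : Primrec (fun x : (ℕ × List Code) × ℕ => x.1.2.getD (x.2 % 2 ^ 2 ^ x.1.1) Code.zero) :=
      (Primrec.list_getD Code.zero).comp (Primrec.snd.comp Primrec.fst)
        (Primrec.nat_mod.comp Primrec.snd hp)
    exact Code.primrec₂_comp.comp (Primrec.const M) (Code.primrec₂_pair.comp h1 h2)
  refine (Primrec.nat_rec₁ ([Code.pair (Code.const 0) (Code.const 0),
    Code.pair (Code.const 1) (Code.const 0)] : List Code) hstep).of_eq fun d => ?_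
  induction d with
  | zero => rfl
  | succ d ih =>
    rw [tab, ← ih]

theorem eval_mono (p : Polynomial ℕ) {m n : ℕ} (h : m ≤ n) : p.eval m ≤ p.eval n := by
  induction p using Polynomial.induction_on' with
  | add p q hp hq =>
    rw [Polynomial.eval_add, Polynomial.eval_add]
    exact Nat.add_le_add hp hq
  | monomial k c =>
    rw [Polynomial.eval_monomial, Polynomial.eval_monomial]
    exact Nat.mul_le_mul_left _ (Nat.pow_le_pow_left h k)

theorem foldl_norm : ∀ (l acc : List Bool), acc ≠ [] →
    l.foldl (fun acc b => if b = false ∧ acc = [] then [] else b :: acc) acc = l.reverse ++ acc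
  | [], acc, _ => rfl
  | b :: l, acc, h => by
    rw [List.foldl_cons, if_neg (fun h' => h h'.2), foldl_norm l (b :: acc) (by simp)]
    simp

theorem normB_snoc (w : Str) : Pool.Agent.NPC.normB (w ++ [true]) = w ++ [true] := by
  rw [Pool.Agent.NPC.normB, List.reverse_append, List.reverse_singleton, List.singleton_append,
    List.foldl_cons, if_neg (by simp), foldl_norm _ _ (by simp), List.reverse_reverse]

/-- a code whose domain is a given recursively enumerable set of strings -/
theorem exists_dom {W : Set Str} (hW : REPred (fun w => w ∈ W)) :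
    ∃ c : Code, ∀ (w : Str) (d : ℕ), (c.eval (Nat.pair (valB (w ++ [true])) d)).Dom ↔ w ∈ W := by
  let dec : ℕ → Str := fun n => (Nat.bits n.unpair.1).take ((Nat.bits n.unpair.1).length - 1)
  have hdec : Computable dec := by
    have hb : Primrec (fun n : ℕ => Nat.bits n.unpair.1) :=
      prim_bits.comp (Primrec.fst.comp Primrec.unpair)
    exact (Primrec.list_take.comp (Primrec.nat_sub.comp (Primrec.list_length.comp hb)
      (Primrec.const 1)) hb).to_comp
  have h1 : Partrec (fun n : ℕ => (Part.assert (dec n ∈ W) fun _ => Part.some ()).map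
      (fun _ => (0 : ℕ))) := by
    have h2 : Partrec (fun n : ℕ => (Part.assert (dec n ∈ W) fun _ => Part.some ())) :=
      Partrec.comp hW hdec
    exact h2.map (Computable.const 0).to₂
  obtain ⟨c, hc⟩ := Code.exists_code.1 (Partrec.nat_iff.1 h1)
  refine ⟨c, fun w d => ?_⟩
  rw [hc]
  have h3 : dec (Nat.pair (valB (w ++ [true])) d) = w := by
    have h4 : Nat.bits (valB (w ++ [true])) = w ++ [true] := by
      rw [← Pool.Agent.NPC.normB_eq]
      exact normB_snoc w
    simp only [dec, Nat.unpair_pair, h4]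
    simp
  simp [Part.assert, h3]

end KHalt

open KHalt in
/-- The standard halting set is recursively enumerable. -/
theorem re_KHALT : REPred (fun x => x ∈ KHALT) := by
  classical
  have hv : Primrec (fun x : Str => valB x) := prim_valB
  have h1 : Partrec (fun x : Str => (Denumerable.ofNat Code (valB x)).eval (valB x)) :=
    Code.eval_part.comp (((Primrec.ofNat Code).comp hv).to_comp) hv.to_comp
  have hb : Primrec (fun x : Str => decide (x = Nat.bits (valB x))) :=
    (Primrec.eq.comp Primrec.id (prim_bits.comp hv)).decide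
  have h2 : Partrec (fun x : Str => bif decide (x = Nat.bits (valB x)) then
      (Denumerable.ofNat Code (valB x)).eval (valB x) else Part.none) :=
    Partrec.cond hb.to_comp h1 Partrec.none
  refine (h2.dom_re).of_eq fun x => ?_
  by_cases hx : x = Nat.bits (valB x)
  · rw [decide_eq_true hx, cond_true]
    constructor
    · intro h
      exact ⟨valB x, hx, h⟩
    · rintro ⟨e, he, h⟩
      rw [he, Pool.Agent.NPC.valB_bits]
      exact h
  · rw [decide_eq_false hx, cond_false]
    constructor
    · intro h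
      exact absurd h (by simp)
    · rintro ⟨e, he, _⟩
      exact absurd (by rw [he, Pool.Agent.NPC.valB_bits]) hx

open KHalt in
/-- The standard halting set is complete. -/
theorem red_of_K {W R : Set Str} (hW : REPred (fun w => w ∈ W)) (h : ∃ f, RedBy f KHALT R) :
    ∃ f, RedBy f W R := by
  obtain ⟨f, hf, ⟨p, hp⟩, hfR⟩ := h
  obtain ⟨cW, hcW⟩ := exists_dom hW
  obtain ⟨M, hM⟩ := exists_M
  -- the code of the constant
  let cst : Str → Code := fun w => (tab M (Nat.size (w.length + 1))).getD (valB (w ++ [true])) Code.zero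
  have hlt : ∀ w : Str, valB (w ++ [true]) < 2 ^ 2 ^ Nat.size (w.length + 1) := by
    intro w
    have h1 := Pool.Agent.NPC.valB_lt (w ++ [true])
    refine h1.trans_le (Nat.pow_le_pow_right (by norm_num) ?_)
    have h2 := Nat.lt_size_self (w.length + 1)
    simpa using h2.le
  have hcst : Primrec cst := by
    have h1 : Primrec (fun w : Str => w ++ [true]) :=
      Primrec.list_append.comp Primrec.id (Primrec.const [true])
    exact (Primrec.list_getD Code.zero).comp ((prim_tab M).comp (nat_size.comp
      (Primrec.succ.comp Primrec.list_length))) (prim_valB.comp h1)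
  let g : Str → Code := fun w => Code.comp cW (cst w)
  have hg : Primrec g := Code.primrec₂_comp.comp (Primrec.const cW) hcst
  let gs : Str → Str := fun w => Nat.bits (Encodable.encode (g w))
  have hgs : Primrec gs := prim_bits.comp (Primrec.encode.comp hg)
  have hmem : ∀ w, w ∈ W ↔ gs w ∈ KHALT := by
    intro w
    rw [mem_KHALT (g w)]
    have h1 := eval_tab hM (Nat.size (w.length + 1)) (valB (w ++ [true])) (hlt w)
      (Encodable.encode (g w))
    have h2 : (g w).eval (Encodable.encode (g w)) =
        cW.eval (Nat.pair (valB (w ++ [true])) (Nat.size (w.length + 1))) := by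
      change ((cst w).eval (Encodable.encode (g w)) >>= cW.eval) = _
      rw [show (cst w).eval (Encodable.encode (g w)) =
        Part.some (Nat.pair (valB (w ++ [true])) (Nat.size (w.length + 1))) from h1]
      exact Part.bind_some _ _
    rw [h2, hcW]
  -- the length
  obtain ⟨k, hk⟩ : ∃ k, Encodable.encode M < 2 ^ k := ⟨_, Nat.lt_two_pow_self⟩
  obtain ⟨k', hk'⟩ : ∃ k, Encodable.encode cW < 2 ^ k := ⟨_, Nat.lt_two_pow_self⟩
  obtain ⟨c0, hc0⟩ : ∃ c0, ∀ n < 2, Encodable.encode ((tab M 0).getD n Code.zero) < 2 ^ c0 := by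
    refine ⟨Encodable.encode ((tab M 0).getD 0 Code.zero) +
      Encodable.encode ((tab M 0).getD 1 Code.zero), fun n hn => ?_⟩
    have h : n = 0 ∨ n = 1 := by omega
    rcases h with rfl | rfl
    · exact Nat.lt_two_pow_self.trans_le (Nat.pow_le_pow_right (by norm_num) (by omega))
    · exact Nat.lt_two_pow_self.trans_le (Nat.pow_le_pow_right (by norm_num) (by omega))
  have hlen : ∀ w : Str, (gs w).length ≤
      2 * (4 * (w.length + 1) ^ 2 * (c0 + (12 + 2 * k)) + k') + 4 := by
    intro w
    obtain ⟨s, hs, hlts⟩ := tab_lt hk hc0 (Nat.size (w.length + 1))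
    have h1 : Encodable.encode (cst w) < 2 ^ s := hlts _ (hlt w)
    have h2 : Encodable.encode (g w) < 2 ^ (2 * (s + k') + 4) := by
      refine (encode_pair_lt ?_ ?_).2
      · exact hk'.trans_le (Nat.pow_le_pow_right (by norm_num) (by omega))
      · exact h1.trans_le (Nat.pow_le_pow_right (by norm_num) (by omega))
    have h3 : (gs w).length ≤ 2 * (s + k') + 4 := by
      have h4 : (gs w).length = Nat.size (Encodable.encode (g w)) :=
        (Nat.size_eq_bits_len _).symm ▸ rfl
      rw [h4]
      exact Nat.size_le.2 h2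
    have h5 : (4 : ℕ) ^ Nat.size (w.length + 1) ≤ 4 * (w.length + 1) ^ 2 := by
      have h6 : 2 ^ Nat.size (w.length + 1) ≤ 2 * (w.length + 1) := by
        have h7 : 0 < Nat.size (w.length + 1) := Nat.size_pos.2 (Nat.succ_pos _)
        have h8 : 2 ^ (Nat.size (w.length + 1) - 1) ≤ w.length + 1 :=
          Nat.lt_size.1 (by omega)
        calc 2 ^ Nat.size (w.length + 1) = 2 ^ (Nat.size (w.length + 1) - 1 + 1) := by
              rw [Nat.sub_add_cancel h7]
          _ = 2 * 2 ^ (Nat.size (w.length + 1) - 1) := by rw [pow_succ, mul_comm]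
          _ ≤ _ := Nat.mul_le_mul_left 2 h8
      calc (4 : ℕ) ^ Nat.size (w.length + 1) = (2 ^ Nat.size (w.length + 1)) ^ 2 := by
            rw [← pow_mul, mul_comm, pow_mul]; norm_num
        _ ≤ (2 * (w.length + 1)) ^ 2 := Nat.pow_le_pow_left h6 2
        _ = 4 * (w.length + 1) ^ 2 := by ring
    have h9 : s ≤ 4 * (w.length + 1) ^ 2 * (c0 + (12 + 2 * k)) := by
      have := Nat.mul_le_mul_right (c0 + (12 + 2 * k)) h5
      omega
    omega
  let q : Polynomial ℕ := 2 * (4 * (Polynomial.X + 1) ^ 2 * Polynomial.C (c0 + (12 + 2 * k)) +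
    Polynomial.C k') + 4
  have hq : ∀ n : ℕ, q.eval n = 2 * (4 * (n + 1) ^ 2 * (c0 + (12 + 2 * k)) + k') + 4 := by
    intro n
    simp [q]
  refine ⟨fun w => f (gs w), hf.comp hgs.to_comp, ⟨p.comp q, fun w => ?_⟩, fun w => ?_⟩
  · rw [Polynomial.eval_comp, hq]
    have h1 := hp (gs w)
    have h2 := eval_mono p (hlen w)
    exact ⟨h1.1.trans h2, fun x hx => (h1.2 x hx).trans h2⟩
  · rw [hmem w]
    exact hfR _

end Pool.Agent.H861R3.NT
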