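import Pool.Agent.H861R3.NT.Final
import Pool.Agent.H861R3.NT.Bridge
import Pool.Agent.H861R3.NT.KHalt

/-! # The negative half for polynomial-time truth-table reductions -/

namespace Pool.Agent.H861R3.NT

open Pool.Agent.H544R2
open Pool.Agent.H654R5.PT (PttReduces)

/-- There is a universal machine such that neither the set of the pairs `⟨e, x⟩` such that the
program `e` halts on `x` nor the set of the numbers `e` such that the program `e` halts on `e` is
reducible to its random strings by a computable function whose values are truth tables with
polynomially many queries of polynomial length. -/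
theorem main_both : ∃ U : List Bool →. List Bool, IsUniversal U ∧
    (¬ ∃ f, RedBy f HALT (randomStrings U)) ∧ ¬ ∃ f, RedBy f KHALT (randomStrings U) := by
  obtain ⟨pr, hc, hg⟩ := exists_goodSeq
  obtain ⟨U, hU, hR⟩ := exists_machine (comp_Akill hc) Akill_mono (Akill_few hg)
  exact ⟨U, hU, fun h => not_red hg hR (red_of_HALT (re_Wset hc) h),
    fun h => not_red hg hR (red_of_K (re_Wset hc) h)⟩

/-- There is a universal machine such that the halting problem is not polynomial-time truth-table
reducible to its random strings. -/
theorem main_ptt : ∃ U : List Bool →. List Bool, IsUniversal U ∧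
    ¬ PttReduces HALT (randomStrings U) ∧ ¬ PttReduces KHALT (randomStrings U) := by
  obtain ⟨U, hU, h1, h2⟩ := main_both
  exact ⟨U, hU, fun h => h1 (Bridge.redBy_of_ptt h), fun h => h2 (Bridge.redBy_of_ptt h)⟩

end Pool.Agent.H861R3.NT
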