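import Pool.Agent.H861R3.NT.InvDefs

/-! # The invariant: basic facts -/

namespace Pool.Agent.H861R3.NT

open Pool.Agent.H544R2

theorem gs_pos (n1 a : ℕ) : 0 < gs n1 a := by
  unfold gs
  positivity

private theorem cast_le_pow (a : ℕ) : (a : ℝ) ≤ 2 ^ a := by
  exact_mod_cast (Nat.lt_two_pow_self (n := a)).le

theorem gs_small (n1 a : ℕ) : 2 * (16 * (a : ℝ) * gs n1 a) ≤ (2 : ℝ) ^ (-(a : ℝ)) := by
  have h1 : (2 : ℝ) ^ (-(a : ℝ)) = ((2 : ℝ) ^ a)⁻¹ := by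
    rw [Real.rpow_neg (by norm_num), Real.rpow_natCast]
  rw [h1]
  unfold gs
  have h2 : (0 : ℝ) < 2 ^ a := by positivity
  have h3 : (1 : ℝ) ≤ 2 ^ n1 := one_le_pow₀ (by norm_num)
  have h4 := cast_le_pow a
  have h5 : (2 : ℝ) ^ (2 * a + n1 + 6) = 2 ^ a * (2 ^ a * 2 ^ n1 * 64) := by
    rw [pow_add, pow_add, two_mul, pow_add]
    norm_num
    ring
  rw [h5, mul_inv]
  have h6 : 0 < (2 : ℝ) ^ a * 2 ^ n1 * 64 := by positivity
  have h7 : 32 * (a : ℝ) * ((2 : ℝ) ^ a * 2 ^ n1 * 64)⁻¹ ≤ 1 := by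
    rw [← div_eq_mul_inv, div_le_one h6]
    nlinarith
  have h8 : 0 < ((2 : ℝ) ^ a)⁻¹ := inv_pos.2 h2
  calc 2 * (16 * (a : ℝ) * (((2 : ℝ) ^ a)⁻¹ * ((2 : ℝ) ^ a * 2 ^ n1 * 64)⁻¹))
      = ((2 : ℝ) ^ a)⁻¹ * (32 * (a : ℝ) * ((2 : ℝ) ^ a * 2 ^ n1 * 64)⁻¹) := by ring
    _ ≤ ((2 : ℝ) ^ a)⁻¹ * 1 := mul_le_mul_of_nonneg_left h7 h8.le
    _ = _ := mul_one _

theorem gs_small' (n1 a : ℕ) : 16 * (a : ℝ) * gs n1 a * 2 ^ (n1 + 1) ≤ 1 := by
  unfold gs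
  have h2 : (1 : ℝ) ≤ 2 ^ a := one_le_pow₀ (by norm_num)
  have h3 : (1 : ℝ) ≤ 2 ^ n1 := one_le_pow₀ (by norm_num)
  have h4 := cast_le_pow a
  have h5 : (2 : ℝ) ^ (2 * a + n1 + 6) = 2 ^ a * 2 ^ a * 2 ^ n1 * 64 := by
    rw [pow_add, pow_add, two_mul, pow_add]
    norm_num
  have h6 : 0 < (2 : ℝ) ^ (2 * a + n1 + 6) := by positivity
  have h7 : 16 * (a : ℝ) * ((2 : ℝ) ^ (2 * a + n1 + 6))⁻¹ * 2 ^ (n1 + 1) =
      (32 * (a : ℝ) * 2 ^ n1) / (2 : ℝ) ^ (2 * a + n1 + 6) := by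
    rw [pow_succ (2 : ℝ) n1]
    ring
  rw [h7, div_le_one h6, h5]
  have h8 : (a : ℝ) * 2 ^ n1 ≤ 2 ^ a * 2 ^ n1 := mul_le_mul_of_nonneg_right h4 (by positivity)
  have h9 : (2 : ℝ) ^ a * 2 ^ n1 * 1 ≤ 2 ^ a * 2 ^ n1 * 2 ^ a :=
    mul_le_mul_of_nonneg_left h2 (by positivity)
  have h10 : (0 : ℝ) ≤ 2 ^ a * 2 ^ a * 2 ^ n1 := by positivity
  nlinarith

theorem card_gS (n1 a : ℕ) : (gS n1 a).card = 2 ^ a - 1 := by
  unfold gS gn2
  rw [Nat.card_Ioc]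
  have : 0 < 2 ^ a := by positivity
  omega

private theorem length_allL (n : ℕ) : (allL n).length = 2 ^ n := by
  simp [allL]

private theorem length_upTo (n : ℕ) : (upTo n).length + 1 = 2 ^ (n + 1) := by
  induction n with
  | zero => simp [upTo, length_allL]
  | succ n ih =>
    have h : upTo (n + 1) = upTo n ++ allL (n + 1) := by
      unfold upTo
      rw [List.range_succ (n := n + 1), List.flatMap_append]
      simp
    rw [h, List.length_append, length_allL, pow_succ 2 (n + 1)]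
    omega

theorem low_le {n1 : ℕ} {E : List Str} (hE : E.Nodup) : low n1 E + 1 ≤ 2 ^ (n1 + 1) := by
  rw [← length_upTo]
  unfold low
  have h1 : (E.filter (fun x => x.length ≤ n1)).Nodup := hE.filter _
  have h2 : (E.filter (fun x => x.length ≤ n1)) ⊆ upTo n1 := by
    intro x hx
    rw [List.mem_filter] at hx
    rw [mem_upTo]
    simpa using hx.2
  have h3 := (List.subperm_of_subset h1 h2).length_le
  omega

theorem rel_nonneg (l : List Str) (n : ℕ) : 0 ≤ rel l n := by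
  unfold rel
  positivity

theorem rel_append (l l' : List Str) (n : ℕ) : rel (l ++ l') n = rel l n + rel l' n := by
  unfold rel
  rw [cnt_append]
  push_cast
  rw [add_div]

theorem rel_cons_le (x : Str) (l : List Str) (n : ℕ) : rel l n ≤ rel (x :: l) n := by
  have h : x :: l = [x] ++ l := rfl
  rw [h, rel_append]
  linarith [rel_nonneg [x] n]

theorem rel_cons_of_ne {x : Str} {n : ℕ} (h : x.length ≠ n) (l : List Str) :
    rel (x :: l) n = rel l n := by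
  unfold rel
  rw [cnt_cons_of_ne h]

theorem rel_cons_self (x : Str) (l : List Str) :
    rel (x :: l) x.length = rel l x.length + 1 / 2 ^ x.length := by
  unfold rel
  rw [cnt_cons_self]
  push_cast
  rw [add_div]

/-- the invariant bound for the strings killed by the others -/
theorem rel_le_of_cnt {E : List Str} {n : ℕ} (h : cnt E n * 2 ^ cc ≤ 2 ^ n) :
    rel E n ≤ 1 / 64 := by
  unfold rel
  unfold cc at h
  have h1 : (cnt E n : ℝ) * 2 ^ 6 ≤ 2 ^ n := by exact_mod_cast h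
  rw [div_le_iff₀ (by positivity)]
  linarith

/-- the total of the weights is at most `2 ^ a` -/
theorem Phi_le {n1 : ℕ} (a : ℕ) {E : List Str} (hE : E.Nodup) :
    2 ^ a - 1 + 16 * (a : ℝ) * gs n1 a * low n1 E ≤ 2 ^ a := by
  have h1 := gs_small' n1 a
  have h2 : (low n1 E : ℝ) ≤ 2 ^ (n1 + 1) := by
    have := low_le (n1 := n1) hE
    exact_mod_cast (by omega : low n1 E ≤ 2 ^ (n1 + 1))
  have h3 : 0 ≤ 16 * (a : ℝ) * gs n1 a := by
    have := gs_pos n1 a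
    positivity
  have h4 := mul_le_mul_of_nonneg_left h2 h3
  linarith

/-- the number of the attempts is bounded -/
theorem Base.t_lt {n1 a : ℕ} {E K : List Str} {t : ℕ} {w : ℕ → ℝ} (hE : E.Nodup)
    (hc : ∀ n ∈ gS n1 a, cnt E n * 2 ^ cc ≤ 2 ^ n) (h : Base n1 a E K t w) : t < gT n1 a := by
  have h1 := h.2
  have hs := gs_pos n1 a
  have h2 : (low n1 E : ℝ) + 1 ≤ 2 ^ (n1 + 1) := by
    have := low_le (n1 := n1) hE
    exact_mod_cast this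
  have h3 : ∑ n ∈ gS n1 a, rel E n ≤ (2 ^ a : ℝ) * (1 / 64) := by
    calc ∑ n ∈ gS n1 a, rel E n ≤ ∑ n ∈ gS n1 a, (1 / 64 : ℝ) :=
          Finset.sum_le_sum fun n hn => rel_le_of_cnt (hc n hn)
      _ = ((gS n1 a).card : ℝ) * (1 / 64) := by rw [Finset.sum_const, nsmul_eq_mul]
      _ ≤ (2 ^ a : ℝ) * (1 / 64) := by
          apply mul_le_mul_of_nonneg_right _ (by norm_num)
          rw [card_gS]
          exact_mod_cast Nat.sub_le _ _
  have h4 : (t : ℝ) * gs n1 a ≤ gs n1 a * low n1 E + 2 ^ a * (2 ^ a * (1 / 64)) :=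
    h1.trans (by
      have := mul_le_mul_of_nonneg_left h3 (by positivity : (0 : ℝ) ≤ 2 ^ a)
      linarith)
  have h5 : gs n1 a * 2 ^ (2 * a + n1 + 6) = 1 := by
    unfold gs
    exact inv_mul_cancel₀ (by positivity)
  have h6 : (t : ℝ) ≤ low n1 E + 2 ^ a * (2 ^ a * (1 / 64)) * 2 ^ (2 * a + n1 + 6) := by
    have h7 := mul_le_mul_of_nonneg_right h4 (by positivity : (0 : ℝ) ≤ 2 ^ (2 * a + n1 + 6))
    have e1 : (t : ℝ) * gs n1 a * 2 ^ (2 * a + n1 + 6) = t := by rw [mul_assoc, h5, mul_one]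
    have e2 : (gs n1 a * low n1 E + 2 ^ a * (2 ^ a * (1 / 64))) * 2 ^ (2 * a + n1 + 6) =
        (gs n1 a * 2 ^ (2 * a + n1 + 6)) * low n1 E +
          2 ^ a * (2 ^ a * (1 / 64)) * 2 ^ (2 * a + n1 + 6) := by ring
    rw [e1, e2, h5, one_mul] at h7
    exact h7
  have h7 : (2 : ℝ) ^ a * (2 ^ a * (1 / 64)) * 2 ^ (2 * a + n1 + 6) = 2 ^ (4 * a + n1) := by
    have : (2 : ℝ) ^ (2 * a + n1 + 6) = 2 ^ (2 * a + n1) * 64 := by
      rw [pow_add _ _ 6]; norm_num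
    rw [this]
    have e : (2 : ℝ) ^ (4 * a + n1) = 2 ^ a * 2 ^ a * 2 ^ (2 * a + n1) := by
      rw [← pow_add, ← pow_add]; congr 1; ring
    rw [e]; ring
  rw [h7] at h6
  have h8 : (t : ℝ) < (gT n1 a : ℝ) := by
    unfold gT
    push_cast
    have e1 : (2 : ℝ) ^ (n1 + 1) ≤ 2 ^ (4 * a + 2 * n1 + 9) :=
      pow_le_pow_right₀ (by norm_num) (by omega)
    have e2 : (2 : ℝ) ^ (4 * a + n1) ≤ 2 ^ (4 * a + 2 * n1 + 9) :=
      pow_le_pow_right₀ (by norm_num) (by omega)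
    have e3 : (2 : ℝ) ^ (4 * a + 2 * n1 + 10) = 2 * 2 ^ (4 * a + 2 * n1 + 9) := by
      rw [← pow_succ']
    rw [e3]
    linarith
  exact_mod_cast h8

theorem Base.relK_le {n1 a : ℕ} (ha : 1 ≤ a) {E K : List Str} {t : ℕ} {w : ℕ → ℝ}
    (hE : E.Nodup) (hc : ∀ n ∈ gS n1 a, cnt E n * 2 ^ cc ≤ 2 ^ n) (h : Base n1 a E K t w)
    {n : ℕ} (hn : n ∈ gS n1 a) : rel K n ≤ 3 / 32 :=
  WB.X_le ha h.1 (Phi_le a hE) hn (rel_le_of_cnt (hc n hn))

theorem Base.le_w {n1 a : ℕ} {E K : List Str} {t : ℕ} {w : ℕ → ℝ}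
    (hc : ∀ n ∈ gS n1 a, cnt E n * 2 ^ cc ≤ 2 ^ n) (h : Base n1 a E K t w)
    {n : ℕ} (hn : n ∈ gS n1 a) : (2 : ℝ) ^ (-(a : ℝ)) ≤ w n :=
  WB.le_w h.1 hn (rel_nonneg K n) (rel_le_of_cnt (hc n hn))

theorem Base.w_le {n1 a : ℕ} {E K : List Str} {t : ℕ} {w : ℕ → ℝ}
    (hE : E.Nodup) (h : Base n1 a E K t w) {n : ℕ} (hn : n ∈ gS n1 a) : w n ≤ 2 ^ a :=
  (WB.w_le h.1 hn).trans (Phi_le a hE)

/-- the initial weights -/
theorem Base_init (n1 a : ℕ) : Base n1 a [] [] 0 (fun _ => 1) := by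
  have h0 : ∀ n, rel ([] : List Str) n = 0 := by
    intro n
    simp [rel, cnt]
  refine ⟨⟨?_, ?_⟩, ?_⟩
  · intro n _
    rw [h0]
    simp
  · rw [Finset.sum_const, nsmul_eq_mul, mul_one, card_gS]
    have h1 : ((2 ^ a - 1 : ℕ) : ℝ) = 2 ^ a - 1 := by
      rw [Nat.cast_sub Nat.one_le_two_pow]
      push_cast
      ring
    rw [h1]
    have : (low n1 ([] : List Str) : ℝ) = 0 := by simp [low]
    rw [this, mul_zero, add_zero]
  · have h1 : ∑ n ∈ gS n1 a, rel ([] : List Str) n = 0 :=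
      Finset.sum_eq_zero fun n _ => h0 n
    rw [h1]
    have : (low n1 ([] : List Str) : ℝ) = 0 := by simp [low]
    rw [this]
    simp

end Pool.Agent.H861R3.NT
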