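import Pool.Agent.H861R3.NT.InvDefs

/-! # The invariant: living cells and costs -/

namespace Pool.Agent.H861R3.NT

open Pool.Agent.H544R2

theorem mem_alive {n1 a : ℕ} {E K : List Str} {x : Str} :
    x ∈ alive n1 a E K ↔ x.length ≤ gn2 n1 a ∧ n1 < x.length ∧ x ∉ E ∧ x ∉ K := by
  simp [alive, mem_upTo]

/-- the value of the function at the dead strings is the value of `fn` at the living cells -/
theorem evalF_eq_fn {n1 a : ℕ} {F : List Bool} {E K : List Str}
    (hK : ∀ x ∈ K, n1 < x.length) :
    evalF (gn2 n1 a) F (E ++ K) = fn n1 a F E (alive n1 a E K) := by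
  unfold fn
  apply evalF_congr
  intro x hx
  rw [List.mem_filter, List.mem_append]
  by_cases h : x.length ≤ n1
  · simp only [h, if_true, decide_eq_true_eq, mem_upTo, hx, true_and]
    constructor
    · rintro (h1 | h1)
      · exact h1
      · exact absurd (hK x h1) (by omega)
    · exact Or.inl
  · simp only [h, if_false, decide_eq_true_eq, mem_upTo, hx, true_and, mem_alive]
    constructor
    · rintro (h1 | h1) h2
      · exact h2.2.1 h1
      · exact h2.2.2 h1
    · intro h2
      by_contra h3
      push Not at h3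
      exact h2 ⟨by omega, h3.1, h3.2⟩

/-- `fn` depends only on the strings below the window -/
theorem fn_cons {n1 : ℕ} (a : ℕ) (F : List Bool) (E : List Str) {x : Str} (hx : n1 < x.length) :
    fn n1 a F (x :: E) = fn n1 a F E := by
  funext B
  unfold fn
  congr 1
  apply List.filter_congr
  intro y _
  by_cases h : y.length ≤ n1
  · have hne : y ≠ x := by rintro rfl; omega
    simp [h, hne]
  · simp [h]

/-- the others kill `x` -/
theorem alive_cons (n1 a : ℕ) (E K : List Str) (x : Str) :
    alive n1 a (x :: E) K = (alive n1 a E K).erase x := by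
  ext y
  simp only [mem_alive, Finset.mem_erase, List.mem_cons]
  tauto

/-- we kill the cells in `A \ B` -/
theorem alive_kill {n1 a : ℕ} {E K : List Str} {B : Finset Str} (hB : B ⊆ alive n1 a E K) :
    alive n1 a E ((alive n1 a E K \ B).toList ++ K) = B := by
  ext y
  rw [mem_alive, List.mem_append, Finset.mem_toList, Finset.mem_sdiff]
  constructor
  · rintro ⟨h1, h2, h3, h4⟩
    by_contra h5
    apply h4
    by_cases h6 : y ∈ K
    · exact Or.inr h6
    · exact Or.inl ⟨mem_alive.2 ⟨h1, h2, h3, h6⟩, h5⟩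
  · intro h
    obtain ⟨h1, h2, h3, h4⟩ := mem_alive.1 (hB h)
    refine ⟨h1, h2, h3, ?_⟩
    rintro (h5 | h5)
    · exact h5.2 h
    · exact h4 h5

theorem invB_cnt_toList (D : Finset Str) (n : ℕ) :
    cnt D.toList n = (D.filter (fun x => x.length = n)).card := by
  unfold cnt
  rw [← List.toFinset_card_of_nodup (D.nodup_toList.filter _), List.toFinset_filter,
    Finset.toList_toFinset]
  congr 1
  ext x
  simp

/-- the cost of a set of cells, length by length -/
theorem sum_gc {n1 a : ℕ} (w : ℕ → ℝ) {D : Finset Str} (K : List Str)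
    (hD : ∀ x ∈ D, x.length ∈ gS n1 a) :
    ∑ x ∈ D, gc w x = ∑ n ∈ gS n1 a, w n * (rel (D.toList ++ K) n - rel K n) := by
  rw [← Finset.sum_fiberwise_of_maps_to hD]
  apply Finset.sum_congr rfl
  intro n _
  have h1 : ∑ x ∈ D with x.length = n, gc w x = ∑ x ∈ D with x.length = n, w n / 2 ^ n := by
    apply Finset.sum_congr rfl
    intro x hx
    rw [Finset.mem_filter] at hx
    unfold gc
    rw [hx.2]
  rw [h1, Finset.sum_const, nsmul_eq_mul, ← invB_cnt_toList]
  unfold rel
  rw [cnt_append, Nat.cast_add]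
  ring

theorem mem_gS {n1 a : ℕ} {n : ℕ} : n ∈ gS n1 a ↔ n1 < n ∧ n ≤ gn2 n1 a := by
  simp [gS]

end Pool.Agent.H861R3.NT
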