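import Pool.Agent.H861R3.NT.InvW

/-! # The invariant: all moves except the kill of a cell during an attempt -/

namespace Pool.Agent.H861R3.NT

open Pool.Agent.H544R2

theorem Inv_init (n1 a : ℕ) : Inv n1 a P0 := by
  refine ⟨⟨List.nodup_nil, ?_, ?_, ?_⟩, Or.inl ⟨rfl, rfl, fun _ => 1, Base_init n1 a⟩⟩
  · intro x hx
    exact absurd hx (List.not_mem_nil)
  · intro n _
    change cnt [] n * 2 ^ cc ≤ 2 ^ n
    simp [cnt]
  · intro x hx
    exact absurd hx (List.not_mem_nil)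

theorem Wf.addE {n1 a : ℕ} {P : Pos} (h : Wf n1 a P) {x : Str}
    (hx : OppKill n1 (gn2 n1 a) (pE P) x) : Wf n1 a (addE x P) := by
  obtain ⟨h1, h2, h3, h4⟩ := h
  obtain ⟨hx1, hx2, hx3⟩ := hx
  refine ⟨List.nodup_cons.2 ⟨hx2, h1⟩, ?_, ?_, h4⟩
  · intro y hy
    rcases List.mem_cons.1 hy with rfl | hy
    · exact hx1
    · exact h2 y hy
  · intro n hn
    change cnt (x :: pE P) n * 2 ^ cc ≤ 2 ^ n
    by_cases hxn : x.length = n
    · subst hxn
      rw [cnt_cons_self]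
      exact hx3 (mem_gS.1 hn).1
    · rw [cnt_cons_of_ne hxn]
      exact h3 n hn

theorem InvC_cnt_right {E1 E0 : List Str} {n : ℕ} (h : cnt (E1 ++ E0) n * 2 ^ cc ≤ 2 ^ n) :
    cnt E0 n * 2 ^ cc ≤ 2 ^ n := by
  rw [cnt_append] at h
  exact le_trans (Nat.mul_le_mul_right _ (Nat.le_add_left _ _)) h

/-- positions with the invariant are fine for us -/
theorem Inv.ok {n1 a : ℕ} (ha : 1 ≤ a) {P : Pos} (h : Inv n1 a P) : OK n1 (gn2 n1 a) P := by
  obtain ⟨⟨h1, h2, h3, h4⟩, h5⟩ := h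
  rcases h5 with ⟨hF, hb, w, hB⟩ | ⟨F, E0, K0, w, r, r', hF, hA⟩
  · refine ⟨fun x hx => ⟨(h4 x hx).1, (h4 x hx).2, ?_⟩, ?_⟩
    · have h6 := hB.relK_le ha h1 h3 (mem_gS.2 (h4 x hx))
      unfold rel at h6
      have hp : (0 : ℝ) < 2 ^ x.length := by positivity
      rw [div_le_iff₀ hp] at h6
      have h7 : (4 : ℝ) * (cnt (pK P) x.length : ℝ) ≤ 2 ^ x.length := by linarith
      exact_mod_cast h7
    · intro F hF'
      rw [hF] at hF'
      exact absurd hF' (by simp)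
  · obtain ⟨hBase, ⟨E1, hE1, hE1'⟩, ⟨K1, hK1⟩, hr, hH, hs, hs'⟩ := hA
    have hE0 : E0.Nodup := by
      rw [hE1] at h1
      exact (List.nodup_append.1 h1).2.1
    have hc0 : ∀ n ∈ gS n1 a, cnt E0 n * 2 ^ cc ≤ 2 ^ n := by
      intro n hn
      have := h3 n hn
      rw [hE1] at this
      exact InvC_cnt_right this
    refine ⟨fun x hx => ⟨(h4 x hx).1, (h4 x hx).2, ?_⟩, ?_⟩
    · have hsp : ∑ n ∈ gS n1 a, w n * (rel (K1 ++ K0) n - rel K0 n) ≤ gs n1 a := by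
        rw [← hK1]; linarith
      have h6 := quarter ha hE0 hc0 hBase hsp (mem_gS.2 (h4 x hx))
      rw [← hK1] at h6
      exact h6
    · intro F' hF'
      rw [hF, Option.mem_some_iff] at hF'
      subst hF'
      rw [evalF_eq_fn (fun x hx => (h4 x hx).1), hH.1]
      cases pb P <;> simp

/-- the others kill a string while we wait for the function -/
theorem kill_waiting {n1 a : ℕ} {P : Pos} (h : Wf n1 a P) (hw : Waiting n1 a P)
    {x : Str} (hx : OppKill n1 (gn2 n1 a) (pE P) x) :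
    ∃ Q, Inv n1 a Q ∧ Reply (gT n1 a) (addE x P) Q := by
  obtain ⟨hF, hb, w, hB⟩ := hw
  refine ⟨addE x P, ⟨h.addE hx, Or.inl ⟨hF, hb, w, hB.cons x⟩⟩, rfl, ?_, Or.inl ⟨rfl, rfl, id⟩⟩
  rw [Nat.sub_self, List.drop_zero]

/-- the others kill a string below the window during an attempt -/
theorem kill_low {n1 a : ℕ} (ha : 1 ≤ a) {P : Pos} (h : Wf n1 a P) (hw : Active n1 a P)
    {x : Str} (hx : OppKill n1 (gn2 n1 a) (pE P) x) (hx1 : x.length ≤ n1) :
    ∃ Q, Inv n1 a Q ∧ Reply (gT n1 a) (addE x P) Q := by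
  obtain ⟨F, E0, K0, w, r, r', hF, hBase, ⟨E1, hE1, hE1'⟩, ⟨K1, hK1⟩, hr, hH, hs, hs'⟩ := hw
  have hWf := h.addE hx
  obtain ⟨g1, g2, g3, g4⟩ := hWf
  have hsp : ∑ n ∈ gS n1 a, w n * (rel (K1 ++ K0) n - rel K0 n) ≤ gs n1 a := by
    rw [← hK1]; linarith
  have g1' : (x :: (E1 ++ E0)).Nodup := by rw [← hE1]; exact g1
  have g3' : ∀ n ∈ gS n1 a, cnt (x :: (E1 ++ E0)) n * 2 ^ cc ≤ 2 ^ n := by
    rw [← hE1]; exact g3
  obtain ⟨w', hB'⟩ := renew_low ha g1' g3' hBase hsp hx1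
  have htlt := hB'.t_lt g1' g3'
  rw [← hE1, ← hK1] at hB'
  refine ⟨(x :: pE P, pK P, pt P + 1, false, none), ⟨⟨g1, g2, g3, g4⟩,
    Or.inl ⟨rfl, rfl, w', hB'⟩⟩, rfl, ?_, Or.inr ⟨rfl, htlt, rfl, rfl⟩⟩
  change List.drop ((pK P).length - (pK P).length) (pK P) = pK P
  rw [Nat.sub_self, List.drop_zero]

/-- the weights outside the window do not matter -/
theorem InvC_base_restrict {n1 a : ℕ} {E K : List Str} {t : ℕ} {w : ℕ → ℝ}
    (h : Base n1 a E K t w) : Base n1 a E K t (fun n => if n ∈ gS n1 a then w n else 0) := by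
  obtain ⟨⟨h1, h2⟩, h3⟩ := h
  refine ⟨⟨fun n hn => ?_, ?_⟩, h3⟩
  · simp only [if_pos hn]
    exact h1 n hn
  · refine le_trans (le_of_eq ?_) h2
    exact Finset.sum_congr rfl fun n hn => by simp only [if_pos hn]

/-- the function becomes known -/
theorem reveal_waiting {n1 a : ℕ} {P : Pos} (h : Wf n1 a P)
    (hw : Waiting n1 a P) (F : List Bool) :
    ∃ Q, Inv n1 a Q ∧ Reply (gT n1 a) (setF F P) Q := by
  obtain ⟨hF, hb, w0, hB0⟩ := hw
  obtain ⟨h1, h2, h3, h4⟩ := h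
  have hB := InvC_base_restrict hB0
  set w : ℕ → ℝ := fun n => if n ∈ gS n1 a then w0 n else 0 with hwdef
  have hw0 : ∀ n, 0 ≤ w n := by
    intro n
    by_cases hn : n ∈ gS n1 a
    · exact le_trans (by positivity) (hB.1.1 n hn)
    · simp only [hwdef, if_neg hn]; exact le_refl _
  have hc : ∀ x : Str, 0 ≤ gc w x := fun x => div_nonneg (hw0 _) (by positivity)
  obtain ⟨v, hv⟩ := steal (gc w) hc (fn n1 a F (pE P)) (alive n1 a (pE P) (pK P))
    (gs_pos n1 a).le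
  cases hv with
  | mk _ B _ _ hBA hr hFB hC =>
    have hAB : ∀ x ∈ alive n1 a (pE P) (pK P) \ B, n1 < x.length ∧ x.length ≤ gn2 n1 a := by
      intro x hx
      have := mem_alive.1 (Finset.mem_sdiff.1 hx).1
      exact ⟨this.2.1, this.1⟩
    have hcost : ∑ x ∈ alive n1 a (pE P) (pK P) \ B, gc w x =
        ∑ n ∈ gS n1 a, w n *
          (rel ((alive n1 a (pE P) (pK P) \ B).toList ++ pK P) n - rel (pK P) n) :=
      sum_gc w (pK P) (fun x hx => mem_gS.2 (hAB x hx))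
    refine ⟨(pE P, (alive n1 a (pE P) (pK P) \ B).toList ++ pK P, pt P, !v, some F),
      ⟨⟨h1, h2, h3, ?_⟩, Or.inr ⟨F, pE P, pK P, w,
        gs n1 a - ∑ x ∈ alive n1 a (pE P) (pK P) \ B, gc w x, gs n1 a, rfl, hB,
        ⟨[], rfl, fun x hx => absurd hx List.not_mem_nil⟩, ⟨_, rfl⟩, sub_nonneg.2 hr, ?_, ?_, ?_⟩⟩,
      rfl, ?_, Or.inl ⟨rfl, rfl, ?_⟩⟩
    · intro x hx
      rcases List.mem_append.1 hx with hx | hx
      · exact hAB x (Finset.mem_toList.1 hx)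
      · exact h4 x hx
    · change Hold (gc w) (fn n1 a F (pE P)) (!(!v))
        (alive n1 a (pE P) ((alive n1 a (pE P) (pK P) \ B).toList ++ pK P)) _ _
      rw [alive_kill hBA, Bool.not_not]
      exact ⟨hFB, hC⟩
    · change ∑ n ∈ gS n1 a, w n *
        (rel ((alive n1 a (pE P) (pK P) \ B).toList ++ pK P) n - rel (pK P) n) +
        (gs n1 a - ∑ x ∈ alive n1 a (pE P) (pK P) \ B, gc w x) ≤ gs n1 a
      rw [← hcost]
      linarith
    · change gs n1 a ≤ ∑ n ∈ gS n1 a, w n * (rel (pE P) n - rel (pE P) n) + gs n1 a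
      have : ∑ n ∈ gS n1 a, w n * (rel (pE P) n - rel (pE P) n) = 0 :=
        Finset.sum_eq_zero fun n _ => by ring
      rw [this, zero_add]
    · change List.drop (((alive n1 a (pE P) (pK P) \ B).toList ++ pK P).length - (pK P).length)
        ((alive n1 a (pE P) (pK P) \ B).toList ++ pK P) = pK P
      rw [List.length_append, Nat.add_sub_cancel, List.drop_left]
    · intro hh
      change pb P = true at hh
      rw [hb] at hh
      exact absurd hh (by simp)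

end Pool.Agent.H861R3.NT
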