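import Mathlib

/-! # Strategy stealing -/

namespace Pool.Agent.H861R3.NT

variable {ι : Type*} [DecidableEq ι]

/-- `Win c F v A r r'`: the player who moves now, with budget `r` against budget `r'`, can remove
elements of `A` (the cost of `x` is `c x`) so that `F` has the value `v`, and can restore this
value after each move of the other player. -/
inductive Win (c : ι → ℝ) (F : Finset ι → Bool) (v : Bool) : Finset ι → ℝ → ℝ → Prop
  | mk (A B : Finset ι) (r r' : ℝ) (hB : B ⊆ A) (hr : ∑ x ∈ A \ B, c x ≤ r) (hF : F B = v)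
      (h : ∀ C, C ⊂ B → ∑ x ∈ B \ C, c x ≤ r' →
        Win c F v C (r - ∑ x ∈ A \ B, c x) (r' - ∑ x ∈ B \ C, c x)) : Win c F v A r r'

private theorem win_extend (c : ι → ℝ) (F : Finset ι → Bool) (v : Bool) {A C : Finset ι}
    (hC : C ⊆ A) {r r' : ℝ} (h : Win c F v C (r - ∑ x ∈ A \ C, c x) r') : Win c F v A r r' := by
  generalize hs : r - ∑ x ∈ A \ C, c x = s at h
  cases h with
  | mk _ B _ _ hB hr hF h =>
    have hsum : ∑ x ∈ A \ B, c x = ∑ x ∈ A \ C, c x + ∑ x ∈ C \ B, c x := by
      rw [← Finset.sum_union]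
      · congr 1
        ext x
        simp only [Finset.mem_sdiff, Finset.mem_union]
        constructor
        · rintro ⟨h1, h2⟩
          by_cases hx : x ∈ C
          · exact Or.inr ⟨hx, h2⟩
          · exact Or.inl ⟨h1, hx⟩
        · rintro (⟨h1, h2⟩ | ⟨h1, h2⟩)
          · exact ⟨h1, fun hx => h2 (hB hx)⟩
          · exact ⟨hC h1, h2⟩
      · rw [Finset.disjoint_left]
        intro x h1 h2
        exact (Finset.mem_sdiff.1 h1).2 (Finset.mem_sdiff.1 h2).1
    refine Win.mk A B r r' (hB.trans hC) (by linarith) hF (fun D hD hc' => ?_)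
    have h1 := h D hD hc'
    have h2 : s - ∑ x ∈ C \ B, c x = r - ∑ x ∈ A \ B, c x := by linarith
    rwa [h2] at h1

/-- The stealing lemma. -/
theorem steal_aux (c : ι → ℝ) (hc : ∀ x, 0 ≤ c x) (F : Finset ι → Bool) :
    ∀ (A : Finset ι) (r r' : ℝ), 0 ≤ r → 0 ≤ r' → ¬ Win c F true A r r' → Win c F false A r' r := by
  intro A
  induction A using Finset.strongInduction with
  | H A ih =>
    intro r r' hr hr' hnot
    cases hFA : F A with
    | false =>
      refine Win.mk A A r' r (Finset.Subset.refl A) (by simpa using hr') hFA (fun C hC hcost => ?_)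
      simp only [sdiff_self, Finset.bot_eq_empty, Finset.sum_empty, sub_zero]
      refine ih C hC _ _ (by linarith) hr' (fun hw => hnot ?_)
      exact win_extend c F true hC.subset hw
    | true =>
      have hex : ∃ C, C ⊂ A ∧ ∑ x ∈ A \ C, c x ≤ r' ∧
          ¬ Win c F true C r (r' - ∑ x ∈ A \ C, c x) := by
        by_contra hcon
        push Not at hcon
        refine hnot (Win.mk A A r r' (Finset.Subset.refl A) (by simpa using hr) hFA
          (fun C hC hcost => ?_))
        simp only [sdiff_self, Finset.bot_eq_empty, Finset.sum_empty, sub_zero]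
        exact hcon C hC hcost
      obtain ⟨C, hC, hcost, hn⟩ := hex
      exact win_extend c F false hC.subset (ih C hC _ _ hr (by linarith) hn)

theorem steal (c : ι → ℝ) (hc : ∀ x, 0 ≤ c x) (F : Finset ι → Bool) (A : Finset ι) {r : ℝ}
    (hr : 0 ≤ r) : ∃ v, Win c F v A r r := by
  by_cases h : Win c F true A r r
  · exact ⟨true, h⟩
  · exact ⟨false, steal_aux c hc F A r r hr hr h⟩

end Pool.Agent.H861R3.NT
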