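import Mathlib

/-! # Multiplicative weights -/

namespace Pool.Agent.H861R3.NT

/-- The weights `w` dominate `2 ^ (lam X - 2 lam Y)` and have total at most `Φ`. -/
def WB (S : Finset ℕ) (lam : ℝ) (w X Y : ℕ → ℝ) (Φ : ℝ) : Prop :=
  (∀ n ∈ S, (2 : ℝ) ^ (lam * X n) * (4 : ℝ) ^ (-(lam * Y n)) ≤ w n) ∧ ∑ n ∈ S, w n ≤ Φ

theorem WB.congr_mono {S : Finset ℕ} {lam : ℝ} {w X Y Y' : ℕ → ℝ} {Φ Φ' : ℝ} (hlam : 0 ≤ lam)
    (h : WB S lam w X Y Φ) (hY : ∀ n ∈ S, Y n ≤ Y' n) (hΦ : Φ ≤ Φ') : WB S lam w X Y' Φ' := by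
  refine ⟨fun n hn => le_trans ?_ (h.1 n hn), h.2.trans hΦ⟩
  refine mul_le_mul_of_nonneg_left ?_ (by positivity)
  exact Real.rpow_le_rpow_of_exponent_le (by norm_num)
    (neg_le_neg (mul_le_mul_of_nonneg_left (hY n hn) hlam))

private theorem two_rpow_le {z : ℝ} (h0 : 0 ≤ z) (h1 : z ≤ 1) : (2 : ℝ) ^ z ≤ 1 + z := by
  have := rpow_one_add_le_one_add_mul_self (s := 1) (p := z) (by norm_num) h0 h1
  rw [mul_one] at this
  norm_num at this
  exact this

private theorem four_rpow_le {u : ℝ} (h0 : 0 ≤ u) (h1 : u ≤ 1 / 2) : (4 : ℝ) ^ (-u) ≤ 1 - u := by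
  have := rpow_one_add_le_one_add_mul_self (s := -1 / 2) (p := 2 * u) (by norm_num)
    (by linarith) (by linarith)
  have e : (4 : ℝ) ^ (-u) = (1 + -1 / 2 : ℝ) ^ (2 * u) := by
    rw [Real.rpow_mul (by norm_num), Real.rpow_neg (by norm_num), ← Real.inv_rpow (by norm_num)]
    congr 1
    rw [Real.rpow_two]
    norm_num
  rw [e]
  linarith

private theorem WB.w_pos {S : Finset ℕ} {lam : ℝ} {w X Y : ℕ → ℝ} {Φ : ℝ} (h : WB S lam w X Y Φ)
    {n : ℕ} (hn : n ∈ S) : 0 < w n :=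
  lt_of_lt_of_le (by positivity) (h.1 n hn)

/-- The update `w' n = w n * (1 + lam x n) * (1 - min (lam y n) (1/2))` at the end of an attempt,
`x = X - X0`, `y = Y - Y0`. -/
theorem upd_weights {S : Finset ℕ} {lam s wm Φ : ℝ} {w X0 Y0 X Y : ℕ → ℝ} (hlam : 0 < lam)
    (hs : 0 < s) (hwm : 0 < wm) (hw : ∀ n ∈ S, wm ≤ w n) (hsw : 2 * (lam * s) ≤ wm)
    (h : WB S lam w X0 Y0 Φ) (hX : ∀ n ∈ S, X0 n ≤ X n) (hY : ∀ n ∈ S, Y0 n ≤ Y n)
    (hsp : ∑ n ∈ S, w n * (X n - X0 n) ≤ s) :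
    (∃ w', WB S lam w' X Y (Φ + lam * s)) ∧
      (s < ∑ n ∈ S, w n * (Y n - Y0 n) → ∃ w', WB S lam w' X Y Φ) := by
  have hx0 : ∀ n ∈ S, 0 ≤ lam * (X n - X0 n) := fun n hn =>
    mul_nonneg hlam.le (sub_nonneg.2 (hX n hn))
  have hy0 : ∀ n ∈ S, 0 ≤ lam * (Y n - Y0 n) := fun n hn =>
    mul_nonneg hlam.le (sub_nonneg.2 (hY n hn))
  have hw0 : ∀ n ∈ S, 0 < w n := fun n hn => lt_of_lt_of_le hwm (hw n hn)
  have hx1 : ∀ n ∈ S, lam * (X n - X0 n) ≤ 1 := by
    intro n hn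
    have h1 : w n * (X n - X0 n) ≤ s :=
      (Finset.single_le_sum (f := fun n => w n * (X n - X0 n))
        (fun i hi => mul_nonneg (hw0 i hi).le (sub_nonneg.2 (hX i hi))) hn).trans hsp
    have h2 : w n * (lam * (X n - X0 n)) ≤ lam * s := by
      calc w n * (lam * (X n - X0 n)) = lam * (w n * (X n - X0 n)) := by ring
        _ ≤ lam * s := mul_le_mul_of_nonneg_left h1 hlam.le
    have h3 : wm * (lam * (X n - X0 n)) ≤ w n * (lam * (X n - X0 n)) :=
      mul_le_mul_of_nonneg_right (hw n hn) (hx0 n hn)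
    by_contra h4
    push Not at h4
    nlinarith
  have hbase : ∀ n ∈ S, (2 : ℝ) ^ (lam * X n) ≤ 2 ^ (lam * X0 n) * (1 + lam * (X n - X0 n)) := by
    intro n hn
    have e : lam * X n = lam * X0 n + lam * (X n - X0 n) := by ring
    rw [e, Real.rpow_add (by norm_num)]
    have e2 : lam * X0 n + lam * (X n - X0 n) - lam * X0 n = lam * (X n - X0 n) := by ring
    exact mul_le_mul_of_nonneg_left (two_rpow_le (hx0 n hn) (hx1 n hn)) (by positivity)
  have hsx : ∑ n ∈ S, w n * (1 + lam * (X n - X0 n)) ≤ Φ + lam * s := by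
    have e : ∑ n ∈ S, w n * (1 + lam * (X n - X0 n)) =
        ∑ n ∈ S, w n + lam * ∑ n ∈ S, w n * (X n - X0 n) := by
      rw [Finset.mul_sum, ← Finset.sum_add_distrib]
      exact Finset.sum_congr rfl fun n _ => by ring
    rw [e]
    exact add_le_add h.2 (mul_le_mul_of_nonneg_left hsp hlam.le)
  refine ⟨⟨fun n => w n * (1 + lam * (X n - X0 n)), fun n hn => ?_, hsx⟩, fun hbig => ?_⟩
  · have h1 : (4 : ℝ) ^ (-(lam * Y n)) ≤ 4 ^ (-(lam * Y0 n)) :=
      Real.rpow_le_rpow_of_exponent_le (by norm_num)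
        (neg_le_neg (mul_le_mul_of_nonneg_left (hY n hn) hlam.le))
    calc (2 : ℝ) ^ (lam * X n) * (4 : ℝ) ^ (-(lam * Y n)) ≤
          (2 ^ (lam * X0 n) * (1 + lam * (X n - X0 n))) * 4 ^ (-(lam * Y0 n)) :=
            mul_le_mul (hbase n hn) h1 (by positivity)
              (mul_nonneg (by positivity) (by linarith [hx0 n hn]))
      _ = (2 ^ (lam * X0 n) * 4 ^ (-(lam * Y0 n))) * (1 + lam * (X n - X0 n)) := by ring
      _ ≤ w n * (1 + lam * (X n - X0 n)) :=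
          mul_le_mul_of_nonneg_right (h.1 n hn) (by linarith [hx0 n hn])
  · refine ⟨fun n => w n * (1 + lam * (X n - X0 n)) * (1 - min (lam * (Y n - Y0 n)) (1 / 2)),
      fun n hn => ?_, ?_⟩
    · have hu0 : 0 ≤ min (lam * (Y n - Y0 n)) (1 / 2) := le_min (hy0 n hn) (by norm_num)
      have hu1 : min (lam * (Y n - Y0 n)) (1 / 2) ≤ 1 / 2 := min_le_right _ _
      have hu2 : min (lam * (Y n - Y0 n)) (1 / 2) ≤ lam * (Y n - Y0 n) := min_le_left _ _
      have h1 : (4 : ℝ) ^ (-(lam * Y n)) ≤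
          4 ^ (-(lam * Y0 n)) * (1 - min (lam * (Y n - Y0 n)) (1 / 2)) := by
        have e : -(lam * Y n) = -(lam * Y0 n) + -(lam * (Y n - Y0 n)) := by ring
        rw [e, Real.rpow_add (by norm_num)]
        refine mul_le_mul_of_nonneg_left ?_ (by positivity)
        refine le_trans ?_ (four_rpow_le hu0 hu1)
        exact Real.rpow_le_rpow_of_exponent_le (by norm_num) (neg_le_neg hu2)
      calc (2 : ℝ) ^ (lam * X n) * (4 : ℝ) ^ (-(lam * Y n)) ≤
            (2 ^ (lam * X0 n) * (1 + lam * (X n - X0 n))) *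
              (4 ^ (-(lam * Y0 n)) * (1 - min (lam * (Y n - Y0 n)) (1 / 2))) :=
              mul_le_mul (hbase n hn) h1 (by positivity)
                (mul_nonneg (by positivity) (by linarith [hx0 n hn]))
        _ = (2 ^ (lam * X0 n) * 4 ^ (-(lam * Y0 n))) *
            ((1 + lam * (X n - X0 n)) * (1 - min (lam * (Y n - Y0 n)) (1 / 2))) := by ring
        _ ≤ w n * ((1 + lam * (X n - X0 n)) * (1 - min (lam * (Y n - Y0 n)) (1 / 2))) :=
            mul_le_mul_of_nonneg_right (h.1 n hn)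
              (mul_nonneg (by linarith [hx0 n hn]) (by linarith))
        _ = _ := by ring
    · have hU : lam * s ≤ ∑ n ∈ S, w n * min (lam * (Y n - Y0 n)) (1 / 2) := by
        by_cases hall : ∀ n ∈ S, lam * (Y n - Y0 n) ≤ 1 / 2
        · have e : ∑ n ∈ S, w n * min (lam * (Y n - Y0 n)) (1 / 2) =
              lam * ∑ n ∈ S, w n * (Y n - Y0 n) := by
            rw [Finset.mul_sum]
            refine Finset.sum_congr rfl fun n hn => ?_
            rw [min_eq_left (hall n hn)]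
            ring
          rw [e]
          exact mul_le_mul_of_nonneg_left hbig.le hlam.le
        · push Not at hall
          obtain ⟨n, hn, hn2⟩ := hall
          refine le_trans ?_ (Finset.single_le_sum
            (f := fun n => w n * min (lam * (Y n - Y0 n)) (1 / 2))
            (fun i hi => mul_nonneg (hw0 i hi).le (le_min (hy0 i hi) (by norm_num))) hn)
          rw [min_eq_right hn2.le]
          have := hw n hn
          linarith
      have hle : ∑ n ∈ S, w n * (1 + lam * (X n - X0 n)) * (1 - min (lam * (Y n - Y0 n)) (1 / 2)) ≤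
          ∑ n ∈ S, (w n * (1 + lam * (X n - X0 n)) - w n * min (lam * (Y n - Y0 n)) (1 / 2)) := by
        refine Finset.sum_le_sum fun n hn => ?_
        have h1 : 0 ≤ w n * (lam * (X n - X0 n)) * min (lam * (Y n - Y0 n)) (1 / 2) :=
          mul_nonneg (mul_nonneg (hw0 n hn).le (hx0 n hn)) (le_min (hy0 n hn) (by norm_num))
        linarith
      rw [Finset.sum_sub_distrib] at hle
      linarith

/-- upper bound for the weights -/
theorem WB.w_le {S : Finset ℕ} {lam : ℝ} {w X Y : ℕ → ℝ} {Φ : ℝ} (h : WB S lam w X Y Φ)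
    {n : ℕ} (hn : n ∈ S) : w n ≤ Φ :=
  (Finset.single_le_sum (fun _ hi => (h.w_pos hi).le) hn).trans h.2

/-- upper bound for `X` -/
theorem WB.X_le {S : Finset ℕ} {a : ℕ} (ha : 1 ≤ a) {w X Y : ℕ → ℝ} {Φ : ℝ}
    (h : WB S (16 * a) w X Y Φ) (hΦ : Φ ≤ 2 ^ a) {n : ℕ} (hn : n ∈ S) (hY : Y n ≤ 1 / 64) :
    X n ≤ 3 / 32 := by
  have h1 := ((h.1 n hn).trans (h.w_le hn)).trans hΦ
  have ha' : (1 : ℝ) ≤ a := by exact_mod_cast ha
  have e4 : (4 : ℝ) ^ (-(16 * (a : ℝ) * Y n)) = 2 ^ (2 * (-(16 * (a : ℝ) * Y n))) := by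
    rw [Real.rpow_mul (by norm_num : (0 : ℝ) ≤ 2) 2]
    norm_num
  rw [e4, ← Real.rpow_add (by norm_num), ← Real.rpow_natCast,
    Real.rpow_le_rpow_left_iff (by norm_num)] at h1
  have h2 : (a : ℝ) * Y n ≤ a * (1 / 64) := mul_le_mul_of_nonneg_left hY (by linarith)
  have h3 : (a : ℝ) * X n ≤ a * (3 / 32) := by linarith
  exact le_of_mul_le_mul_left h3 (by linarith)

/-- lower bound for the weights -/
theorem WB.le_w {S : Finset ℕ} {a : ℕ} {w X Y : ℕ → ℝ} {Φ : ℝ} (h : WB S (16 * a) w X Y Φ)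
    {n : ℕ} (hn : n ∈ S) (hX : 0 ≤ X n) (hY : Y n ≤ 1 / 64) : (2 : ℝ) ^ (-(a : ℝ)) ≤ w n := by
  have ha' : (0 : ℝ) ≤ a := Nat.cast_nonneg a
  refine le_trans ?_ (h.1 n hn)
  have e4 : (4 : ℝ) ^ (-(16 * (a : ℝ) * Y n)) = 2 ^ (2 * (-(16 * (a : ℝ) * Y n))) := by
    rw [Real.rpow_mul (by norm_num : (0 : ℝ) ≤ 2) 2]
    norm_num
  rw [e4, ← Real.rpow_add (by norm_num)]
  refine Real.rpow_le_rpow_of_exponent_le (by norm_num) ?_
  have h2 : (a : ℝ) * Y n ≤ a * (1 / 64) := mul_le_mul_of_nonneg_left hY ha'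
  have h3 : 0 ≤ (a : ℝ) * X n := mul_nonneg ha' hX
  linarith

end Pool.Agent.H861R3.NT
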