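import Pool.Agent.H861R3.NT.Enum
import Pool.Agent.H861R3.NT.Steal
import Pool.Agent.H861R3.NT.Weight

/-!
# The invariant of the winning strategy

Parameters `n1` and `a ≥ 1`: the window is `(n1, n2]`, `n2 = n1 + 2 ^ a - 1`, `lam = 16 a`,
`s = 2 ^ (-(2 a + n1 + 6))`, `T = 2 ^ (4 a + 2 n1 + 10)`.
-/

namespace Pool.Agent.H861R3.NT

/-- the upper end of the window -/
def gn2 (n1 a : ℕ) : ℕ := n1 + 2 ^ a - 1

/-- the lengths in the window -/
def gS (n1 a : ℕ) : Finset ℕ := Finset.Ioc n1 (gn2 n1 a)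

/-- the budget of an attempt -/
noncomputable def gs (n1 a : ℕ) : ℝ := ((2 : ℝ) ^ (2 * a + n1 + 6))⁻¹

/-- the number of the attempts -/
def gT (n1 a : ℕ) : ℕ := 2 ^ (4 * a + 2 * n1 + 10)

/-- relative number of strings of length `n` -/
noncomputable def rel (l : List Str) (n : ℕ) : ℝ := (cnt l n : ℝ) / 2 ^ n

/-- number of entries below the window -/
def low (n1 : ℕ) (E : List Str) : ℕ := (E.filter (fun x => x.length ≤ n1)).length

/-- the cost of a cell -/
noncomputable def gc (w : ℕ → ℝ) (x : Str) : ℝ := w x.length / 2 ^ x.length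

/-- the living cells of the window -/
def alive (n1 a : ℕ) (E K : List Str) : Finset Str :=
  (upTo (gn2 n1 a)).toFinset.filter (fun x => n1 < x.length ∧ x ∉ E ∧ x ∉ K)

/-- the function of the set of the living cells -/
def fn (n1 a : ℕ) (F : List Bool) (E : List Str) (B : Finset Str) : Bool :=
  evalF (gn2 n1 a) F ((upTo (gn2 n1 a)).filter
    (fun x => if x.length ≤ n1 then x ∈ E else x ∉ B))

/-- The invariant of the weights at the beginning of an attempt. -/
def Base (n1 a : ℕ) (E K : List Str) (t : ℕ) (w : ℕ → ℝ) : Prop :=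
  WB (gS n1 a) (16 * a) w (rel K) (rel E) (2 ^ a - 1 + 16 * a * gs n1 a * low n1 E) ∧
  (t : ℝ) * gs n1 a ≤ gs n1 a * low n1 E + 2 ^ a * ∑ n ∈ gS n1 a, rel E n

/-- It is the turn of the other player, the value of the function is `v`, and we can restore it
with budget `r` as long as the other player spends at most `r'`. -/
def Hold (c : Str → ℝ) (f : Finset Str → Bool) (v : Bool) (B : Finset Str) (r r' : ℝ) : Prop :=
  f B = v ∧ ∀ C, C ⊂ B → ∑ x ∈ B \ C, c x ≤ r' → Win c f v C r (r' - ∑ x ∈ B \ C, c x)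

/-- well-formed positions -/
def Wf (n1 a : ℕ) (P : Pos) : Prop :=
  (pE P).Nodup ∧ (∀ x ∈ pE P, x.length ≤ gn2 n1 a) ∧
  (∀ n ∈ gS n1 a, cnt (pE P) n * 2 ^ cc ≤ 2 ^ n) ∧
  (∀ x ∈ pK P, n1 < x.length ∧ x.length ≤ gn2 n1 a)

/-- an attempt waits for its function -/
def Waiting (n1 a : ℕ) (P : Pos) : Prop :=
  pF P = none ∧ pb P = false ∧ ∃ w, Base n1 a (pE P) (pK P) (pt P) w

/-- The data of an attempt: the lists `E0, K0` and the weights `w` at its beginning, the
remaining budgets `r` and `r'`. -/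
def ActiveWith (n1 a : ℕ) (E K : List Str) (t : ℕ) (b : Bool) (F : List Bool) (E0 K0 : List Str)
    (w : ℕ → ℝ) (r r' : ℝ) : Prop :=
  Base n1 a E0 K0 t w ∧ (∃ E1 : List Str, E = E1 ++ E0 ∧ ∀ x ∈ E1, n1 < x.length) ∧
  (∃ K1 : List Str, K = K1 ++ K0) ∧ 0 ≤ r ∧
  Hold (gc w) (fn n1 a F E) (!b) (alive n1 a E K) r r' ∧
  ∑ n ∈ gS n1 a, w n * (rel K n - rel K0 n) + r ≤ gs n1 a ∧
  gs n1 a ≤ ∑ n ∈ gS n1 a, w n * (rel E n - rel E0 n) + r'

/-- an attempt whose function is known -/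
def Active (n1 a : ℕ) (P : Pos) : Prop :=
  ∃ F E0 K0 w r r', pF P = some F ∧
    ActiveWith n1 a (pE P) (pK P) (pt P) (pb P) F E0 K0 w r r'

/-- the invariant -/
def Inv (n1 a : ℕ) (P : Pos) : Prop := Wf n1 a P ∧ (Waiting n1 a P ∨ Active n1 a P)

end Pool.Agent.H861R3.NT
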