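import Pool.Agent.H861R3.NT.InvA
import Pool.Agent.H861R3.NT.InvB

/-! # The invariant: new weights at the end of an attempt -/

namespace Pool.Agent.H861R3.NT

open Pool.Agent.H544R2

private theorem low_append (n1 : ℕ) (E1 E0 : List Str) :
    low n1 (E1 ++ E0) = low n1 E1 + low n1 E0 := by
  unfold low
  rw [List.filter_append, List.length_append]

private theorem low_cons (n1 : ℕ) (x : Str) (E : List Str) :
    low n1 (x :: E) = low n1 E + if x.length ≤ n1 then 1 else 0 := by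
  unfold low
  rw [List.filter_cons]
  by_cases h : x.length ≤ n1
  · simp [h]
  · simp [h]

private theorem low_big (n1 : ℕ) (x : Str) (E1 E0 : List Str) :
    low n1 E0 + (if x.length ≤ n1 then 1 else 0) ≤ low n1 (x :: (E1 ++ E0)) := by
  rw [low_cons, low_append]
  omega

private theorem rel_big (x : Str) (E1 E0 : List Str) (n : ℕ) :
    rel E0 n ≤ rel (x :: (E1 ++ E0)) n := by
  refine le_trans ?_ (rel_cons_le x (E1 ++ E0) n)
  rw [rel_append]
  have := rel_nonneg E1 n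
  linarith

private theorem rel_big' (K1 K0 : List Str) (n : ℕ) : rel K0 n ≤ rel (K1 ++ K0) n := by
  rw [rel_append]
  have := rel_nonneg K1 n
  linarith

private theorem cnt_big (x : Str) (E1 E0 : List Str) (n : ℕ) :
    cnt E0 n ≤ cnt (x :: (E1 ++ E0)) n := by
  have h1 : cnt (x :: (E1 ++ E0)) n = cnt ([x] ++ (E1 ++ E0)) n := rfl
  rw [h1, cnt_append, cnt_append]
  omega

private theorem lam_nonneg (a : ℕ) : (0 : ℝ) ≤ 16 * (a : ℝ) := by positivity

/-- The others kill a string in the waiting phase. -/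
theorem Base.cons {n1 a : ℕ} {E K : List Str} {t : ℕ} {w : ℕ → ℝ} (h : Base n1 a E K t w)
    (x : Str) : Base n1 a (x :: E) K t w := by
  obtain ⟨h1, h2⟩ := h
  have hlow : (low n1 E : ℝ) ≤ low n1 (x :: E) := by
    rw [low_cons]
    exact_mod_cast Nat.le_add_right _ _
  have hg := (gs_pos n1 a).le
  refine ⟨h1.congr_mono (lam_nonneg a) (fun n _ => rel_cons_le x E n) ?_, ?_⟩
  · have : 16 * (a : ℝ) * gs n1 a * low n1 E ≤ 16 * (a : ℝ) * gs n1 a * low n1 (x :: E) :=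
      mul_le_mul_of_nonneg_left hlow (mul_nonneg (lam_nonneg a) hg)
    linarith
  · refine h2.trans (add_le_add (mul_le_mul_of_nonneg_left hlow hg) ?_)
    exact mul_le_mul_of_nonneg_left (Finset.sum_le_sum fun n _ => rel_cons_le x E n)
      (by positivity)

/-- The attempt ends since the others kill a string below the window. -/
theorem renew_low {n1 a : ℕ} (ha : 1 ≤ a) {E0 K0 E1 K1 : List Str} {t : ℕ} {w : ℕ → ℝ} {x : Str}
    (hE : (x :: (E1 ++ E0)).Nodup)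
    (hc : ∀ n ∈ gS n1 a, cnt (x :: (E1 ++ E0)) n * 2 ^ cc ≤ 2 ^ n)
    (h : Base n1 a E0 K0 t w)
    (hsp : ∑ n ∈ gS n1 a, w n * (rel (K1 ++ K0) n - rel K0 n) ≤ gs n1 a)
    (hx : x.length ≤ n1) :
    ∃ w', Base n1 a (x :: (E1 ++ E0)) (K1 ++ K0) (t + 1) w' := by
  have hc0 : ∀ n ∈ gS n1 a, cnt E0 n * 2 ^ cc ≤ 2 ^ n := fun n hn =>
    (Nat.mul_le_mul_right _ (cnt_big x E1 E0 n)).trans (hc n hn)
  have hg := gs_pos n1 a
  have ha' : (0 : ℝ) < 16 * (a : ℝ) := by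
    have : (0 : ℝ) < a := by exact_mod_cast ha
    positivity
  obtain ⟨⟨w', hw'⟩, -⟩ := upd_weights ha' hg (Real.rpow_pos_of_pos two_pos (-(a : ℝ)))
    (fun n hn => Base.le_w hc0 h hn) (gs_small n1 a) h.1 (fun n _ => rel_big' K1 K0 n)
    (fun n _ => rel_big x E1 E0 n) hsp
  have hlow : (low n1 E0 : ℝ) + 1 ≤ low n1 (x :: (E1 ++ E0)) := by
    have := low_big n1 x E1 E0
    rw [if_pos hx] at this
    exact_mod_cast this
  refine ⟨w', hw'.congr_mono ha'.le (fun n _ => le_rfl) ?_, ?_⟩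
  · have := mul_le_mul_of_nonneg_left hlow (mul_nonneg ha'.le hg.le)
    linarith
  · have h1 := mul_le_mul_of_nonneg_left hlow hg.le
    have h2 : (2 : ℝ) ^ a * ∑ n ∈ gS n1 a, rel E0 n ≤
        2 ^ a * ∑ n ∈ gS n1 a, rel (x :: (E1 ++ E0)) n :=
      mul_le_mul_of_nonneg_left (Finset.sum_le_sum fun n _ => rel_big x E1 E0 n) (by positivity)
    have h3 := h.2
    push_cast
    linarith

/-- The attempt ends since the others spend too much. -/
theorem renew_over {n1 a : ℕ} (ha : 1 ≤ a) {E0 K0 E1 K1 : List Str} {t : ℕ} {w : ℕ → ℝ} {x : Str}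
    (hE : (x :: (E1 ++ E0)).Nodup)
    (hc : ∀ n ∈ gS n1 a, cnt (x :: (E1 ++ E0)) n * 2 ^ cc ≤ 2 ^ n)
    (h : Base n1 a E0 K0 t w)
    (hsp : ∑ n ∈ gS n1 a, w n * (rel (K1 ++ K0) n - rel K0 n) ≤ gs n1 a)
    (ho : gs n1 a < ∑ n ∈ gS n1 a, w n * (rel (x :: (E1 ++ E0)) n - rel E0 n)) :
    ∃ w', Base n1 a (x :: (E1 ++ E0)) (K1 ++ K0) (t + 1) w' := by
  have hc0 : ∀ n ∈ gS n1 a, cnt E0 n * 2 ^ cc ≤ 2 ^ n := fun n hn =>
    (Nat.mul_le_mul_right _ (cnt_big x E1 E0 n)).trans (hc n hn)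
  have hE0 : E0.Nodup := (List.nodup_append.1 (List.nodup_cons.1 hE).2).2.1
  have hg := gs_pos n1 a
  have ha' : (0 : ℝ) < 16 * (a : ℝ) := by
    have : (0 : ℝ) < a := by exact_mod_cast ha
    positivity
  obtain ⟨-, h2⟩ := upd_weights ha' hg (Real.rpow_pos_of_pos two_pos (-(a : ℝ)))
    (fun n hn => Base.le_w hc0 h hn) (gs_small n1 a) h.1 (fun n _ => rel_big' K1 K0 n)
    (fun n _ => rel_big x E1 E0 n) hsp
  obtain ⟨w', hw'⟩ := h2 ho
  have hlow : (low n1 E0 : ℝ) ≤ low n1 (x :: (E1 ++ E0)) := by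
    have := low_big n1 x E1 E0
    exact_mod_cast (Nat.le_add_right _ _).trans this
  refine ⟨w', hw'.congr_mono ha'.le (fun n _ => le_rfl) ?_, ?_⟩
  · have := mul_le_mul_of_nonneg_left hlow (mul_nonneg ha'.le hg.le)
    linarith
  · have h1 := mul_le_mul_of_nonneg_left hlow hg.le
    have h3 := h.2
    have h4 : ∑ n ∈ gS n1 a, w n * (rel (x :: (E1 ++ E0)) n - rel E0 n) ≤
        2 ^ a * ∑ n ∈ gS n1 a, rel (x :: (E1 ++ E0)) n - 2 ^ a * ∑ n ∈ gS n1 a, rel E0 n := by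
      rw [← mul_sub, ← Finset.sum_sub_distrib, Finset.mul_sum]
      refine Finset.sum_le_sum fun n hn => ?_
      exact mul_le_mul_of_nonneg_right (Base.w_le hE0 h hn)
        (sub_nonneg.2 (rel_big x E1 E0 n))
    push_cast
    linarith

/-- During an attempt we have killed at most one quarter of each length. -/
theorem quarter {n1 a : ℕ} (ha : 1 ≤ a) {E0 K0 K1 : List Str} {t : ℕ} {w : ℕ → ℝ}
    (hE : E0.Nodup) (hc : ∀ n ∈ gS n1 a, cnt E0 n * 2 ^ cc ≤ 2 ^ n)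
    (h : Base n1 a E0 K0 t w)
    (hsp : ∑ n ∈ gS n1 a, w n * (rel (K1 ++ K0) n - rel K0 n) ≤ gs n1 a)
    {n : ℕ} (hn : n ∈ gS n1 a) : 4 * cnt (K1 ++ K0) n ≤ 2 ^ n := by
  have hw : ∀ m ∈ gS n1 a, (2 : ℝ) ^ (-(a : ℝ)) ≤ w m := fun m hm => Base.le_w hc h hm
  have hw0 : ∀ m ∈ gS n1 a, 0 ≤ w m := fun m hm =>
    (Real.rpow_pos_of_pos two_pos (-(a : ℝ))).le.trans (hw m hm)
  have hrel : ∀ m, rel (K1 ++ K0) m - rel K0 m = rel K1 m := fun m => by
    rw [rel_append]; ring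
  have h1 : w n * rel K1 n ≤ gs n1 a := by
    refine le_trans ?_ hsp
    rw [← hrel n]
    refine Finset.single_le_sum (f := fun m => w m * (rel (K1 ++ K0) m - rel K0 m))
      (fun m hm => ?_) hn
    show 0 ≤ w m * (rel (K1 ++ K0) m - rel K0 m)
    rw [hrel m]
    exact mul_nonneg (hw0 m hm) (rel_nonneg K1 m)
  have h2 : ((2 : ℝ) ^ a)⁻¹ * rel K1 n ≤ gs n1 a := by
    refine le_trans ?_ h1
    have h3 := hw n hn
    rw [Real.rpow_neg two_pos.le, Real.rpow_natCast] at h3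
    exact mul_le_mul_of_nonneg_right h3 (rel_nonneg K1 n)
  have h3 : rel K1 n ≤ 1 / 64 := by
    have h4 : rel K1 n ≤ gs n1 a * 2 ^ a := by
      rw [inv_mul_le_iff₀ (by positivity)] at h2
      linarith
    refine h4.trans ?_
    unfold gs
    have e : (2 : ℝ) ^ (2 * a + n1 + 6) = 2 ^ a * (2 ^ (a + n1) * 64) := by
      rw [show (64 : ℝ) = 2 ^ 6 by norm_num, ← pow_add, ← pow_add]
      congr 1
      ring
    rw [e, mul_inv, mul_comm, ← mul_assoc, mul_inv_cancel₀ (by positivity), one_mul, one_div]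
    rw [inv_le_inv₀ (by positivity) (by norm_num)]
    have : (1 : ℝ) ≤ 2 ^ (a + n1) := one_le_pow₀ (by norm_num)
    linarith
  have h5 := Base.relK_le ha hE hc h hn
  have h6 : rel (K1 ++ K0) n ≤ 1 / 4 := by
    rw [rel_append]
    linarith
  unfold rel at h6
  rw [div_le_iff₀ (by positivity)] at h6
  have h7 : ((4 * cnt (K1 ++ K0) n : ℕ) : ℝ) ≤ ((2 ^ n : ℕ) : ℝ) := by
    push_cast
    linarith
  exact_mod_cast h7

end Pool.Agent.H861R3.NT
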