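import Pool.Agent.H861R3.NT.VD

/-! # The machine -/

namespace Pool.Agent.H861R3.NT

open Pool.Agent.H544R2
open Pool.Agent.NPC (valB)

section Mach

/-- one step of the log -/
def stp (o : Option Str) (l : List Str) : List Str :=
  match o with
  | some x => if x ∈ l then l else l ++ [x]
  | none => l

/-- the log of the strings in the sets `A s` -/
def lg (A : ℕ → List Str) : ℕ → List Str
  | 0 => []
  | s + 1 => stp ((A s.unpair.1)[s.unpair.2]?) (lg A s)

/-- the string named by a program, given the log -/
def nth (l : List Str) (p : Str) : Option Str :=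
  (l.filterMap (fun x => if x.length = p.length + 1 then some x else none))[valB (p.drop 1)]?

/-- the machine, given the log -/
def UW (l : List Str) (k : ℕ) (p : Str) : Option Str :=
  if p.take 6 = List.replicate 6 false then Vn k (p.drop 6)
  else if p.take 1 = [true] then nth l p
  else none

/-- `k` steps of the machine -/
def Um (A : ℕ → List Str) (k : ℕ) (p : Str) : Option Str := UW (lg A k) k p

theorem prim_stp : Primrec₂ stp := by
  have h : Primrec (fun x : Option Str × List Str =>
      Option.casesOn (motive := fun _ => List Str) x.1 x.2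
        (fun y => if y ∈ x.2 then x.2 else x.2 ++ [y])) := by
    refine Primrec.option_casesOn Primrec.fst Primrec.snd ?_
    have hm : PrimrecPred (fun z : (Option Str × List Str) × Str => z.2 ∈ z.1.2) := by
      have h1 : PrimrecPred (fun z : (Option Str × List Str) × Str => ∃ w ∈ z.1.2, w = z.2) :=
        prim_exists_mem (Primrec.snd.comp Primrec.fst)
          (Primrec.eq.comp Primrec.snd (Primrec.snd.comp Primrec.fst))
      exact h1.of_eq fun z => by simp
    exact Primrec.ite hm (Primrec.snd.comp Primrec.fst)
      (Primrec.list_append.comp (Primrec.snd.comp Primrec.fst)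
        (Primrec.list_cons.comp Primrec.snd (Primrec.const [])))
  refine h.of_eq fun x => ?_
  rcases x with ⟨o, l⟩
  cases o <;> rfl

theorem comp_lg {A : ℕ → List Str} (hA : Computable A) : Computable (lg A) := by
  have hstep : Computable₂ (fun (_ : ℕ) (y : ℕ × List Str) =>
      stp ((A y.1.unpair.1)[y.1.unpair.2]?) y.2) := by
    have h1 : Computable (fun z : ℕ × ℕ × List Str => A z.2.1.unpair.1) :=
      hA.comp (Computable.fst.comp (Computable.unpair.comp (Computable.fst.comp Computable.snd)))
    have h2 : Computable (fun z : ℕ × ℕ × List Str => z.2.1.unpair.2) :=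
      Computable.snd.comp (Computable.unpair.comp (Computable.fst.comp Computable.snd))
    have h3 : Computable (fun z : ℕ × ℕ × List Str => (A z.2.1.unpair.1)[z.2.1.unpair.2]?) :=
      Computable.list_getElem?.comp h1 h2
    exact prim_stp.to_comp.comp h3 (Computable.snd.comp Computable.snd)
  refine (Computable.nat_rec (f := fun s : ℕ => s) (g := fun _ => ([] : List Str))
    Computable.id (Computable.const []) hstep).of_eq fun s => ?_
  induction s with
  | zero => rfl
  | succ s ih =>
    rw [lg, ← ih]

theorem prim_UW : Primrec (fun x : List Str × ℕ × Str => UW x.1 x.2.1 x.2.2) := by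
  unfold UW nth
  have hp : Primrec (fun x : List Str × ℕ × Str => x.2.2) := Primrec.snd.comp Primrec.snd
  have hk : Primrec (fun x : List Str × ℕ × Str => x.2.1) := Primrec.fst.comp Primrec.snd
  refine Primrec.ite (Primrec.eq.comp (Primrec.list_take.comp (Primrec.const 6) hp)
    (Primrec.const _)) ?_ (Primrec.ite (Primrec.eq.comp (Primrec.list_take.comp (Primrec.const 1) hp)
    (Primrec.const _)) ?_ (Primrec.const none))
  · exact prim_Vn.comp (Primrec.pair hk (Primrec.list_drop.comp (Primrec.const 6) hp))
  · refine Primrec.list_getElem?.comp ?_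
      (prim_valB.comp (Primrec.list_drop.comp (Primrec.const 1) hp))
    refine Primrec.listFilterMap Primrec.fst ?_
    exact Primrec.ite (Primrec.eq.comp (Primrec.list_length.comp Primrec.snd)
      (Primrec.succ.comp (Primrec.list_length.comp (hp.comp Primrec.fst))))
      (Primrec.option_some.comp Primrec.snd) (Primrec.const none)

theorem comp_Um {A : ℕ → List Str} (hA : Computable A) :
    Computable₂ (fun (p : Str) (k : ℕ) => Um A k p) :=
  prim_UW.to_comp.comp (Computable.pair ((comp_lg hA).comp Computable.snd)
    (Computable.pair Computable.snd Computable.fst))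

theorem stp_prefix (o : Option Str) (l : List Str) : l <+: stp o l := by
  unfold stp
  split
  · split
    · exact List.prefix_refl _
    · exact List.prefix_append _ _
  · exact List.prefix_refl _

theorem lg_prefix (A : ℕ → List Str) {k k' : ℕ} (h : k ≤ k') : lg A k <+: lg A k' := by
  induction h with
  | refl => exact List.prefix_refl _
  | step _ ih => exact ih.trans (stp_prefix _ _)

theorem lg_nodup (A : ℕ → List Str) (k : ℕ) : (lg A k).Nodup := by
  induction k with
  | zero => exact List.nodup_nil
  | succ k ih =>
    rw [lg]
    unfold stp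
    split
    · split
      · exact ih
      · rename_i h
        rw [List.nodup_append]
        refine ⟨ih, List.nodup_singleton _, ?_⟩
        intro a ha b hb hab
        rw [List.mem_singleton] at hb
        subst hb
        subst hab
        exact h ha
    · exact ih

theorem mem_lg {A : ℕ → List Str} {k : ℕ} {x : Str} (h : x ∈ lg A k) : ∃ s ≤ k, x ∈ A s := by
  induction k with
  | zero => simp [lg] at h
  | succ k ih =>
    rw [lg] at h
    unfold stp at h
    split at h
    · rename_i y hy
      split at h
      · obtain ⟨s, hs, hx⟩ := ih h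
        exact ⟨s, by omega, hx⟩
      · rw [List.mem_append] at h
        rcases h with h | h
        · obtain ⟨s, hs, hx⟩ := ih h
          exact ⟨s, by omega, hx⟩
        · rw [List.mem_singleton] at h
          subst h
          exact ⟨k.unpair.1, le_trans (Nat.unpair_left_le k) (Nat.le_succ k),
            List.mem_of_getElem? hy⟩
    · obtain ⟨s, hs, hx⟩ := ih h
      exact ⟨s, by omega, hx⟩

theorem exists_lg {A : ℕ → List Str} {s : ℕ} {x : Str} (h : x ∈ A s) : ∃ k, x ∈ lg A k := by
  obtain ⟨j, hj⟩ := List.mem_iff_getElem?.1 h
  refine ⟨Nat.pair s j + 1, ?_⟩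
  rw [lg, Nat.unpair_pair, hj]
  unfold stp
  simp only
  split
  · assumption
  · simp

theorem A_mono {A : ℕ → List Str} (hmono : ∀ s, ∀ x ∈ A s, x ∈ A (s + 1)) {s s' : ℕ}
    (h : s ≤ s') {x : Str} (hx : x ∈ A s) : x ∈ A s' := by
  induction h with
  | refl => exact hx
  | step _ ih => exact hmono _ _ ih

/-- the entries of length `n` -/
def fl (l : List Str) (n : ℕ) : List Str :=
  l.filterMap (fun x => if x.length = n then some x else none)

theorem mem_fl {l : List Str} {n : ℕ} {x : Str} : x ∈ fl l n ↔ x ∈ l ∧ x.length = n := by
  unfold fl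
  rw [List.mem_filterMap]
  constructor
  · rintro ⟨y, hy, h⟩
    split_ifs at h with hc
    rw [← Option.some.inj h]
    exact ⟨hy, hc⟩
  · rintro ⟨h1, h2⟩
    exact ⟨x, h1, by rw [if_pos h2]⟩

theorem fl_nodup {l : List Str} (h : l.Nodup) (n : ℕ) : (fl l n).Nodup := by
  unfold fl
  refine h.filterMap ?_
  intro a b c ha hb
  rw [Option.mem_def] at ha hb
  split_ifs at ha hb
  rw [Option.some.inj ha, Option.some.inj hb]

theorem fl_prefix {l l' : List Str} (h : l <+: l') (n : ℕ) : fl l n <+: fl l' n := by
  obtain ⟨t, rfl⟩ := h
  unfold fl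
  rw [List.filterMap_append]
  exact List.prefix_append _ _

theorem nth_eq (l : List Str) (p : Str) : nth l p = (fl l (p.length + 1))[valB (p.drop 1)]? := rfl

theorem nth_mono {l l' : List Str} (h : l <+: l') {p x : Str} (hx : x ∈ nth l p) :
    x ∈ nth l' p := by
  rw [nth_eq] at hx ⊢
  obtain ⟨t, ht⟩ := fl_prefix h (p.length + 1)
  rw [← ht]
  rw [Option.mem_def] at hx ⊢
  rw [List.getElem?_append_left (List.getElem?_eq_some_iff.1 hx).1]
  exact hx

theorem Um_mono {A : ℕ → List Str} {k k' : ℕ} (h : k ≤ k') {p x : Str} (hx : x ∈ Um A k p) :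
    x ∈ Um A k' p := by
  unfold Um UW at *
  by_cases h1 : p.take 6 = List.replicate 6 false
  · rw [if_pos h1] at hx ⊢
    exact Vn_mono h hx
  · rw [if_neg h1] at hx ⊢
    by_cases h2 : p.take 1 = [true]
    · rw [if_pos h2] at hx ⊢
      exact nth_mono (lg_prefix A h) hx
    · rw [if_neg h2] at hx
      simp at hx

/-- the machine -/
def UM (A : ℕ → List Str) : List Bool →. List Bool := fun p => Nat.rfindOpt (fun k => Um A k p)

end Mach

/-- A recursively enumerable set with at most `2 ^ n / 4` strings of every length `n` can be added
to the set of the strings which are not random. -/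
theorem exists_machine {A : ℕ → List Str} (hA : Computable A)
    (hmono : ∀ s, ∀ x ∈ A s, x ∈ A (s + 1))
    (hcnt : ∀ (s n : ℕ) (D : List Str), D.Nodup → (∀ x ∈ D, x ∈ A s ∧ x.length = n) →
      4 * D.length ≤ 2 ^ n) :
    ∃ U : List Bool →. List Bool, IsUniversal U ∧
      ∀ x, x ∉ randomStrings U ↔ (∃ s, x ∈ Vdead s) ∨ ∃ s, x ∈ A s := by
  have hmem : ∀ p x : Str, x ∈ UM A p ↔ ∃ k, x ∈ Um A k p := fun p x =>
    Nat.rfindOpt_mono (f := fun k => Um A k p) fun hmn ha => Um_mono hmn ha
  refine ⟨UM A, ⟨Partrec.rfindOpt (comp_Um hA), ?_⟩, ?_⟩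
  · intro M hM
    obtain ⟨e, he⟩ := Vn_universal hM
    refine ⟨List.replicate 6 false ++ (List.replicate e false ++ [true]), fun p => ?_⟩
    apply Part.ext
    intro x
    rw [hmem, he]
    have h1 : List.replicate 6 false ++ (List.replicate e false ++ [true]) ++ p =
        List.replicate 6 false ++ (List.replicate e false ++ true :: p) := by simp
    have h2 : ∀ k, Um A k (List.replicate 6 false ++ (List.replicate e false ++ [true]) ++ p) =
        Vn k (List.replicate e false ++ true :: p) := by
      intro k
      unfold Um UW
      rw [h1, List.take_left' (by simp), if_pos rfl, List.drop_left' (by simp)]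
    simp only [h2]
  · intro x
    rw [mem_randomStrings]
    push Not
    constructor
    · rintro ⟨p, hp, hlen⟩
      obtain ⟨k, hk⟩ := (hmem p x).1 hp
      unfold Um UW at hk
      split_ifs at hk with h1 h2
      · left
        refine Vdead_iff.2 ⟨p.drop 6, k, hk, ?_⟩
        have h3 : 6 ≤ p.length := by
          have := congrArg List.length h1
          rw [List.length_take, List.length_replicate] at this
          omega
        rw [List.length_drop]
        unfold cc
        omega
      · right
        rw [nth_eq, Option.mem_def] at hk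
        have h3 := (mem_fl.1 (List.mem_of_getElem? hk)).1
        obtain ⟨s, _, hs⟩ := mem_lg h3
        exact ⟨s, hs⟩
      · simp at hk
    · rintro (h | ⟨s, hs⟩)
      · obtain ⟨p, k, hk, hl⟩ := Vdead_iff.1 h
        refine ⟨List.replicate 6 false ++ p, (hmem _ _).2 ⟨k, ?_⟩, ?_⟩
        · unfold Um UW
          rw [List.take_left' (by simp), if_pos rfl, List.drop_left' (by simp)]
          exact hk
        · unfold cc at hl
          rw [List.length_append, List.length_replicate]
          omega
      · obtain ⟨k, hk⟩ := exists_lg hs
        have hm : x ∈ fl (lg A k) x.length := mem_fl.2 ⟨hk, rfl⟩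
        obtain ⟨j, hj⟩ := List.mem_iff_getElem?.1 hm
        have hjl : j < (fl (lg A k) x.length).length := (List.getElem?_eq_some_iff.1 hj).1
        have hc : 4 * (fl (lg A k) x.length).length ≤ 2 ^ x.length := by
          refine hcnt k x.length _ (fl_nodup (lg_nodup A k) _) ?_
          intro y hy
          rw [mem_fl] at hy
          obtain ⟨s', hs', hy'⟩ := mem_lg hy.1
          exact ⟨A_mono hmono hs' hy', hy.2⟩
        have hn : 2 ≤ x.length := by
          by_contra hcon
          have : 2 ^ x.length ≤ 2 ^ 1 := Nat.pow_le_pow_right (by norm_num) (by omega)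
          omega
        have hpow : 2 ^ x.length = 4 * 2 ^ (x.length - 2) := by
          rw [show (4 : ℕ) = 2 ^ 2 by norm_num, ← pow_add]
          congr 1
          omega
        have hj2 : j < 2 ^ (x.length - 2) := by omega
        have hlen : (true :: fb (x.length - 2) j).length + 1 = x.length := by
          rw [List.length_cons, fb_length]
          omega
        refine ⟨true :: fb (x.length - 2) j, (hmem _ _).2 ⟨k, ?_⟩, by omega⟩
        unfold Um UW
        rw [if_neg (by
          rw [List.take_succ_cons, List.replicate_succ]
          simp), if_pos (by simp), nth_eq, hlen]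
        rw [List.drop_one, List.tail_cons, valB_fb hj2]
        exact hj

end Pool.Agent.H861R3.NT
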