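import Pool.Agent.H861R3.NT.Dyn2
import Pool.Agent.H861R3.NT.Dyn3
import Pool.Agent.H861R3.NT.Mach

/-! # The requirements are satisfied -/

namespace Pool.Agent.H861R3.NT

open Pool.Agent.H544R2
open Nat.Partrec (Code)

private theorem lim_eval_le (p : Polynomial ℕ) {i m : ℕ} (hm : 1 ≤ m)
    (hi : p.natDegree + p.eval 1 ≤ i) : p.eval m ≤ bnd i m := by
  have h1 : p.eval m ≤ p.eval 1 * m ^ p.natDegree := by
    rw [Polynomial.eval_eq_sum_range, Polynomial.eval_eq_sum_range, Finset.sum_mul]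
    refine Finset.sum_le_sum fun j hj => ?_
    rw [one_pow, mul_one]
    refine Nat.mul_le_mul_left _ (Nat.pow_le_pow_right hm ?_)
    have := Finset.mem_range.mp hj
    omega
  unfold bnd
  rcases Nat.lt_or_ge m 2 with h2 | h2
  · have hm1 : m = 1 := by omega
    subst hm1
    simp only [one_pow, mul_one] at h1 ⊢
    omega
  · have h3 : p.eval 1 ≤ m ^ p.eval 1 :=
      (Nat.lt_two_pow_self).le.trans (Nat.pow_le_pow_left h2 _)
    calc p.eval m ≤ p.eval 1 * m ^ p.natDegree := h1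
      _ ≤ m ^ p.eval 1 * m ^ p.natDegree := Nat.mul_le_mul_right _ h3
      _ = m ^ (p.natDegree + p.eval 1) := by rw [← pow_add, add_comm]
      _ ≤ m ^ i := Nat.pow_le_pow_right hm hi
      _ ≤ m ^ i + i := Nat.le_add_right _ _

/-- the number of a requirement for a computable function -/
theorem exists_req {f : Str → TT} (hf : Computable f) {p : Polynomial ℕ}
    (hp : ∀ x, (f x).1.length ≤ p.eval x.length ∧ ∀ q ∈ (f x).1, q.length ≤ p.eval x.length) :
    ∃ i : ℕ, ∀ (a : Par) (t : ℕ), 0 < pm a → ∃ s, reveal i s a t = some (f (fb (pm a) t)) := by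
  obtain ⟨c, hc⟩ := Code.exists_code.1 hf
  refine ⟨Nat.pair (Encodable.encode c) (p.natDegree + p.eval 1), ?_⟩
  intro a t ha
  set x := fb (pm a) t with hx
  have hxl : x.length = pm a := fb_length _ _
  have h1 : Encodable.encode (f x) ∈ Code.eval c (Encodable.encode x) := by
    rw [hc]
    simp
  obtain ⟨s, hs⟩ := Code.evaln_complete.1 h1
  refine ⟨s, ?_⟩
  have hb : p.eval x.length ≤ bnd (Nat.pair (Encodable.encode c) (p.natDegree + p.eval 1))
      (pm a) := by
    rw [hxl]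
    exact lim_eval_le p ha (Nat.right_le_pair _ _)
  unfold reveal
  rw [Nat.unpair_pair]
  simp only [Denumerable.ofNat_encode]
  rw [← hx, Option.mem_def.1 hs]
  simp only [Option.bind_some, Encodable.encodek]
  rw [if_pos ⟨(hp x).1.trans hb, fun q hq => ((hp x).2 q hq).trans hb⟩]

private theorem lim_step (pr : ℕ → Par) (i s : ℕ) :
    pt (pos pr i s).1 ≤ pt (pos pr i (s + 1)).1 ∧
      (pt (pos pr i (s + 1)).1 = pt (pos pr i s).1 → pb (pos pr i s).1 = true →
        pb (pos pr i (s + 1)).1 = true) := by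
  rcases Nat.lt_or_ge i s with hi | hi
  · rw [pos_succ pr hi]
    have key : ∀ (P Q : Pos), Reply (pT (pr i)) P Q → pt P ≤ pt Q ∧
        (pt Q = pt P → pb P = true → pb Q = true) := by
      rintro P Q ⟨-, -, ⟨h1, -, h2⟩ | ⟨h1, -, -, -⟩⟩
      · exact ⟨h1.ge, fun _ => h2⟩
      · exact ⟨by omega, fun h => by omega⟩
    rcases upd_cases i s (pr i) (run pr s) (pos pr i s) with h | ⟨x, Q, -, -, -, hr, h⟩ |
      ⟨y, Q, -, -, -, hr, h⟩
    · rw [h]; exact ⟨le_rfl, fun _ h => h⟩
    · rw [h]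
      have h5 := key _ _ hr
      exact h5
    · rw [h]
      have h5 := key _ _ hr
      exact h5
  · rw [pos_of_le pr (show s ≤ i + 1 by omega), pos_of_le pr (show s + 1 ≤ i + 1 by omega)]
    exact ⟨le_rfl, fun _ h => h⟩

private theorem lim_mono (pr : ℕ → Par) (i : ℕ) {s s' : ℕ} (h : s ≤ s') :
    pt (pos pr i s).1 ≤ pt (pos pr i s').1 ∧
      (pt (pos pr i s').1 = pt (pos pr i s).1 → pb (pos pr i s).1 = true →
        pb (pos pr i s').1 = true) := by
  induction s', h using Nat.le_induction with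
  | base => exact ⟨le_rfl, fun _ h => h⟩
  | succ n hn ih =>
    obtain ⟨h1, h2⟩ := ih
    obtain ⟨h3, h4⟩ := lim_step pr i n
    refine ⟨h1.trans h3, fun he hb => ?_⟩
    exact h4 (by omega) (h2 (by omega) hb)

/-- the bit at rest says whether the input is in the set -/
theorem rest_bit {pr : ℕ → Par} (h : GoodSeq pr) {i s0 : ℕ} (hi : i < s0)
    (h0 : ∀ s, s0 ≤ s → pos pr i s = pos pr i s0) :
    fb (pm (pr i)) (pt (pos pr i s0).1) ∈ Wset pr ↔ pb (pos pr i s0).1 = true := by
  constructor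
  · rintro ⟨s, j, hj, hb, he⟩
    have hl := congrArg List.length he
    rw [fb_length, fb_length] at hl
    have hij := pm_inj h hl
    subst hij
    have hg := (h.2 i).1
    have hT : pT (pr i) ≤ 2 ^ pm (pr i) := hg.2.2.2.2.2.2.1
    have ht0 := (dinv h i s0).t_lt
    have ht := (dinv h i s).t_lt
    have hv := congrArg NPC.valB he
    rw [valB_fb (lt_of_lt_of_le ht0 hT), valB_fb (lt_of_lt_of_le ht hT)] at hv
    rcases Nat.lt_or_ge s s0 with hs | hs
    · exact (lim_mono pr i hs.le).2 hv hb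
    · rw [← h0 s hs]; exact hb
  · intro hb
    exact ⟨s0, i, hi, hb, rfl⟩

/-- The dead strings of length at most `n2` at rest. -/
theorem rest_dead {pr : ℕ → Par} (h : GoodSeq pr) {i s0 : ℕ} (hi : i < s0)
    (h0 : ∀ s, s0 ≤ s → pos pr i s = pos pr i s0) {x : Str} (hx : x.length ≤ pn2 (pr i)) :
    ((∃ s, x ∈ Vdead s) ∨ ∃ s, x ∈ Akill pr s) ↔
      x ∈ pE (pos pr i s0).1 ++ pK (pos pr i s0).1 := by
  rw [List.mem_append]
  constructor
  · rintro (⟨s, hs⟩ | ⟨s, hs⟩)
    · exact Or.inl (rest_ext h hi h0 (Or.inl ⟨hs, hx⟩))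
    · obtain ⟨j, hj, hk⟩ := (mem_Akill pr s x).1 hs
      rcases lt_trichotomy j i with hji | hji | hji
      · exact Or.inl (rest_ext h hi h0 (Or.inr ⟨j, hji, hk⟩))
      · subst hji
        have h1 := kills_mono pr (le_max_left s s0) hk
        rw [h0 _ (le_max_right s s0)] at h1
        rcases List.mem_append.1 h1 with h2 | h2
        · exact Or.inr h2
        · have := ((dinv h j s0).long x h2).1
          omega
      · have h1 := (kills_length h hk).1
        have h2 := pn1_mono h hji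
        have h3 : pn2 (pr i) ≤ pn3 (pr i) := (h.2 i).1.2.2.2.1
        omega
  · rintro (hE | hK)
    · rcases ((dinv h i s0).ext x hE).2 with h1 | ⟨j, hj, h1⟩
      · exact Or.inl ⟨s0, h1⟩
      · exact Or.inr ⟨s0, (mem_Akill pr s0 x).2 ⟨j, hj.trans hi, h1⟩⟩
    · exact Or.inr ⟨s0, (mem_Akill pr s0 x).2 ⟨i, hi, List.mem_append.2 (Or.inl hK)⟩⟩

/-- The set is not reducible to the random strings. -/
theorem not_red {pr : ℕ → Par} (h : GoodSeq pr) {R : Set Str}
    (hR : ∀ x, x ∉ R ↔ (∃ s, x ∈ Vdead s) ∨ ∃ s, x ∈ Akill pr s) :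
    ¬ ∃ f, RedBy f (Wset pr) R := by
  classical
  rintro ⟨f, hf, ⟨p, hp⟩, hred⟩
  obtain ⟨i, hreq⟩ := exists_req hf hp
  obtain ⟨s0, hi, h0⟩ := exists_rest h i
  have hg := (h.2 i).1
  have hpm : 0 < pm (pr i) := lt_of_le_of_lt (Nat.zero_le _) hg.1
  obtain ⟨s', hs'⟩ := hreq (pr i) (pt (pos pr i s0).1) hpm
  obtain ⟨F, hF⟩ := rest_known h hi h0 hs'
  have hinv := dinv h i s0
  obtain ⟨y, s'', hy, hFy, hlong⟩ := hinv.known F hF
  have e1 := reveal_mono (le_max_left s' s'') hs'
  have e2 := reveal_mono (le_max_right s' s'') hy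
  rw [e1] at e2
  have hyf : f (fb (pm (pr i)) (pt (pos pr i s0).1)) = y := Option.some.inj e2
  have hOK := (hg.2.2.2.2.2.2.2.2.2 _ hinv.mem).1.2 F hF
  rw [hFy, evalF_tabF] at hOK
  have hcong : evalTT y (fun x => decide (x.length ≤ pn2 (pr i) ∧
      x ∉ pE (pos pr i s0).1 ++ pK (pos pr i s0).1)) = evalTT y (fun q => decide (q ∈ R)) := by
    unfold evalTT
    congr 2
    refine List.map_congr_left fun q hq => ?_
    rw [decide_eq_decide]
    rcases Nat.lt_or_ge (pn2 (pr i)) q.length with hl | hl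
    · have h1 : q ∈ Akill pr s0 :=
        (mem_Akill pr s0 q).2 ⟨i, hi, List.mem_append.2 (Or.inr (hlong q hq hl))⟩
      have h2 : q ∉ R := (hR q).2 (Or.inr ⟨s0, h1⟩)
      constructor
      · rintro ⟨h3, -⟩; omega
      · intro h3; exact absurd h3 h2
    · have h1 := rest_dead h hi h0 hl
      have h2 := hR q
      rw [h1] at h2
      constructor
      · rintro ⟨-, h3⟩
        by_contra h4
        exact h3 (h2.1 h4)
      · intro h3
        exact ⟨hl, fun h4 => (h2.2 h4) h3⟩
  have hW := hred (fb (pm (pr i)) (pt (pos pr i s0).1))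
  rw [rest_bit h hi h0, hyf] at hW
  have hW' : pb (pos pr i s0).1 = true ↔ evalTT y (fun q => decide (q ∈ R)) = true := by
    convert hW
  rw [hcong] at hOK
  apply hOK
  exact (Bool.eq_iff_iff.2 hW').symm

end Pool.Agent.H861R3.NT
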