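import Pool.Agent.H861R3.NT.Defs

/-! # Primitive recursiveness, part 1 -/

namespace Pool.Agent.H861R3.NT

open Pool.Agent.H544R2
open Pool.Agent.NPC (valB)
open Nat.Partrec (Code)
open Primrec

theorem prim_fb : Primrec₂ fb := by
  unfold fb
  refine list_take.comp fst ?_
  refine list_append.comp (prim_bits.comp snd) ?_
  have h : Primrec (fun x : ℕ × ℕ => (List.range x.1).map (fun _ => false)) :=
    list_map (list_range.comp fst) (Primrec.const false).to₂
  refine h.of_eq fun x => ?_
  rw [List.map_const', List.length_range]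

theorem prim_allL : Primrec allL := by
  unfold allL
  exact list_map (list_range.comp (nat_pow.comp (Primrec.const 2) Primrec.id))
    (prim_fb.comp fst snd).to₂

theorem prim_upTo : Primrec upTo := by
  unfold upTo
  exact list_flatMap (list_range.comp Primrec.succ) (prim_allL.comp snd).to₂

theorem prim_cnt : Primrec₂ cnt := by
  have h : Primrec₂ (fun (l : List Str) (n : ℕ) =>
      l.filterMap (fun x => if x.length = n then some x else none)) := by
    refine listFilterMap fst ?_
    exact Primrec.ite (Primrec.eq.comp (list_length.comp snd) (snd.comp fst))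
      (option_some.comp snd) (Primrec.const none)
  have h2 : Primrec₂ (fun (l : List Str) (n : ℕ) =>
      (l.filterMap (fun x => if x.length = n then some x else none)).length) :=
    list_length.comp h
  refine h2.of_eq fun l n => ?_
  unfold cnt
  congr 1
  rw [← List.filterMap_eq_filter]
  congr 1
  funext x
  by_cases hx : x.length = n <;> simp [hx, Option.guard]

theorem prim_bnd : Primrec₂ bnd := by
  unfold bnd
  exact Primrec.nat_add.comp (nat_pow.comp snd fst) fst

theorem prim_addE : Primrec₂ addE := by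
  unfold addE
  exact Primrec.pair (list_cons.comp fst (fst.comp snd)) (Primrec.pair (fst.comp (snd.comp snd))
    (Primrec.pair (fst.comp (snd.comp (snd.comp snd))) (Primrec.pair
      (fst.comp (snd.comp (snd.comp (snd.comp snd))))
      (snd.comp (snd.comp (snd.comp (snd.comp snd)))))))

theorem prim_setF : Primrec₂ setF := by
  unfold setF
  exact Primrec.pair (fst.comp snd) (Primrec.pair (fst.comp (snd.comp snd))
    (Primrec.pair (fst.comp (snd.comp (snd.comp snd))) (Primrec.pair
      (fst.comp (snd.comp (snd.comp (snd.comp snd))))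
      (option_some.comp fst))))

theorem prim_evalF : Primrec (fun x : ℕ × List Bool × List Str => evalF x.1 x.2.1 x.2.2) := by
  unfold evalF
  refine (list_getD false).comp (fst.comp snd) (prim_valB.comp ?_)
  refine list_map (prim_upTo.comp fst) ?_
  have h : PrimrecRel (fun (x : ℕ × List Bool × List Str) (y : Str) => y ∈ x.2.2) := by
    have h1 : PrimrecPred (fun z : (ℕ × List Bool × List Str) × Str =>
        ∃ w ∈ z.1.2.2, w = z.2) :=
      prim_exists_mem (snd.comp (snd.comp fst)) (Primrec.eq.comp snd (snd.comp fst))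
    exact h1.of_eq fun z => by simp
  exact PrimrecRel.decide h

theorem prim_Reply : PrimrecPred (fun x : ℕ × Pos × Pos => Reply x.1 x.2.1 x.2.2) := by
  have hP : Primrec (fun x : ℕ × Pos × Pos => x.2.1) := fst.comp snd
  have hQ : Primrec (fun x : ℕ × Pos × Pos => x.2.2) := snd.comp snd
  have eP : Primrec (fun x : ℕ × Pos × Pos => pE x.2.1) := fst.comp hP
  have eQ : Primrec (fun x : ℕ × Pos × Pos => pE x.2.2) := fst.comp hQ
  have kP : Primrec (fun x : ℕ × Pos × Pos => pK x.2.1) := fst.comp (snd.comp hP)
  have kQ : Primrec (fun x : ℕ × Pos × Pos => pK x.2.2) := fst.comp (snd.comp hQ)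
  have tP : Primrec (fun x : ℕ × Pos × Pos => pt x.2.1) := fst.comp (snd.comp (snd.comp hP))
  have tQ : Primrec (fun x : ℕ × Pos × Pos => pt x.2.2) := fst.comp (snd.comp (snd.comp hQ))
  have bP : Primrec (fun x : ℕ × Pos × Pos => pb x.2.1) :=
    fst.comp (snd.comp (snd.comp (snd.comp hP)))
  have bQ : Primrec (fun x : ℕ × Pos × Pos => pb x.2.2) :=
    fst.comp (snd.comp (snd.comp (snd.comp hQ)))
  have fP : Primrec (fun x : ℕ × Pos × Pos => pF x.2.1) :=
    snd.comp (snd.comp (snd.comp (snd.comp hP)))
  have fQ : Primrec (fun x : ℕ × Pos × Pos => pF x.2.2) :=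
    snd.comp (snd.comp (snd.comp (snd.comp hQ)))
  have h1 : PrimrecPred (fun x : ℕ × Pos × Pos => pE x.2.2 = pE x.2.1) := Primrec.eq.comp eQ eP
  have h2 : PrimrecPred (fun x : ℕ × Pos × Pos =>
      (pK x.2.2).drop ((pK x.2.2).length - (pK x.2.1).length) = pK x.2.1) :=
    Primrec.eq.comp (list_drop.comp (Primrec.nat_sub.comp (list_length.comp kQ)
      (list_length.comp kP)) kQ) kP
  have h3 : PrimrecPred (fun x : ℕ × Pos × Pos => pt x.2.2 = pt x.2.1) := Primrec.eq.comp tQ tP
  have h4 : PrimrecPred (fun x : ℕ × Pos × Pos => pF x.2.2 = pF x.2.1) := Primrec.eq.comp fQ fP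
  have h5 : PrimrecPred (fun x : ℕ × Pos × Pos => ¬ pb x.2.1 = true ∨ pb x.2.2 = true) :=
    PrimrecPred.or (PrimrecPred.not (Primrec.eq.comp bP (Primrec.const true)))
      (Primrec.eq.comp bQ (Primrec.const true))
  have h6 : PrimrecPred (fun x : ℕ × Pos × Pos => pt x.2.2 = pt x.2.1 + 1) :=
    Primrec.eq.comp tQ (Primrec.succ.comp tP)
  have h7 : PrimrecPred (fun x : ℕ × Pos × Pos => pt x.2.2 < x.1) :=
    Primrec.nat_lt.comp tQ fst
  have h8 : PrimrecPred (fun x : ℕ × Pos × Pos => pb x.2.2 = false) :=
    Primrec.eq.comp bQ (Primrec.const false)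
  have h9 : PrimrecPred (fun x : ℕ × Pos × Pos => pF x.2.2 = none) :=
    Primrec.eq.comp fQ (Primrec.const none)
  refine (PrimrecPred.and h1 (PrimrecPred.and h2 (PrimrecPred.or
    (PrimrecPred.and h3 (PrimrecPred.and h4 h5))
    (PrimrecPred.and h6 (PrimrecPred.and h7 (PrimrecPred.and h8 h9)))))).of_eq fun x => ?_
  unfold Reply
  rw [imp_iff_not_or]

end Pool.Agent.H861R3.NT
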