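import Pool.Agent.H861R3.NT.Prim0

/-! # The run is computable -/

namespace Pool.Agent.H861R3.NT

open Pool.Agent.H544R2
open Pool.Agent.NPC (valB)
open Nat.Partrec (Code)
open Primrec

private theorem primB_filter {α β : Type*} [Primcodable α] [Primcodable β] {l : α → List β}
    {p : α → β → Prop} [∀ a, DecidablePred (p a)] (hl : Primrec l) (hp : PrimrecRel p) :
    Primrec (fun a => (l a).filter (fun b => decide (p a b))) := by
  have h1 : Primrec₂ (fun (a : α) (b : β) => if p a b then some b else none) :=
    Primrec.ite hp (option_some.comp snd) (Primrec.const none)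
  refine (listFilterMap hl h1).of_eq fun a => ?_
  rw [← List.filterMap_eq_filter]
  congr 1
  funext b
  by_cases h : p a b <;> simp [Option.guard, h]

private theorem primB_idxOf_congr {α' : Type*} (i1 i2 : BEq α') (h1 : @LawfulBEq α' i1)
    (h2 : @LawfulBEq α' i2) (x : α') (l : List α') :
    @List.idxOf α' i1 x l = @List.idxOf α' i2 x l := by
  unfold List.idxOf
  congr 1
  funext y
  rw [Bool.eq_iff_iff, @beq_iff_eq _ i1, @beq_iff_eq _ i2]

private theorem primB_idxOf {α β : Type*} [Primcodable α] [Primcodable β] [i1 : BEq β]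
    [h1 : LawfulBEq β] {x : α → β} {l : α → List β} (hx : Primrec x) (hl : Primrec l) :
    Primrec (fun a => (l a).idxOf (x a)) := by
  classical
  exact (Primrec.list_idxOf.comp hx hl).of_eq fun a => primB_idxOf_congr _ _ inferInstance h1 _ _

theorem prim_Vdead : Primrec Vdead := by
  unfold Vdead
  refine listFilterMap list_range ?_
  refine option_bind (Primrec.decode.comp snd) ?_
  refine option_bind (prim_Vn.comp (Primrec.pair (snd.comp snd) (fst.comp snd))) ?_
  exact Primrec.ite (Primrec.nat_lt.comp (Primrec.nat_add.comp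
    (list_length.comp (fst.comp (snd.comp fst))) (Primrec.const cc)) (list_length.comp snd))
    (option_some.comp snd) (Primrec.const none)

private theorem prim_pm : Primrec (fun a : Par => pm a) := fst.comp (snd.comp (snd.comp snd))
private theorem prim_pn2 : Primrec (fun a : Par => pn2 a) := fst.comp snd
private theorem prim_pT : Primrec (fun a : Par => pT a) :=
  fst.comp (snd.comp (snd.comp (snd.comp snd)))
private theorem prim_pG : Primrec (fun a : Par => pG a) :=
  snd.comp (snd.comp (snd.comp (snd.comp snd)))

private theorem prim_evaln' {α : Type} [Primcodable α] {f n : α → ℕ} {c : α → Code}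
    (hf : Primrec f) (hc : Primrec c) (hn : Primrec n) :
    Primrec (fun x => Code.evaln (f x) (c x) (n x)) :=
  Code.primrec_evaln.comp (Primrec.pair (Primrec.pair hf hc) hn)

theorem prim_reveal :
    Primrec (fun x : (ℕ × ℕ) × Par × ℕ => reveal x.1.1 x.1.2 x.2.1 x.2.2) := by
  have hb : Primrec (fun x : (ℕ × ℕ) × Par × ℕ => bnd x.1.1 (pm x.2.1)) :=
    prim_bnd.comp (fst.comp fst) (prim_pm.comp (fst.comp snd))
  have hc : Primrec (fun x : (ℕ × ℕ) × Par × ℕ => Denumerable.ofNat Code x.1.1.unpair.1) :=
    (Primrec.ofNat Code).comp (fst.comp (Primrec.unpair.comp (fst.comp fst)))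
  have he : Primrec (fun x : (ℕ × ℕ) × Par × ℕ => Encodable.encode (fb (pm x.2.1) x.2.2)) :=
    Primrec.encode.comp (prim_fb.comp (prim_pm.comp (fst.comp snd)) (snd.comp snd))
  have h1 : Primrec (fun x : (ℕ × ℕ) × Par × ℕ => Code.evaln x.1.2
      (Denumerable.ofNat Code x.1.1.unpair.1) (Encodable.encode (fb (pm x.2.1) x.2.2))) :=
    prim_evaln' (f := fun x : (ℕ × ℕ) × Par × ℕ => x.1.2) (snd.comp fst) hc he
  have h3 : Primrec₂ (fun (_ : (ℕ × ℕ) × Par × ℕ) (n : ℕ) =>
      (Encodable.decode n : Option TT)) := Primrec.decode.comp snd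
  have h4 : Primrec₂ (fun (x : (ℕ × ℕ) × Par × ℕ) (y : TT) =>
      if y.1.length ≤ bnd x.1.1 (pm x.2.1) ∧ ∀ z ∈ y.1, z.length ≤ bnd x.1.1 (pm x.2.1)
        then some y else none) := by
    refine Primrec.ite (PrimrecPred.and ?_ ?_) (option_some.comp snd) (Primrec.const none)
    · exact Primrec.nat_le.comp (list_length.comp (fst.comp snd)) (hb.comp fst)
    · have h1 : PrimrecRel (fun (z : Str) (n : ℕ) => z.length ≤ n) :=
        Primrec.nat_le.comp (list_length.comp fst) snd
      exact (PrimrecRel.forall_mem_list h1).comp (fst.comp snd) (hb.comp fst)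
  exact option_bind (option_bind h1 h3) h4

private theorem prim_reveal' {α : Type} [Primcodable α] {i s t : α → ℕ} {a : α → Par}
    (hi : Primrec i) (hs : Primrec s) (ha : Primrec a) (ht : Primrec t) :
    Primrec (fun x => reveal (i x) (s x) (a x) (t x)) :=
  prim_reveal.comp (Primrec.pair (Primrec.pair hi hs) (Primrec.pair ha ht))

theorem prim_tabF : Primrec₂ tabF := by
  unfold tabF evalTT
  have hU : Primrec (fun n : ℕ => (upTo n).length) := list_length.comp prim_upTo
  refine list_map (list_range.comp (nat_pow.comp (Primrec.const 2) (hU.comp fst))) ?_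
  refine (list_getD false).comp (snd.comp (snd.comp fst)) (prim_valB.comp ?_)
  refine list_map (fst.comp (snd.comp fst)) ?_
  refine PrimrecPred.decide (PrimrecPred.and ?_ ?_)
  · exact Primrec.nat_le.comp (list_length.comp snd) (fst.comp (fst.comp fst))
  · refine Primrec.eq.comp ((list_getD false).comp ?_ ?_) (Primrec.const false)
    · exact prim_fb.comp (hU.comp (fst.comp (fst.comp fst))) (snd.comp fst)
    · exact primB_idxOf snd (prim_upTo.comp (fst.comp (fst.comp fst)))

private theorem prim_kills : Primrec kills := by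
  unfold kills
  exact list_append.comp (fst.comp (snd.comp fst)) snd

theorem prim_ext :
    Primrec (fun x : (ℕ × ℕ) × Par × List SS => ext x.1.1 x.1.2 x.2.1 x.2.2) := by
  unfold ext
  refine list_append.comp ?_ ?_
  · refine primB_filter (prim_Vdead.comp (snd.comp fst)) ?_
    exact Primrec.nat_le.comp (list_length.comp snd) (prim_pn2.comp (fst.comp (snd.comp fst)))
  · exact list_flatMap (list_take.comp (fst.comp fst) (snd.comp snd)) (prim_kills.comp snd)

private theorem prim_ext' {α : Type} [Primcodable α] {i s : α → ℕ} {a : α → Par}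
    {st : α → List SS} (hi : Primrec i) (hs : Primrec s) (ha : Primrec a) (hst : Primrec st) :
    Primrec (fun x => ext (i x) (s x) (a x) (st x)) :=
  prim_ext.comp (Primrec.pair (Primrec.pair hi hs) (Primrec.pair ha hst))

private theorem prim_fil' {α : Type} [Primcodable α] {a : α → Par} {P : α → Pos}
    (ha : Primrec a) (hP : Primrec P) :
    Primrec (fun x => ((pG (a x)).filter (fun Q => Reply (pT (a x)) (P x) Q)).head?) := by
  refine list_head?.comp (primB_filter (p := fun x Q => Reply (pT (a x)) (P x) Q)
    (prim_pG.comp ha) ?_)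
  exact prim_Reply.comp (Primrec.pair (prim_pT.comp (ha.comp fst))
    (Primrec.pair (hP.comp fst) snd))

private theorem prim_mem' {α : Type} [Primcodable α] {l m : α → List Str}
    (hl : Primrec l) (hm : Primrec m) :
    Primrec (fun x => ((l x).filter (fun z => z ∉ m x)).head?) := by
  refine list_head?.comp (primB_filter (p := fun x z => z ∉ m x) hl ?_)
  exact PrimrecPred.not (prim_mem snd (hm.comp fst))

private theorem prim_long {α : Type} [Primcodable α] {l : α → List Str} {n : α → ℕ}
    (hl : Primrec l) (hn : Primrec n) :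
    Primrec (fun x => (l x).filter (fun z => n x < z.length)) :=
  primB_filter (p := fun x z => n x < z.length) hl
    (Primrec.nat_lt.comp (hn.comp fst) (list_length.comp snd))

/-- the first branch -/
private theorem prim_br1 {α : Type} [Primcodable α] {a : α → Par} {p : α → SS} {z : α → Str}
    (ha : Primrec a) (hp : Primrec p) (hz : Primrec z) :
    Primrec (fun x => (((pG (a x)).filter
      (fun Q => Reply (pT (a x)) (addE (z x) (p x).1) Q)).head?).casesOn
        (motive := fun _ => SS) (p x) (fun Q => (Q, (p x).2))) := by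
  refine Primrec.option_casesOn (prim_fil' ha (prim_addE.comp hz (fst.comp hp))) hp ?_
  exact Primrec.pair snd (snd.comp (hp.comp fst))

/-- the second branch, the function is known -/
private theorem prim_br2 {α : Type} [Primcodable α] {a : α → Par} {p : α → SS} {y : α → TT}
    (ha : Primrec a) (hp : Primrec p) (hy : Primrec y) :
    Primrec (fun x => (((pG (a x)).filter
      (fun Q => Reply (pT (a x)) (setF (tabF (pn2 (a x)) (y x)) (p x).1) Q)).head?).casesOn
        (motive := fun _ => SS) (p x)
        (fun Q => (Q, (p x).2 ++ (y x).1.filter (fun z => pn2 (a x) < z.length)))) := by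
  refine Primrec.option_casesOn (prim_fil' ha
    (prim_setF.comp (prim_tabF.comp (prim_pn2.comp ha) hy) (fst.comp hp))) hp ?_
  exact Primrec.pair snd (list_append.comp (snd.comp (hp.comp fst))
    (prim_long (fst.comp (hy.comp fst)) (prim_pn2.comp (ha.comp fst))))

private theorem prim_upd' {α : Type} [Primcodable α] {i s : α → ℕ} {a : α → Par}
    {st : α → List SS} {p : α → SS} (hi : Primrec i) (hs : Primrec s) (ha : Primrec a)
    (hst : Primrec st) (hp : Primrec p) :
    Primrec (fun x => upd (i x) (s x) (a x) (st x) (p x)) := by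
  have h1 : Primrec (fun x => ((ext (i x) (s x) (a x) (st x)).filter
      (fun z => z ∉ pE (p x).1)).head?) :=
    prim_mem' (prim_ext' hi hs ha hst) (fst.comp (fst.comp hp))
  have hA : Primrec₂ (fun (x : α) (z : Str) =>
      (((pG (a x)).filter (fun Q => Reply (pT (a x)) (addE z (p x).1) Q)).head?).casesOn
        (motive := fun _ => SS) (p x) (fun Q => (Q, (p x).2))) :=
    prim_br1 (ha.comp fst) (hp.comp fst) snd
  have hB1 : Primrec₂ (fun (x : α) (y : TT) =>
      (((pG (a x)).filter
        (fun Q => Reply (pT (a x)) (setF (tabF (pn2 (a x)) y) (p x).1) Q)).head?).casesOn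
        (motive := fun _ => SS) (p x)
        (fun Q => (Q, (p x).2 ++ y.1.filter (fun z => pn2 (a x) < z.length)))) :=
    prim_br2 (ha.comp fst) (hp.comp fst) snd
  have hF : Primrec (fun x => pF (p x).1) :=
    snd.comp (snd.comp (snd.comp (snd.comp (fst.comp hp))))
  have ht : Primrec (fun x => pt (p x).1) := fst.comp (snd.comp (snd.comp (fst.comp hp)))
  have hB : Primrec (fun x : α =>
      if pF (p x).1 = none then
        (reveal (i x) (s x) (a x) (pt (p x).1)).casesOn (motive := fun _ => SS) (p x)
          (fun y => (((pG (a x)).filter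
            (fun Q => Reply (pT (a x)) (setF (tabF (pn2 (a x)) y) (p x).1) Q)).head?).casesOn
            (motive := fun _ => SS) (p x)
            (fun Q => (Q, (p x).2 ++ y.1.filter (fun z => pn2 (a x) < z.length))))
      else p x) :=
    Primrec.ite (Primrec.eq.comp hF (Primrec.const none))
      (Primrec.option_casesOn (prim_reveal' hi hs ha ht) hp hB1) hp
  refine (Primrec.option_casesOn h1 hB hA).of_eq fun x => ?_
  unfold upd
  cases ((ext (i x) (s x) (a x) (st x)).filter (fun z => z ∉ pE (p x).1)).head? with
  | none =>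
    simp only
    split_ifs with h
    · cases reveal (i x) (s x) (a x) (pt (p x).1) with
      | none => rfl
      | some y =>
        simp only
        cases ((pG (a x)).filter
            (fun Q => Reply (pT (a x)) (setF (tabF (pn2 (a x)) y) (p x).1) Q)).head? <;> rfl
    · rfl
  | some z =>
    simp only
    cases ((pG (a x)).filter (fun Q => Reply (pT (a x)) (addE z (p x).1) Q)).head? <;> rfl

theorem prim_upd :
    Primrec (fun x : (ℕ × ℕ) × Par × List SS × SS => upd x.1.1 x.1.2 x.2.1 x.2.2.1 x.2.2.2) :=
  prim_upd' (i := fun x : (ℕ × ℕ) × Par × List SS × SS => x.1.1) (s := fun x => x.1.2)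
    (a := fun x => x.2.1) (st := fun x => x.2.2.1) (p := fun x => x.2.2.2)
    (fst.comp fst) (snd.comp fst) (fst.comp snd) (fst.comp (snd.comp snd))
    (snd.comp (snd.comp snd))

theorem prim_step : Primrec (fun x : List Par × ℕ × List SS => step x.1 x.2.1 x.2.2) := by
  unfold step
  refine list_append.comp ?_ (Primrec.const [(P0, [])])
  refine list_map (list_range.comp (list_length.comp (snd.comp snd))) ?_
  exact prim_upd' (α := (List Par × ℕ × List SS) × ℕ) (i := fun x => x.2) (s := fun x => x.1.2.1)
    (a := fun x => x.1.1.getD x.2 default) (st := fun x => x.1.2.2)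
    (p := fun x => x.1.2.2.getD x.2 (P0, []))
    snd (fst.comp (snd.comp fst)) ((list_getD default).comp (fst.comp fst) snd)
    (snd.comp (snd.comp fst)) ((list_getD (P0, [])).comp (snd.comp (snd.comp fst)) snd)

end Pool.Agent.H861R3.NT
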